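import Mathlib

set_option autoImplicit false

/-!
Nineteen idempotents of rank one of the three by three matrices over the field with two elements. The
graph given by orthogonality has no homomorphism to a loopless graph without cycles of length four.
-/

namespace Pool.Agent.H6.NK

/-- the columns -/
def vc : Fin 19 → Fin 3 → ZMod 2 :=
  ![![0, 0, 1],
    ![0, 0, 1],
    ![0, 0, 1],
    ![0, 1, 0],
    ![0, 1, 0],
    ![0, 1, 0],
    ![0, 1, 1],
    ![0, 1, 1],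
    ![0, 1, 1],
    ![1, 0, 0],
    ![1, 0, 0],
    ![1, 0, 0],
    ![1, 0, 1],
    ![1, 0, 1],
    ![1, 1, 0],
    ![1, 1, 0],
    ![1, 1, 0],
    ![1, 1, 0],
    ![1, 1, 1]]

/-- the rows -/
def vr : Fin 19 → Fin 3 → ZMod 2 :=
  ![![0, 0, 1],
    ![0, 1, 1],
    ![1, 1, 1],
    ![0, 1, 0],
    ![1, 1, 0],
    ![1, 1, 1],
    ![0, 0, 1],
    ![0, 1, 0],
    ![1, 1, 0],
    ![1, 0, 0],
    ![1, 1, 0],
    ![1, 1, 1],
    ![0, 0, 1],
    ![1, 0, 0],
    ![0, 1, 0],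
    ![0, 1, 1],
    ![1, 0, 0],
    ![1, 0, 1],
    ![0, 0, 1]]

theorem vr_vc (k : Fin 19) : vr k ⬝ᵥ vc k = 1 := by
  revert k
  decide

/-- orthogonality of the idempotents -/
def Orth (k l : Fin 19) : Prop := vr k ⬝ᵥ vc l = 0 ∧ vr l ⬝ᵥ vc k = 0

instance (k l : Fin 19) : Decidable (Orth k l) := by
  unfold Orth
  infer_instance

theorem Orth.symm {k l : Fin 19} (h : Orth k l) : Orth l k := ⟨h.2, h.1⟩

theorem Orth.ne {k l : Fin 19} (h : Orth k l) : k ≠ l := by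
  rintro rfl
  have := vr_vc k
  rw [h.1] at this
  exact absurd this (by decide)

theorem k4e {P : Type*} (R : P → P → Prop) (hs : ∀ a b, R a b → R b a) (hi : ∀ a, ¬ R a a)
    (h4 : ∀ a b c d, R a b → R b c → R c d → R d a → a = c ∨ b = d) {x y z w : P}
    (xy : R x y) (xz : R x z) (yz : R y z) (xw : R x w) (yw : R y w) : z = w := by
  rcases h4 x z y w xz (hs _ _ yz) yw (hs _ _ xw) with h | h
  · subst h
    exact absurd xy (hi _)
  · exact h

theorem cg {P V : Type*} {R : P → P → Prop} {f : V → P} {a a' b b' : V} (h1 : f a = f a')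
    (h2 : f b = f b') (h : R (f a) (f b)) : R (f a') (f b') := by
  rwa [h1, h2] at h

theorem no_hom {P : Type*} (R : P → P → Prop) (hs : ∀ a b, R a b → R b a) (hi : ∀ a, ¬ R a a)
    (h4 : ∀ a b c d, R a b → R b c → R c d → R d a → a = c ∨ b = d) (f : Fin 19 → P)
    (h : ∀ k l, Orth k l → R (f k) (f l)) : False := by
  have e_0_3 : R (f 0) (f 3) := h 0 3 (by decide)
  have e_0_9 : R (f 0) (f 9) := h 0 9 (by decide)
  have e_0_14 : R (f 0) (f 14) := h 0 14 (by decide)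
  have e_1_7 : R (f 1) (f 7) := h 1 7 (by decide)
  have e_1_9 : R (f 1) (f 9) := h 1 9 (by decide)
  have e_1_10 : R (f 1) (f 10) := h 1 10 (by decide)
  have e_2_7 : R (f 2) (f 7) := h 2 7 (by decide)
  have e_2_8 : R (f 2) (f 8) := h 2 8 (by decide)
  have e_2_13 : R (f 2) (f 13) := h 2 13 (by decide)
  have e_2_14 : R (f 2) (f 14) := h 2 14 (by decide)
  have e_2_16 : R (f 2) (f 16) := h 2 16 (by decide)
  have e_3_0 : R (f 3) (f 0) := h 3 0 (by decide)
  have e_3_9 : R (f 3) (f 9) := h 3 9 (by decide)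
  have e_3_12 : R (f 3) (f 12) := h 3 12 (by decide)
  have e_4_0 : R (f 4) (f 0) := h 4 0 (by decide)
  have e_4_17 : R (f 4) (f 17) := h 4 17 (by decide)
  have e_5_6 : R (f 5) (f 6) := h 5 6 (by decide)
  have e_5_12 : R (f 5) (f 12) := h 5 12 (by decide)
  have e_5_13 : R (f 5) (f 13) := h 5 13 (by decide)
  have e_5_16 : R (f 5) (f 16) := h 5 16 (by decide)
  have e_6_5 : R (f 6) (f 5) := h 6 5 (by decide)
  have e_6_11 : R (f 6) (f 11) := h 6 11 (by decide)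
  have e_6_16 : R (f 6) (f 16) := h 6 16 (by decide)
  have e_7_2 : R (f 7) (f 2) := h 7 2 (by decide)
  have e_7_9 : R (f 7) (f 9) := h 7 9 (by decide)
  have e_7_11 : R (f 7) (f 11) := h 7 11 (by decide)
  have e_7_13 : R (f 7) (f 13) := h 7 13 (by decide)
  have e_8_1 : R (f 8) (f 1) := h 8 1 (by decide)
  have e_8_2 : R (f 8) (f 2) := h 8 2 (by decide)
  have e_8_16 : R (f 8) (f 16) := h 8 16 (by decide)
  have e_9_0 : R (f 9) (f 0) := h 9 0 (by decide)
  have e_9_3 : R (f 9) (f 3) := h 9 3 (by decide)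
  have e_9_6 : R (f 9) (f 6) := h 9 6 (by decide)
  have e_10_0 : R (f 10) (f 0) := h 10 0 (by decide)
  have e_10_14 : R (f 10) (f 14) := h 10 14 (by decide)
  have e_10_15 : R (f 10) (f 15) := h 10 15 (by decide)
  have e_10_18 : R (f 10) (f 18) := h 10 18 (by decide)
  have e_11_7 : R (f 11) (f 7) := h 11 7 (by decide)
  have e_11_12 : R (f 11) (f 12) := h 11 12 (by decide)
  have e_11_14 : R (f 11) (f 14) := h 11 14 (by decide)
  have e_13_3 : R (f 13) (f 3) := h 13 3 (by decide)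
  have e_13_7 : R (f 13) (f 7) := h 13 7 (by decide)
  have e_14_0 : R (f 14) (f 0) := h 14 0 (by decide)
  have e_14_2 : R (f 14) (f 2) := h 14 2 (by decide)
  have e_14_11 : R (f 14) (f 11) := h 14 11 (by decide)
  have e_14_12 : R (f 14) (f 12) := h 14 12 (by decide)
  have e_15_8 : R (f 15) (f 8) := h 15 8 (by decide)
  have e_15_11 : R (f 15) (f 11) := h 15 11 (by decide)
  have e_15_18 : R (f 15) (f 18) := h 15 18 (by decide)
  have e_16_5 : R (f 16) (f 5) := h 16 5 (by decide)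
  have e_16_6 : R (f 16) (f 6) := h 16 6 (by decide)
  have e_17_12 : R (f 17) (f 12) := h 17 12 (by decide)
  have e_18_4 : R (f 18) (f 4) := h 18 4 (by decide)
  have e_18_17 : R (f 18) (f 17) := h 18 17 (by decide)
  rcases h4 (f 8) (f 1) (f 10) (f 15) e_8_1 e_1_10 e_10_15 e_15_8 with hh | hh
  · have q0 : f 10 = f 8 := hh.symm
    have q1 : f 16 = f 14 := (k4e R hs hi h4 e_2_8 e_2_14
      (cg q0 rfl e_10_14) e_2_16 e_8_16).symm
    have q2 : f 0 = f 2 := (k4e R hs hi h4 (cg q0 rfl e_10_14) e_8_2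
      e_14_2 (cg q0 rfl e_10_0) e_14_0).symm
    have q3 : f 11 = f 5 := (k4e R hs hi h4 (cg rfl q1 e_6_16) e_6_5
      (cg q1 rfl e_16_5) e_6_11 e_14_11).symm
    have q4 : f 12 = f 6 := (k4e R hs hi h4 (cg rfl q1 e_5_16) e_5_6
      (cg q1 rfl e_16_6) e_5_12 e_14_12).symm
    have q5 : f 6 = f 2 := (k4e R hs hi h4 e_3_9 (cg rfl q2 e_3_0)
      (cg rfl q2 e_9_0) (cg rfl q4 e_3_12) e_9_6).symm
    have q6 : f 2 = f 13 := (k4e R hs hi h4 (cg q3 rfl e_11_7) e_5_13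
      e_7_13 (cg rfl q5 e_5_6) e_7_2).symm
    exact hi _ (cg q6 rfl e_2_13)
  · have q0 : f 15 = f 1 := hh.symm
    have q1 : f 11 = f 9 := (k4e R hs hi h4 e_1_7 e_1_9
      e_7_9 (cg q0 rfl e_15_11) e_7_11).symm
    have q2 : f 14 = f 3 := (k4e R hs hi h4 e_0_9 e_0_3
      e_9_3 e_0_14 (cg q1 rfl e_11_14)).symm
    have q3 : f 3 = f 7 := (k4e R hs hi h4 e_2_13 e_2_7
      e_13_7 (cg rfl q2 e_2_14) e_13_3).symm
    have q4 : f 7 = f 18 := (k4e R hs hi h4 e_1_10 (cg q0 rfl e_15_18)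
      e_10_18 e_1_7 (cg rfl (q2.trans q3) e_10_14)).symm
    have q5 : f 17 = f 0 := (k4e R hs hi h4 e_18_4 (cg (q3.trans q4) rfl e_3_0)
      e_4_0 e_18_17 e_4_17).symm
    have q6 : f 12 = f 18 := (k4e R hs hi h4 e_0_9 (cg rfl (q3.trans q4) e_0_3)
      (cg rfl (q3.trans q4) e_9_3) (cg q5 rfl e_17_12) (cg q1 rfl e_11_12)).symm
    exact hi _ (cg (q3.trans q4) q6 e_3_12)

end Pool.Agent.H6.NK
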