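import Mathlib

set_option autoImplicit false

/-!
Dimension groups and their positive cones.
-/

namespace Pool.Agent.H6.NK

universe u

/-- A dimension group: a partially ordered abelian group that is directed, unperforated and has the
Riesz interpolation property. -/
structure IsDimensionGroup (G : Type u) [AddCommGroup G] [PartialOrder G] [IsOrderedAddMonoid G] :
    Prop where
  directed : ∀ a b : G, ∃ c, a ≤ c ∧ b ≤ c
  unperforated : ∀ (n : ℕ) (a : G), 0 < n → 0 ≤ n • a → 0 ≤ a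
  interpolation : ∀ a₁ a₂ b₁ b₂ : G, a₁ ≤ b₁ → a₁ ≤ b₂ → a₂ ≤ b₁ → a₂ ≤ b₂ →
    ∃ c, a₁ ≤ c ∧ a₂ ≤ c ∧ c ≤ b₁ ∧ c ≤ b₂

/-- The properties of a commutative monoid that characterise positive cones of dimension groups. -/
structure DimCone (M : Type u) [AddCommMonoid M] : Prop where
  cancel : ∀ a b c : M, a + c = b + c → a = b
  conical : ∀ a b : M, a + b = 0 → a = 0
  unperf : ∀ (n : ℕ) (a b c : M), 0 < n → n • a + c = n • b → ∃ d, a + d = b
  refine : ∀ a b c d : M, a + b = c + d →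
    ∃ x y z w : M, a = x + y ∧ b = z + w ∧ c = x + z ∧ d = y + w

section
variable {M : Type u} [AddCommMonoid M]

theorem DimCone.exists_group (h : DimCone M) : ∃ (G : Type u) (_ : AddCommGroup G)
    (_ : PartialOrder G) (_ : IsOrderedAddMonoid G), IsDimensionGroup G ∧
      Nonempty (AddSubmonoid.nonneg G ≃+ M) := by
  have : IsCancelAdd M :=
    { add_left_cancel := fun a b c hbc => h.cancel b c a (by
        rw [add_comm b, add_comm c]
        exact hbc)
      add_right_cancel := fun a b c hbc => h.cancel b c a hbc }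
  let G := Algebra.GrothendieckAddGroup M
  let ι : M →+ G := Algebra.GrothendieckAddGroup.of
  have hι : Function.Injective ι := Algebra.GrothendieckAddGroup.of_injective
  have hsurj : ∀ g : G, ∃ a b : M, g + ι b = ι a := by
    intro g
    obtain ⟨⟨a, b⟩, hab⟩ := (AddLocalization.addMonoidOf (⊤ : AddSubmonoid M)).surj g
    exact ⟨a, b, hab⟩
  let P : PartialOrder G :=
    { le := fun x y => ∃ c : M, x + ι c = y
      le_refl := fun x => ⟨0, by rw [map_zero, add_zero]⟩
      le_trans := by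
        rintro x y z ⟨c, rfl⟩ ⟨d, rfl⟩
        exact ⟨c + d, by rw [map_add, add_assoc]⟩
      le_antisymm := by
        rintro x y ⟨c, rfl⟩ ⟨d, hd⟩
        have h1 : ι (c + d) = ι 0 := by
          rw [map_add, map_zero]
          rw [add_assoc] at hd
          simpa using hd
        have h2 := h.conical c d (hι h1)
        rw [h2, map_zero, add_zero] }
  have hle : ∀ x y : G, x ≤ y ↔ ∃ c : M, x + ι c = y := fun x y => Iff.rfl
  have hO : IsOrderedAddMonoid G :=
    { add_le_add_left := by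
        rintro x y ⟨c, rfl⟩ z
        exact ⟨c, by abel⟩ }
  have hpos : ∀ a : M, 0 ≤ ι a := fun a => ⟨a, zero_add _⟩
  refine ⟨G, inferInstance, P, hO, ⟨?_, ?_, ?_⟩, ⟨?_⟩⟩
  · intro x y
    obtain ⟨a, b, hab⟩ := hsurj x
    obtain ⟨c, d, hcd⟩ := hsurj y
    refine ⟨ι a + ι c, ⟨b + c, ?_⟩, ⟨a + d, ?_⟩⟩
    · rw [map_add, ← add_assoc, hab]
    · rw [map_add, add_comm (ι a) (ι d), ← add_assoc, hcd, add_comm]
  · intro n x hn hx
    obtain ⟨a, b, hab⟩ := hsurj x
    obtain ⟨c, hc⟩ := hx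
    rw [zero_add] at hc
    have h1 : n • b + c = n • a := by
      apply hι
      rw [map_add, map_nsmul, map_nsmul, ← hab, nsmul_add, hc, add_comm]
    obtain ⟨d, hd⟩ := h.unperf n b a c hn h1
    refine ⟨d, ?_⟩
    rw [zero_add]
    rw [← hd, map_add, add_comm x] at hab
    exact (add_left_cancel hab).symm
  · rintro a₁ a₂ b₁ b₂ ⟨m₁₁, h₁₁⟩ ⟨m₁₂, h₁₂⟩ ⟨m₂₁, h₂₁⟩ ⟨m₂₂, h₂₂⟩
    have h1 : m₁₁ + m₂₂ = m₁₂ + m₂₁ := by
      apply hι
      rw [map_add, map_add]
      have e1 : ι m₁₁ = b₁ - a₁ := by rw [← h₁₁]; abel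
      have e2 : ι m₁₂ = b₂ - a₁ := by rw [← h₁₂]; abel
      have e3 : ι m₂₁ = b₁ - a₂ := by rw [← h₂₁]; abel
      have e4 : ι m₂₂ = b₂ - a₂ := by rw [← h₂₂]; abel
      rw [e1, e2, e3, e4]
      abel
    obtain ⟨x, y, z, w, e1, e2, e3, e4⟩ := h.refine _ _ _ _ h1
    refine ⟨a₁ + ι x, ⟨x, rfl⟩, ⟨w, ?_⟩, ⟨y, ?_⟩, ⟨z, ?_⟩⟩
    · -- `a₂ + w = a₁ + x`
      rw [e4, map_add] at h₂₁
      rw [e1, map_add] at h₁₁
      have : a₂ + ι w = a₂ + (ι y + ι w) - ι y := by abel
      rw [this, h₂₁, ← h₁₁]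
      abel
    · rw [add_assoc, ← map_add, ← e1, h₁₁]
    · rw [add_assoc, ← map_add, ← e3, h₁₂]
  · let f : M → AddSubmonoid.nonneg G := fun a => ⟨ι a, hpos a⟩
    refine (AddEquiv.mk (Equiv.ofBijective f ⟨?_, ?_⟩) ?_).symm
    · intro a b hab
      exact hι (congrArg Subtype.val hab)
    · rintro ⟨x, c, hc⟩
      refine ⟨c, Subtype.ext ?_⟩
      rw [zero_add] at hc
      exact hc
    · intro a b
      exact Subtype.ext (map_add ι a b)

/-- A monoid homomorphism to a power of the natural numbers with a section. -/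
structure Spl (M : Type u) [AddCommMonoid M] : Prop where
  out : ∃ (J : Type) (_ : Fintype J) (r : J → M →+ ℕ) (γ : J → M), ∀ c, c = ∑ j, r j c • γ j

end

end Pool.Agent.H6.NK
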