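import Mathlib

set_option autoImplicit false

/-!
Free choices of finitely many indices.
-/

namespace Pool.Agent.H6.NK

open Cardinal

theorem exists_avoid' {I : Type} {ι : Type} (J : Set I) (κ : Cardinal.{0}) (hκ : ℵ₀ ≤ κ)
    (hι : #ι ≤ κ) (hJ : κ < #J) (B : ι → Set I) (hB : ∀ t, (B t).Countable) :
    ∃ x ∈ J, ∀ t : ι, x ∉ B t := by
  by_contra hcon
  push Not at hcon
  have hsub : J ⊆ ⋃ t : ι, B t := by
    intro x hx
    obtain ⟨t, ht⟩ := hcon x hx
    exact Set.mem_iUnion.2 ⟨t, ht⟩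
  have h1 : #J ≤ #(⋃ t : ι, B t) := Cardinal.mk_le_mk_of_subset hsub
  have h2 : #(⋃ t : ι, B t) ≤ Cardinal.sum fun t : ι => #(B t) :=
    Cardinal.mk_iUnion_le_sum_mk
  have h3 : (Cardinal.sum fun t : ι => #(B t)) ≤ Cardinal.sum fun _ : ι => ℵ₀ := by
    apply Cardinal.sum_le_sum
    intro t
    exact (hB t).le_aleph0
  have h4 : (Cardinal.sum fun _ : ι => ℵ₀) = #ι * ℵ₀ := by
    rw [Cardinal.sum_const']
  have h5 : #ι * ℵ₀ ≤ κ := by
    calc #ι * ℵ₀ ≤ κ * κ := mul_le_mul' hι hκ
      _ = κ := Cardinal.mul_eq_self hκ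
  exact absurd (hJ.trans_le (h1.trans (h2.trans (h3.trans (h4.le.trans h5))))) (lt_irrefl _)

theorem free_choice {V I : Type} [Nonempty I] (e : ℕ → V) (J : ℕ → Set I)
    (Bd : V × I → V × I → Set (V × I)) (hB : ∀ p q, (Bd p q).Countable) (n : ℕ)
    (hJ : ∀ k < n, #(J k) = aleph (k + 1 : ℕ)) (F : Set (V × I)) (hF : F.Countable) :
    ∃ x : ℕ → I, (∀ k < n, x k ∈ J k) ∧ ∀ m < n, ∀ p q : V × I,
      (p ∈ F ∨ ∃ k < n, k ≠ m ∧ p = (e k, x k)) → (q ∈ F ∨ ∃ k < n, k ≠ m ∧ q = (e k, x k)) →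
        (e m, x m) ∉ Bd p q := by
  classical
  induction n generalizing F with
  | zero =>
    exact ⟨fun _ => Classical.arbitrary I, fun k hk => absurd hk (Nat.not_lt_zero _),
      fun m hm => absurd hm (Nat.not_lt_zero _)⟩
  | succ n ih =>
    have a0 : ∀ o : Ordinal.{0}, ℵ₀ ≤ aleph o := fun o => Cardinal.aleph0_le_aleph o
    obtain ⟨G, hG⟩ : ∃ G : Set (V × I), G = F ∪ ⋃ k : Fin n, (fun y => (e k, y)) '' J k :=
      ⟨_, rfl⟩
    have hGc : #G ≤ aleph (n : ℕ) := by
      rw [hG]
      refine (Cardinal.mk_union_le _ _).trans ?_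
      have h1 : #F ≤ aleph (n : ℕ) := hF.le_aleph0.trans (a0 _)
      have h2 : #(⋃ k : Fin n, (fun y => (e k, y)) '' J k) ≤ aleph (n : ℕ) := by
        refine Cardinal.mk_iUnion_le_sum_mk.trans ?_
        have h3 : (Cardinal.sum fun k : Fin n => #((fun y => (e k, y)) '' J k)) ≤
            Cardinal.sum fun _ : Fin n => aleph (n : ℕ) := by
          apply Cardinal.sum_le_sum
          intro k
          refine Cardinal.mk_image_le.trans ?_
          rw [hJ k (by omega)]
          apply Cardinal.aleph_le_aleph.2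
          exact_mod_cast k.2
        refine h3.trans ?_
        rw [Cardinal.sum_const']
        calc #(Fin n) * aleph (n : ℕ) ≤ aleph (n : ℕ) * aleph (n : ℕ) := by
              apply mul_le_mul' _ le_rfl
              exact (Cardinal.lt_aleph0_of_finite _).le.trans (a0 _)
          _ = aleph (n : ℕ) := Cardinal.mul_eq_self (a0 _)
      exact (add_le_add h1 h2).trans (Cardinal.add_eq_self (a0 _)).le
    obtain ⟨y, hy, hy'⟩ := exists_avoid' (ι := G × G) (J n) (aleph (n : ℕ)) (a0 _)
      (by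
        rw [Cardinal.mk_prod]
        simp only [Cardinal.lift_id]
        exact (mul_le_mul' hGc hGc).trans (Cardinal.mul_eq_self (a0 _)).le)
      (by
        rw [hJ n (by omega)]
        apply Cardinal.aleph_lt_aleph.2
        exact_mod_cast Nat.lt_succ_self n)
      (fun t => (fun y => (e n, y)) ⁻¹' Bd t.1.1 t.2.1)
      (fun t => (hB _ _).preimage_of_injOn (fun a _ b _ hab => (Prod.mk.inj hab).2))
    obtain ⟨x, hx, hx'⟩ := ih (fun k hk => hJ k (by omega)) (insert (e n, y) F)
      (hF.insert _)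
    refine ⟨Function.update x n y, ?_, ?_⟩
    · intro k hk
      by_cases hkn : k = n
      · subst hkn
        rw [Function.update_self]
        exact hy
      · rw [Function.update_of_ne hkn]
        exact hx k (by omega)
    · intro m hm p q hp hq
      by_cases hmn : m = n
      · subst hmn
        rw [Function.update_self]
        have key : ∀ p : V × I, (p ∈ F ∨ ∃ k < m + 1, k ≠ m ∧ p = (e k, Function.update x m y k)) →
            p ∈ G := by
          rintro p (hp | ⟨k, hk, hkm, rfl⟩)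
          · rw [hG]
            exact Or.inl hp
          · rw [hG, Function.update_of_ne hkm]
            have hk' : k < m := by omega
            exact Or.inr (Set.mem_iUnion.2 ⟨⟨k, hk'⟩, x k, hx k hk', rfl⟩)
        exact hy' (⟨p, key p hp⟩, ⟨q, key q hq⟩)
      · rw [Function.update_of_ne hmn]
        have key : ∀ p : V × I, (p ∈ F ∨ ∃ k < n + 1, k ≠ m ∧ p = (e k, Function.update x n y k)) →
            (p ∈ insert (e n, y) F ∨ ∃ k < n, k ≠ m ∧ p = (e k, x k)) := by
          rintro p (hp | ⟨k, hk, hkm, rfl⟩)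
          · exact Or.inl (Set.mem_insert_of_mem _ hp)
          · by_cases hkn : k = n
            · subst hkn
              rw [Function.update_self]
              exact Or.inl (Set.mem_insert _ _)
            · rw [Function.update_of_ne hkn]
              exact Or.inr ⟨k, by omega, hkm, rfl⟩
        exact hx' m (by omega) p q (key p hp) (key q hq)

/-- The index set: a set of cardinality `ℵ₁₉`. -/
noncomputable def Ix : Type := (aleph (19 : ℕ)).out

theorem mk_Ix : #Ix = aleph (19 : ℕ) := Cardinal.mk_out _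

theorem free19 (Bd : Fin 19 × Ix → Fin 19 × Ix → Set (Fin 19 × Ix))
    (hB : ∀ p q, (Bd p q).Countable) : ∃ x : Fin 19 → Ix, ∀ k l m : Fin 19, k ≠ m → l ≠ m →
      (m, x m) ∉ Bd (k, x k) (l, x l) := by
  have hne : Nonempty Ix := by
    have : #Ix ≠ 0 := by
      rw [mk_Ix]
      exact (Cardinal.aleph_pos _).ne'
    exact Cardinal.mk_ne_zero_iff.1 this
  have hJ : ∀ k : ℕ, ∃ J : Set Ix, k < 19 → #J = aleph (k + 1 : ℕ) := by
    intro k
    by_cases hk : k < 19
    · obtain ⟨J, hJ⟩ : ∃ J : Set Ix, #J = aleph (k + 1 : ℕ) := by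
        apply Cardinal.le_mk_iff_exists_set.1
        rw [mk_Ix]
        apply Cardinal.aleph_le_aleph.2
        exact_mod_cast hk
      exact ⟨J, fun _ => hJ⟩
    · exact ⟨∅, fun h => absurd h hk⟩
  choose J hJ using hJ
  obtain ⟨x, _, hx⟩ := free_choice (V := Fin 19)
    (fun k => if h : k < 19 then (⟨k, h⟩ : Fin 19) else 0) J Bd hB 19 hJ ∅ Set.countable_empty
  refine ⟨fun k => x k, fun k l m hkm hlm => ?_⟩
  have h1 := hx m m.2 (k, x k) (l, x l)
    (Or.inr ⟨k, k.2, fun h => hkm (Fin.ext h), by simp⟩)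
    (Or.inr ⟨l, l.2, fun h => hlm (Fin.ext h), by simp⟩)
  simpa using h1

end Pool.Agent.H6.NK
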