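import Pool.Agent.H6.NK.LemP

set_option autoImplicit false

/-!
Real rank zero passes to matrices.
-/

namespace Pool.Agent.H6.NK

universe u

/-- invertible self-adjoint elements are dense -/
def INV (U : Type u) [CStarAlgebra U] : Prop :=
  ∀ x : U, IsSelfAdjoint x → ∀ ε : ℝ, 0 < ε → ∃ y : U, IsSelfAdjoint y ∧ IsUnit y ∧ ‖x - y‖ < ε

section
variable {U : Type u} [CStarAlgebra U]

theorem inv_of_fs (h : FS U) : INV U := by
  intro x hx ε hε
  obtain ⟨y, hy, hf, hxy⟩ := h x hx (ε / 2) (by linarith)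
  have hinf : (Set.Ioo 0 (ε / 2) : Set ℝ).Infinite := Set.Ioo_infinite (by linarith)
  have hfin : {t : ℝ | (-(t : ℂ)) ∈ spectrum ℂ y}.Finite := by
    refine hf.preimage (f := fun t : ℝ => -(t : ℂ)) ?_
    intro a _ b _ hab
    have : (a : ℂ) = b := neg_injective hab
    exact_mod_cast this
  obtain ⟨t, ht, ht'⟩ := hinf.exists_notMem_finite hfin
  refine ⟨y + algebraMap ℝ U t, hy.add (IsSelfAdjoint.algebraMap U (IsSelfAdjoint.all t)), ?_, ?_⟩
  · have h1 : IsUnit (algebraMap ℂ U (-(t : ℂ)) - y) := spectrum.notMem_iff.1 ht'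
    have h2 : y + algebraMap ℝ U t = -(algebraMap ℂ U (-(t : ℂ)) - y) := by
      rw [map_neg, IsScalarTower.algebraMap_apply ℝ ℂ U t]
      simp
    rw [h2]
    exact h1.neg
  · have h3 : x - (y + algebraMap ℝ U t) = (x - y) - algebraMap ℝ U t := by abel
    rw [h3]
    have h4 : ‖algebraMap ℝ U t‖ ≤ t := by
      rcases subsingleton_or_nontrivial U with hU | hU
      · have : algebraMap ℝ U t = 0 := Subsingleton.elim _ _
        rw [this, norm_zero]
        exact ht.1.le
      · rw [norm_algebraMap', Real.norm_of_nonneg ht.1.le]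
    calc ‖(x - y) - algebraMap ℝ U t‖ ≤ ‖x - y‖ + ‖algebraMap ℝ U t‖ := norm_sub_le _ _
      _ < ε / 2 + ε / 2 := add_lt_add_of_lt_of_le hxy (h4.trans ht.2.le)
      _ = ε := by ring

theorem exists_avoid_fin (h : INV U) (x : U) (hx : IsSelfAdjoint x) (η : ℝ) (hη : 0 < η)
    (Λ : Finset ℝ) : ∃ y : U, IsSelfAdjoint y ∧ ‖x - y‖ < η ∧
      ∀ l ∈ Λ, IsUnit (y - algebraMap ℝ U l) := by
  classical
  induction Λ using Finset.induction_on with
  | empty => exact ⟨x, hx, by rw [sub_self, norm_zero]; exact hη, fun l hl => by simp at hl⟩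
  | insert a Λ ha ih =>
    obtain ⟨y, hy, hxy, hu⟩ := ih
    have hopen : IsOpen {z : U | ‖x - z‖ < η ∧ ∀ l ∈ Λ, IsUnit (z - algebraMap ℝ U l)} := by
      apply IsOpen.inter
      · exact isOpen_lt (continuous_norm.comp (continuous_const.sub continuous_id))
          continuous_const
      · have : {z : U | ∀ l ∈ Λ, IsUnit (z - algebraMap ℝ U l)} =
            ⋂ l ∈ Λ, {z : U | IsUnit (z - algebraMap ℝ U l)} := by
          ext z
          simp
        show IsOpen {z : U | ∀ l ∈ Λ, IsUnit (z - algebraMap ℝ U l)}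
        rw [this]
        refine isOpen_biInter_finset fun l _ => ?_
        exact Units.isOpen.preimage (continuous_id.sub continuous_const)
    obtain ⟨η', hη', hball⟩ := Metric.isOpen_iff.1 hopen y ⟨hxy, hu⟩
    obtain ⟨z, hz, hzu, hyz⟩ := h (y - algebraMap ℝ U a)
      (hy.sub (IsSelfAdjoint.algebraMap U (IsSelfAdjoint.all a))) η' hη'
    have hmem : z + algebraMap ℝ U a ∈ Metric.ball y η' := by
      rw [Metric.mem_ball, dist_eq_norm, norm_sub_rev]
      have : y - (z + algebraMap ℝ U a) = y - algebraMap ℝ U a - z := by abel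
      rwa [this]
    obtain ⟨h1, h2⟩ := hball hmem
    refine ⟨z + algebraMap ℝ U a, hz.add (IsSelfAdjoint.algebraMap U (IsSelfAdjoint.all a)), h1,
      ?_⟩
    intro l hl
    rcases Finset.mem_insert.1 hl with rfl | hl
    · rwa [add_sub_cancel_right]
    · exact h2 l hl

theorem fs_of_inv (h : INV U) : FS U := by
  intro x hx ε hε
  obtain ⟨δ, hδ⟩ : ∃ δ : ℝ, δ = ε / 4 := ⟨_, rfl⟩
  have hδ0 : 0 < δ := by rw [hδ]; linarith
  obtain ⟨N, hN⟩ := exists_nat_gt ((‖x‖ + ε) / δ)
  obtain ⟨y, hy, hxy, hu⟩ := exists_avoid_fin h x hx (ε / 2) (by linarith)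
    ((Finset.Icc (-(N : ℤ)) N).image fun j : ℤ => (j : ℝ) * δ)
  have hny : ‖y‖ < N * δ := by
    have h1 : ‖y‖ ≤ ‖x‖ + ‖x - y‖ := by
      have : y = x - (x - y) := by abel
      calc ‖y‖ = ‖x - (x - y)‖ := by rw [← this]
        _ ≤ ‖x‖ + ‖x - y‖ := norm_sub_le _ _
    rw [div_lt_iff₀ hδ0] at hN
    linarith
  have hsp : ∀ t ∈ spectrum ℝ y, |t| < N * δ := by
    intro t ht
    rcases subsingleton_or_nontrivial U with hU | hU
    · exact absurd (isUnit_of_subsingleton _) ht
    · have := spectrum.norm_le_norm_of_mem ht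
      rw [Real.norm_eq_abs] at this
      linarith
  have hfl : ∀ t ∈ spectrum ℝ y, ∀ j : ℤ, t ≠ j * δ := by
    intro t ht j hj
    have h1 := hsp t ht
    rw [hj, abs_mul, abs_of_pos hδ0] at h1
    have h2 : |(j : ℝ)| < N := lt_of_mul_lt_mul_right h1 hδ0.le
    have h3 : |j| < N := by exact_mod_cast h2
    rw [abs_lt] at h3
    have h4 := hu (j * δ) (Finset.mem_image.2 ⟨j, Finset.mem_Icc.2 ⟨h3.1.le, h3.2.le⟩, rfl⟩)
    rw [← hj] at h4
    apply ht
    have : algebraMap ℝ U t - y = -(y - algebraMap ℝ U t) := by abel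
    show IsUnit (algebraMap ℝ U t - y)
    rw [this]
    exact h4.neg
  obtain ⟨F, hF⟩ : ∃ F : ℝ → ℝ, F = fun t => (⌊t / δ⌋ : ℝ) * δ := ⟨_, rfl⟩
  have hcF : ContinuousOn F (spectrum ℝ y) := by
    intro t ht
    apply ContinuousAt.continuousWithinAt
    have h1 : (⌊t / δ⌋ : ℝ) < t / δ := by
      refine lt_of_le_of_ne (Int.floor_le _) ?_
      intro heq
      apply hfl t ht ⌊t / δ⌋
      rw [heq]
      field_simp
    have h2 : t / δ < ⌊t / δ⌋ + 1 := Int.lt_floor_add_one _
    have hev : ∀ᶠ s in nhds t, F s = F t := by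
      have hc : Filter.Tendsto (fun s : ℝ => s / δ) (nhds t) (nhds (t / δ)) :=
        (continuous_id.div_const δ).tendsto t
      filter_upwards [hc (Ioo_mem_nhds h1 h2)] with s hs
      rw [hF]
      have : ⌊s / δ⌋ = ⌊t / δ⌋ := by
        rw [Int.floor_eq_iff]
        exact ⟨hs.1.le, hs.2⟩
      simp only [this]
    exact continuousAt_const.congr (hev.mono fun s hs => hs.symm)
  have hcid : ContinuousOn (fun t : ℝ => t) (spectrum ℝ y) := continuousOn_id
  refine ⟨cfc F y, cfc_predicate F y, ?_, ?_⟩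
  · have hz : IsSelfAdjoint (cfc F y) := cfc_predicate F y
    have h1 : (spectrum ℝ (cfc F y)).Finite := by
      rw [cfc_map_spectrum F y hy hcF]
      refine ((Finset.Icc (-(N : ℤ) - 1) N).finite_toSet.image (fun j : ℤ => (j : ℝ) * δ)).subset ?_
      rintro _ ⟨t, ht, rfl⟩
      refine ⟨⌊t / δ⌋, ?_, by rw [hF]⟩
      have h1 := hsp t ht
      rw [abs_lt] at h1
      rw [Finset.coe_Icc, Set.mem_Icc]
      constructor
      · rw [Int.le_floor]
        push_cast
        rw [le_div_iff₀ hδ0]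
        nlinarith [h1.1]
      · have : ⌊t / δ⌋ < N := by
          rw [Int.floor_lt]
          push_cast
          rw [div_lt_iff₀ hδ0]
          exact h1.2
        exact this.le
    have h2 : spectrum ℂ (cfc F y) = (algebraMap ℝ ℂ) '' spectrum ℝ (cfc F y) :=
      (hz.spectrumRestricts.algebraMap_image).symm
    rw [h2]
    exact h1.image _
  · have h1 : ‖y - cfc F y‖ ≤ δ := by
      have e1 : y - cfc F y = cfc (fun t => t - F t) y := by
        rw [cfc_sub (fun t : ℝ => t) F y hcid hcF, cfc_id' ℝ y]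
      rw [e1]
      apply norm_cfc_le hδ0.le
      intro t _
      rw [hF, Real.norm_eq_abs, abs_le]
      have h3 := Int.floor_le (t / δ)
      have h4 := Int.lt_floor_add_one (t / δ)
      rw [le_div_iff₀ hδ0] at h3
      rw [div_lt_iff₀ hδ0] at h4
      constructor
      · simp only
        linarith
      · simp only
        nlinarith
    calc ‖x - cfc F y‖ = ‖(x - y) + (y - cfc F y)‖ := by congr 1; abel
      _ ≤ ‖x - y‖ + ‖y - cfc F y‖ := norm_add_le _ _
      _ < ε / 2 + ε / 2 := add_lt_add_of_lt_of_le hxy (by linarith)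
      _ = ε := by ring

/-! ### matrices -/

/-- invertible self-adjoint matrices are dense -/
def MI (U : Type u) [CStarAlgebra U] (ι : Type) [Fintype ι] [DecidableEq ι] : Prop :=
  ∀ X : Matrix ι ι U, X.conjTranspose = X → ∀ ε : ℝ, 0 < ε →
    ∃ Y Z : Matrix ι ι U, Y.conjTranspose = Y ∧ Y * Z = 1 ∧ Z * Y = 1 ∧ ∀ i j, ‖X i j - Y i j‖ < ε

theorem mi_one (h : INV U) : MI U (Fin 1) := by
  intro X hX ε hε
  have h0 : star (X 0 0) = X 0 0 := congrFun (congrFun hX 0) 0
  obtain ⟨y, hy, hu, hxy⟩ := h (X 0 0) h0 ε hε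
  obtain ⟨v, rfl⟩ := hu
  refine ⟨Matrix.of fun _ _ => (v : U), Matrix.of fun _ _ => ((v⁻¹ : Uˣ) : U), ?_, ?_, ?_, ?_⟩
  · ext i j
    exact hy
  · ext i j
    rw [Matrix.mul_apply, Fin.sum_univ_one]
    have : i = j := Subsingleton.elim _ _
    subst this
    rw [Matrix.one_apply_eq]
    exact v.mul_inv
  · ext i j
    rw [Matrix.mul_apply, Fin.sum_univ_one]
    have : i = j := Subsingleton.elim _ _
    subst this
    rw [Matrix.one_apply_eq]
    exact v.inv_mul
  · intro i j
    have hi : i = 0 := Subsingleton.elim _ _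
    have hj : j = 0 := Subsingleton.elim _ _
    subst hi hj
    exact hxy

theorem mi_sum {ι κ : Type} [Fintype ι] [Fintype κ] [DecidableEq ι] [DecidableEq κ]
    (h1 : MI U ι) (h2 : MI U κ) : MI U (ι ⊕ κ) := by
  intro X hX ε hε
  obtain ⟨a, b, b', c, rfl⟩ : ∃ (a : Matrix ι ι U) (b : Matrix ι κ U) (b' : Matrix κ ι U)
      (c : Matrix κ κ U), X = Matrix.fromBlocks a b b' c :=
    ⟨_, _, _, _, (Matrix.fromBlocks_toBlocks X).symm⟩
  rw [Matrix.fromBlocks_conjTranspose, Matrix.fromBlocks_inj] at hX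
  obtain ⟨ha, hb', hb, hc⟩ := hX
  obtain ⟨a', z, ha', az, za, hclose⟩ := h1 a ha ε hε
  have hz : z.conjTranspose = z := by
    have e1 : z.conjTranspose * a' = 1 := by
      have := congrArg Matrix.conjTranspose az
      rwa [Matrix.conjTranspose_mul, ha', Matrix.conjTranspose_one] at this
    calc z.conjTranspose = z.conjTranspose * (a' * z) := by rw [az, Matrix.mul_one]
      _ = z := by rw [← Matrix.mul_assoc, e1, Matrix.one_mul]
  have hs : (b' * z * b).conjTranspose = b' * z * b := by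
    rw [Matrix.conjTranspose_mul, Matrix.conjTranspose_mul, hz, hb, hb', Matrix.mul_assoc]
  obtain ⟨c', w, hc', cw, wc, hclose'⟩ := h2 (c - b' * z * b) (by
    rw [Matrix.conjTranspose_sub, hc, hs]) ε hε
  refine ⟨Matrix.fromBlocks a' b b' (c' + b' * z * b),
    Matrix.fromBlocks (z + z * b * w * b' * z) (-(z * b * w)) (-(w * b' * z)) w, ?_, ?_, ?_, ?_⟩
  · rw [Matrix.fromBlocks_conjTranspose, ha', hb, hb', Matrix.conjTranspose_add, hc', hs]
  · rw [Matrix.fromBlocks_multiply, ← Matrix.fromBlocks_one]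
    congr 1
    · have : a' * (z + z * b * w * b' * z) + b * -(w * b' * z) =
          a' * z + (a' * z) * b * w * b' * z - b * w * b' * z := by
        simp only [Matrix.mul_add, Matrix.mul_neg, Matrix.mul_assoc]
        abel
      rw [this, az, Matrix.one_mul]
      abel
    · have : a' * -(z * b * w) + b * w = -((a' * z) * b * w) + b * w := by
        simp only [Matrix.mul_neg, Matrix.mul_assoc]
      rw [this, az, Matrix.one_mul]
      abel
    · have : b' * (z + z * b * w * b' * z) + (c' + b' * z * b) * -(w * b' * z) =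
          b' * z - (c' * w) * b' * z := by
        simp only [Matrix.mul_add, Matrix.add_mul, Matrix.mul_neg, Matrix.mul_assoc]
        abel
      rw [this, cw, Matrix.one_mul]
      abel
    · have : b' * -(z * b * w) + (c' + b' * z * b) * w = c' * w := by
        simp only [Matrix.add_mul, Matrix.mul_neg, Matrix.mul_assoc]
        abel
      rw [this, cw]
  · rw [Matrix.fromBlocks_multiply, ← Matrix.fromBlocks_one]
    congr 1
    · have : (z + z * b * w * b' * z) * a' + -(z * b * w) * b' =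
          z * a' + z * b * w * b' * (z * a') - z * b * w * b' := by
        simp only [Matrix.add_mul, Matrix.neg_mul, Matrix.mul_assoc]
        abel
      rw [this, za, Matrix.mul_one]
      abel
    · have : (z + z * b * w * b' * z) * b + -(z * b * w) * (c' + b' * z * b) =
          z * b - z * b * (w * c') := by
        simp only [Matrix.mul_add, Matrix.add_mul, Matrix.neg_mul, Matrix.mul_assoc]
        abel
      rw [this, wc, Matrix.mul_one]
      abel
    · have : -(w * b' * z) * a' + w * b' = -(w * b' * (z * a')) + w * b' := by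
        simp only [Matrix.neg_mul, Matrix.mul_assoc]
      rw [this, za, Matrix.mul_one]
      abel
    · have : -(w * b' * z) * b + w * (c' + b' * z * b) = w * c' := by
        simp only [Matrix.mul_add, Matrix.neg_mul, Matrix.mul_assoc]
        abel
      rw [this, wc]
  · rintro (i | i) (j | j)
    · exact hclose i j
    · simpa using hε
    · simpa using hε
    · have h3 := hclose' i j
      have h4 : c i j - (c' + b' * z * b) i j = (c - b' * z * b) i j - c' i j := by
        rw [Matrix.add_apply, Matrix.sub_apply]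
        abel
      show ‖c i j - (c' + b' * z * b) i j‖ < ε
      rwa [h4]

theorem mi_reindex {ι κ : Type} [Fintype ι] [Fintype κ] [DecidableEq ι] [DecidableEq κ]
    (σ : ι ≃ κ) (h : MI U ι) : MI U κ := by
  intro X hX ε hε
  obtain ⟨Y, Z, h1, h2, h3, h4⟩ := h (X.submatrix σ σ) (by
    rw [Matrix.conjTranspose_submatrix, hX]) ε hε
  refine ⟨Y.submatrix σ.symm σ.symm, Z.submatrix σ.symm σ.symm, ?_, ?_, ?_, ?_⟩
  · rw [Matrix.conjTranspose_submatrix, h1]
  · rw [Matrix.submatrix_mul_equiv, h2, Matrix.submatrix_one_equiv]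
  · rw [Matrix.submatrix_mul_equiv, h3, Matrix.submatrix_one_equiv]
  · intro i j
    have := h4 (σ.symm i) (σ.symm j)
    rwa [Matrix.submatrix_apply, Equiv.apply_symm_apply, Equiv.apply_symm_apply] at this

theorem mi_fin (h : INV U) (n : ℕ) : MI U (Fin n) := by
  induction n with
  | zero =>
    intro X hX ε hε
    exact ⟨X, X, hX, by ext i; exact Fin.elim0 i, by ext i; exact Fin.elim0 i,
      fun i => Fin.elim0 i⟩
  | succ n ih => exact mi_reindex finSumFinEquiv (mi_sum ih (mi_one h))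

theorem inv_mat (h : INV U) (n : ℕ) [PartialOrder U] [StarOrderedRing U] :
    INV (CStarMatrix (Fin n) (Fin n) U) := by
  intro x hx ε hε
  obtain ⟨g, hg⟩ : ∃ g : (Fin n → Fin n → U) → ℝ, g = fun Z =>
    ‖(CStarMatrix.ofMatrix (Matrix.of Z) : CStarMatrix (Fin n) (Fin n) U)‖ := ⟨_, rfl⟩
  have hgc : Continuous g := by
    rw [hg]
    exact continuous_norm.comp (CStarMatrix.ofMatrixL (A := U) (m := Fin n) (n := Fin n)).continuous
  have hopen : IsOpen {Z | g Z < ε} := isOpen_lt hgc continuous_const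
  have h0 : (0 : Fin n → Fin n → U) ∈ {Z | g Z < ε} := by
    show g 0 < ε
    have : g 0 = 0 := by
      rw [hg]
      show ‖(0 : CStarMatrix (Fin n) (Fin n) U)‖ = 0
      exact norm_zero
    rw [this]
    exact hε
  obtain ⟨δ, hδ, hball⟩ := Metric.isOpen_iff.1 hopen 0 h0
  obtain ⟨Y, Z, h1, h2, h3, h4⟩ := mi_fin h n (CStarMatrix.ofMatrix.symm x) (by
    have : star x = x := hx
    exact this) δ hδ
  refine ⟨CStarMatrix.ofMatrix Y, ?_, ?_, ?_⟩
  · show star _ = _
    exact h1
  · exact ⟨⟨CStarMatrix.ofMatrix Y, CStarMatrix.ofMatrix Z, h2, h3⟩, rfl⟩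
  · have h5 : (fun i j => x i j - Y i j) ∈ Metric.ball (0 : Fin n → Fin n → U) δ := by
      rw [Metric.mem_ball, dist_pi_lt_iff hδ]
      intro i
      rw [dist_pi_lt_iff hδ]
      intro j
      rw [dist_eq_norm]
      simpa using h4 i j
    have h6 := hball h5
    rw [hg] at h6
    exact h6

theorem fs_mat (h : FS U) (n : ℕ) [PartialOrder U] [StarOrderedRing U] :
    FS (CStarMatrix (Fin n) (Fin n) U) :=
  fs_of_inv (inv_mat (inv_of_fs h) n)

end

end Pool.Agent.H6.NK
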