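import Pool.Agent.H6.NK.StarMain
import Pool.Agent.H6.NK.MatRR

set_option autoImplicit false

/-!
The monoid `V` of the ring is not that of a C*-algebra of real rank zero.
-/

namespace Pool.Agent.H6.NK

open Pool.Agent.H494R3.NK Pool.Agent.Y78.NK TopologicalSpace

universe u v

section
variable {A : Type u} [NonUnitalCStarAlgebra A] {n : ℕ}

/-- matrices over the unitization -/
abbrev MU (A : Type u) [NonUnitalCStarAlgebra A] (n : ℕ) : Type u :=
  CStarMatrix (Fin n) (Fin n) (Unitization ℂ A)

/-- a matrix over `A` as a matrix over the unitization -/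
def up (m : Matrix (Fin n) (Fin n) A) : MU A n := fun i j => (m i j : Unitization ℂ A)

/-- the part of a matrix in `A` -/
def dn (x : MU A n) : Matrix (Fin n) (Fin n) A := Matrix.of fun i j => (x i j).snd

/-- matrices with entries in `A` -/
def InI (x : MU A n) : Prop := ∀ i j, (x i j).fst = 0

theorem dn_up (m : Matrix (Fin n) (Fin n) A) : dn (up m) = m := by
  ext i j
  rfl

theorem inI_up (m : Matrix (Fin n) (Fin n) A) : InI (up m) := fun _ _ => rfl

theorem up_dn {x : MU A n} (h : InI x) : up (dn x) = x := by
  apply CStarMatrix.ext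
  intro i j
  show ((x i j).snd : Unitization ℂ A) = x i j
  apply Unitization.ext
  · rw [h i j]
    rfl
  · rfl

theorem fst_sum' {J : Type} (T : Finset J) (f : J → Unitization ℂ A) :
    (∑ j ∈ T, f j).fst = ∑ j ∈ T, (f j).fst :=
  map_sum (Unitization.fstHom ℂ A) f T

theorem snd_sum' {J : Type} (T : Finset J) (f : J → Unitization ℂ A) :
    (∑ j ∈ T, f j).snd = ∑ j ∈ T, (f j).snd := by
  classical
  induction T using Finset.induction_on with
  | empty => rfl
  | insert a T ha ih => rw [Finset.sum_insert ha, Finset.sum_insert ha, Unitization.snd_add, ih]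

theorem InI.mul_right {x : MU A n} (h : InI x) (y : MU A n) : InI (x * y) := by
  intro i j
  rw [CStarMatrix.mul_apply, fst_sum']
  refine Finset.sum_eq_zero fun k _ => ?_
  rw [Unitization.fst_mul, h i k, zero_mul]

theorem InI.mul_left {x : MU A n} (h : InI x) (y : MU A n) : InI (y * x) := by
  intro i j
  rw [CStarMatrix.mul_apply, fst_sum']
  refine Finset.sum_eq_zero fun k _ => ?_
  rw [Unitization.fst_mul, h k j, mul_zero]

theorem dn_mul {x y : MU A n} (hx : InI x) (hy : InI y) : dn (x * y) = dn x * dn y := by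
  ext i j
  show ((x * y) i j).snd = _
  rw [CStarMatrix.mul_apply, snd_sum', Matrix.mul_apply]
  refine Finset.sum_congr rfl fun k _ => ?_
  rw [Unitization.snd_mul, hx i k, hy k j, zero_smul, zero_smul, zero_add, zero_add]
  rfl

theorem up_mul (x y : Matrix (Fin n) (Fin n) A) : up (x * y) = up x * up y := by
  rw [← up_dn ((inI_up x).mul_right (up y)), dn_mul (inI_up x) (inI_up y), dn_up, dn_up]

theorem mk_zero {R : Type u} [NonUnitalRing R] {m : ℕ} {e : Matrix (Fin m) (Fin m) R}
    (he : e * e = e) (h : VV.mk ⟨m, e, he⟩ = 0) : e = 0 := by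
  obtain ⟨x, y, h1, _⟩ := VV.mk_eq.1 h
  have : IsEmpty (Fin (Idem.zero R).size) := inferInstanceAs (IsEmpty (Fin 0))
  have h1' : x * y = e := h1
  rw [← h1']
  ext i j
  rw [Matrix.mul_apply]
  exact Finset.sum_of_isEmpty _

end

/-- The first half. -/
theorem half1 (A : Type u) [NonUnitalCStarAlgebra A] (hr : RealRankZero A) :
    ¬ Nonempty (VV (Rg Ix) ≃+ VV A) := by
  rintro ⟨e⟩
  classical
  let _ := CStarAlgebra.spectralOrder (Unitization ℂ A)
  have _ := CStarAlgebra.spectralOrderedRing (Unitization ℂ A)
  have hfs : FS (Unitization ℂ A) := hr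
  obtain ⟨⟨n, E, hE⟩, hu⟩ := exists_mk (e (nsys Ix).u)
  have hU : FS (MU A n) := fs_mat hfs n
  have hupE : up E * up E = up E := by rw [← up_mul, hE]
  obtain ⟨p, pp, ps, h1, h2⟩ := Pool.Agent.H399R6.NKProj.taskProj (MU A n) (up E) hupE
  have hpI : InI p := by
    rw [← h2]
    exact (inI_up E).mul_right p
  have hI : ∀ q, IsP p q → InI q := by
    intro q hq
    rw [← hq.2.1]
    exact hpI.mul_right q
  have hid : ∀ q, IsP p q → dn q * dn q = dn q := by
    intro q hq
    rw [← dn_mul (hI q hq) (hI q hq), hq.1]
  obtain ⟨cls, hcls⟩ : ∃ cls : MU A n → VV (Rg Ix), ∀ (q : MU A n) (hq : IsP p q),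
      e (cls q) = VV.mk ⟨n, dn q, hid q hq⟩ := by
    refine ⟨fun q => if h : IsP p q then e.symm (VV.mk ⟨n, dn q, hid q h⟩) else 0, ?_⟩
    intro q hq
    show e (dite _ _ _) = _
    rw [dif_pos hq, e.apply_symm_apply]
  have hinj : ∀ a b, e a = e b → a = b := fun a b h => e.injective h
  let c : Cls (MU A n) (VV (Rg Ix)) p :=
    { cls := cls
      pp := pp
      ps := ps
      le := by
        intro f q x y hf hq hfq
        have h3 : Le (e (cls f)) (e (cls q)) := by
          rw [hcls f hf, hcls q hq]
          refine le_of_factor (hid f hf) (hid q hq) (dn (f * x * q)) (dn (q * y * f)) ?_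
          have i1 : InI (f * x * q) := (hI q hq).mul_left _
          have i2 : InI (q * y * f) := (hI f hf).mul_left _
          rw [← dn_mul i1 (hI q hq), ← dn_mul (i1.mul_right q) i2]
          congr 1
          calc f = f * f * f := by rw [hf.1, hf.1]
            _ = f * (x * q * y) * f := by rw [← hfq]
            _ = f * x * (q * q * q) * y * f := by rw [hq.1, hq.1]; noncomm_ring
            _ = f * x * q * q * (q * y * f) := by noncomm_ring
        obtain ⟨d, hd⟩ := h3
        exact ⟨e.symm d, by
          apply hinj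
          rw [map_add, e.apply_symm_apply, hd]⟩
      add := by
        intro f g hf hg hfg hgf
        have hs : IsP p (f + g) := by
          refine ⟨?_, ?_, ?_⟩
          · rw [mul_add, add_mul, add_mul, hf.1, hg.1, hfg, hgf]
            abel
          · rw [mul_add, hf.2.1, hg.2.1]
          · rw [add_mul, hf.2.2, hg.2.2]
        apply hinj
        rw [map_add, hcls _ hs, hcls f hf, hcls g hg]
        have e1 : dn f * dn g = 0 := by
          rw [← dn_mul (hI f hf) (hI g hg), hfg]
          rfl
        have e2 : dn g * dn f = 0 := by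
          rw [← dn_mul (hI g hg) (hI f hf), hgf]
          rfl
        have e3 : (dn f + dn g) * (dn f + dn g) = dn f + dn g := by
          rw [mul_add, add_mul, add_mul, hid f hf, hid g hg, e1, e2]
          abel
        exact cm_add (hid f hf) (hid g hg) e3 e1 e2
      zero := by
        intro f hf h0
        have h3 := hcls f hf
        rw [h0, map_zero] at h3
        have h4 := mk_zero (hid f hf) h3.symm
        rw [← up_dn (hI f hf), h4]
        rfl
      split := by
        intro q hq x y hxy
        have h3 := hcls q hq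
        rw [hxy, map_add] at h3
        obtain ⟨f, hf, hf', e1, e2, e3, e4⟩ := split_mat (hid q hq) (e x) (e y) h3
        have hqd := up_dn (hI q hq)
        have f1 : q * up f = up f := by
          conv_lhs => rw [← hqd, ← up_mul, e1]
        have f2 : up f * q = up f := by
          conv_lhs => rw [← hqd, ← up_mul, e2]
        have hP : IsP p (up f) := by
          refine ⟨by rw [← up_mul, hf], ?_, ?_⟩
          · rw [← f1, ← mul_assoc, hq.2.1]
          · rw [← f2, mul_assoc, hq.2.2]
        refine ⟨up f, hP, f1, f2, ?_, ?_⟩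
        · apply hinj
          rw [hcls _ hP, ← e3]
          rfl
        · apply hinj
          rw [hcls _ (isP_sub hq hP f1 f2), ← e4]
          rfl
      eqv := by
        intro f g hf hg hfg
        have h3 := congrArg e hfg
        rw [hcls f hf, hcls g hg] at h3
        obtain ⟨x, y, h4, h5⟩ := VV.mk_eq.1 h3
        have h4' : (x : Matrix (Fin n) (Fin n) A) * y = dn f := h4
        have h5' : (y : Matrix (Fin n) (Fin n) A) * x = dn g := h5
        exact ⟨up x, up y, by rw [← up_mul, h4', up_dn (hI f hf)],
          by rw [← up_mul, h5', up_dn (hI g hg)]⟩ }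
  refine no_cls (nsys Ix) hU c ?_
  show cls p = (nsys Ix).u
  apply hinj
  have hp : IsP p p := ⟨pp, pp, pp⟩
  rw [hcls p hp, hu]
  apply VV.mk_eq.2
  show Eqv (dn p) E
  refine ⟨E, dn p, ?_, ?_⟩
  · conv_lhs => rw [← dn_up E]
    rw [← dn_mul (inI_up E) hpI, h2]
  · conv_lhs => rw [← dn_up E]
    rw [← dn_mul hpI (inI_up E), h1, dn_up]

end Pool.Agent.H6.NK
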