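import Pool.Agent.H6.NK.Ring
import Pool.Graph.R_seed8.Y78.NK.Main

set_option autoImplicit false

/-!
The monoid `V` of the C*-algebra of the earlier example is the positive cone of a dimension group.
-/

namespace Pool.Agent.H6.NK

open Pool.Agent.H494R3.NK Pool.Agent.Y78.NK TopologicalSpace

universe u v

theorem neumann (B : Type u) [CStarAlgebra B] (m : ℕ) : ∃ δ : ℝ, 0 < δ ∧
    ∀ K : Matrix (Fin m) (Fin m) B, (∀ i j, ‖K i j‖ < δ) →
      ∃ v : Matrix (Fin m) (Fin m) B, (1 - K) * v = 1 ∧ v * (1 - K) = 1 := by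
  let _ := CStarAlgebra.spectralOrder B
  have _ := CStarAlgebra.spectralOrderedRing B
  obtain ⟨g, hg⟩ : ∃ g : (Fin m → Fin m → B) → ℝ, g = fun Z =>
    ‖(CStarMatrix.ofMatrix (Matrix.of Z) : CStarMatrix (Fin m) (Fin m) B)‖ := ⟨_, rfl⟩
  have hgc : Continuous g := by
    rw [hg]
    exact continuous_norm.comp (CStarMatrix.ofMatrixL (A := B) (m := Fin m) (n := Fin m)).continuous
  have hopen : IsOpen {Z | g Z < 1} := isOpen_lt hgc continuous_const
  have h0 : (0 : Fin m → Fin m → B) ∈ {Z | g Z < 1} := by
    show g 0 < 1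
    have : g 0 = 0 := by
      rw [hg]
      show ‖(0 : CStarMatrix (Fin m) (Fin m) B)‖ = 0
      exact norm_zero
    rw [this]
    exact one_pos
  obtain ⟨δ, hδ, hball⟩ := Metric.isOpen_iff.1 hopen 0 h0
  refine ⟨δ, hδ, fun K hK => ?_⟩
  have h5 : (fun i j => K i j) ∈ Metric.ball (0 : Fin m → Fin m → B) δ := by
    rw [Metric.mem_ball, dist_pi_lt_iff hδ]
    intro i
    rw [dist_pi_lt_iff hδ]
    intro j
    rw [dist_eq_norm]
    simpa using hK i j
  have h6 := hball h5
  rw [hg] at h6
  have h7 : ‖(CStarMatrix.ofMatrix K : CStarMatrix (Fin m) (Fin m) B)‖ < 1 := h6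
  obtain ⟨v, hv⟩ := isUnit_one_sub_of_norm_lt_one h7
  refine ⟨CStarMatrix.ofMatrix.symm ((v⁻¹ : (CStarMatrix (Fin m) (Fin m) B)ˣ) :
    CStarMatrix (Fin m) (Fin m) B), ?_, ?_⟩
  · have h8 : (1 - CStarMatrix.ofMatrix K) * ((v⁻¹ : (CStarMatrix (Fin m) (Fin m) B)ˣ) :
      CStarMatrix (Fin m) (Fin m) B) = 1 := by rw [← hv, Units.mul_inv]
    exact h8
  · have h8 : ((v⁻¹ : (CStarMatrix (Fin m) (Fin m) B)ˣ) : CStarMatrix (Fin m) (Fin m) B) *
      (1 - CStarMatrix.ofMatrix K) = 1 := by rw [← hv, Units.inv_mul]
    exact h8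

open scoped Matrix.Norms.L2Operator

variable {F : Fam} {I : Type}

theorem alg_ext {f g : Alg F I} (h : ∀ s, f.1 s = g.1 s) : f = g :=
  Subtype.ext (ContinuousMap.ext h)

/-- restriction to a clopen set -/
noncomputable def resA (C : Clopens (I → T)) (f : Alg F I) : Alg F I :=
  ⟨⟨(C : Set (I → T)).indicator f.1, by
    refine Continuous.indicator ?_ f.1.continuous
    intro a ha
    rw [C.isClopen.frontier_eq] at ha
    exact ha.elim⟩, by
    rw [mem_alg]
    intro s
    show Pool.Agent.Y78.NK.Good F I s ((C : Set (I → T)).indicator f.1 s)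
    by_cases h : s ∈ (C : Set (I → T))
    · rw [Set.indicator_of_mem h]
      exact f.2 s
    · rw [Set.indicator_of_notMem h]
      intro y _
      rw [mul_zero, zero_mul]⟩

theorem resA_mem {C : Clopens (I → T)} {f : Alg F I} {s : I → T} (h : s ∈ C) :
    (resA C f).1 s = f.1 s :=
  Set.indicator_of_mem h _

theorem resA_not {C : Clopens (I → T)} {f : Alg F I} {s : I → T} (h : s ∉ C) :
    (resA C f).1 s = 0 :=
  Set.indicator_of_notMem h _

variable (F I) in
/-- the action of the clopen sets on the algebra -/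
noncomputable def cA' : CRing (I → T) (Alg F I) where
  π C :=
    { toFun := resA C
      map_mul' := fun f g => alg_ext fun s => by
        by_cases h : s ∈ C
        · rw [resA_mem h]
          show f.1 s * g.1 s = (resA C f).1 s * (resA C g).1 s
          rw [resA_mem h, resA_mem h]
        · rw [resA_not h]
          show 0 = (resA C f).1 s * (resA C g).1 s
          rw [resA_not h, zero_mul]
      map_zero' := alg_ext fun s => by
        by_cases h : s ∈ C
        · rw [resA_mem h]
        · rw [resA_not h]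
          rfl
      map_add' := fun f g => alg_ext fun s => by
        by_cases h : s ∈ C
        · rw [resA_mem h]
          show f.1 s + g.1 s = (resA C f).1 s + (resA C g).1 s
          rw [resA_mem h, resA_mem h]
        · rw [resA_not h]
          show 0 = (resA C f).1 s + (resA C g).1 s
          rw [resA_not h, resA_not h, zero_add] }
  top f := alg_ext fun s => resA_mem (C := ⊤) trivial
  bot f := alg_ext fun s => by
    show (resA ⊥ f).1 s = 0
    exact resA_not (C := ⊥) (fun h => h)
  inf C D f := alg_ext fun s => by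
    show (resA C (resA D f)).1 s = (resA (C ⊓ D) f).1 s
    by_cases h : s ∈ C
    · rw [resA_mem h]
      by_cases h' : s ∈ D
      · rw [resA_mem h', resA_mem (C := C ⊓ D) ⟨h, h'⟩]
      · rw [resA_not h', resA_not (C := C ⊓ D) (fun h2 => h' h2.2)]
    · rw [resA_not h, resA_not (C := C ⊓ D) (fun h2 => h h2.1)]
  compl C f := alg_ext fun s => by
    show (resA C f).1 s + (resA Cᶜ f).1 s = f.1 s
    by_cases h : s ∈ C
    · rw [resA_mem h, resA_not (C := Cᶜ) (fun h2 => h2 h), add_zero]
    · rw [resA_not h, resA_mem (C := Cᶜ) h, zero_add]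
  orth C f g := alg_ext fun s => by
    show (resA C f).1 s * (resA Cᶜ g).1 s = 0
    by_cases h : s ∈ C
    · rw [resA_not (C := Cᶜ) (fun h2 => h2 h), mul_zero]
    · rw [resA_not h, zero_mul]
  orth' C f g := alg_ext fun s => by
    show (resA Cᶜ f).1 s * (resA C g).1 s = 0
    by_cases h : s ∈ C
    · rw [resA_not (C := Cᶜ) (fun h2 => h2 h), zero_mul]
    · rw [resA_not h, mul_zero]

theorem finset_inf_mem' {J : Type} {X : Type} [TopologicalSpace X] (s : X) (T : Finset J)
    (C : J → Clopens X) (h : ∀ j ∈ T, s ∈ C j) : s ∈ T.inf C := by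
  classical
  induction T using Finset.induction_on with
  | empty => rw [Finset.inf_empty]; trivial
  | insert a T ha ih =>
    rw [Finset.inf_insert]
    exact ⟨h a (Finset.mem_insert_self _ _), ih fun j hj => h j (Finset.mem_insert_of_mem hj)⟩

/-- idempotents with the same value at a point are equivalent near the point -/
theorem pert {m : ℕ} (e e' : Matrix (Fin m) (Fin m) (Alg F I)) (he : e * e = e)
    (he' : e' * e' = e') (s : I → T) (h : ∀ i j, (e i j).1 s = (e' i j).1 s) :
    ∃ C : Clopens (I → T), s ∈ C ∧ Eqv (e.map ((cA' F I).π C)) (e'.map ((cA' F I).π C)) := by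
  classical
  obtain ⟨δ, hδ, hN⟩ := neumann (Alg F I) m
  obtain ⟨k, hk⟩ : ∃ k : Matrix (Fin m) (Fin m) (Alg F I),
      k = 1 - (e * e' + (1 - e) * (1 - e')) := ⟨_, rfl⟩
  have hk0 : ∀ i j, (k i j).1 s = 0 := by
    intro i j
    -- evaluate matrices at `s`
    have hev : ∀ x y : Matrix (Fin m) (Fin m) (Alg F I), (x * y).map (ev F I s) =
        x.map (ev F I s) * y.map (ev F I s) := fun x y => map_mul' _ x y
    have hee : e.map (ev F I s) = e'.map (ev F I s) := by
      ext1 i j
      exact h i j
    have hidem : e'.map (ev F I s) * e'.map (ev F I s) = e'.map (ev F I s) := by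
      rw [← hev, he']
    have h1 : ∀ x y : Matrix (Fin m) (Fin m) (Alg F I), (x - y).map (ev F I s) =
        x.map (ev F I s) - y.map (ev F I s) := by
      intro x y
      ext1 i j
      rfl
    have h2 : ∀ x y : Matrix (Fin m) (Fin m) (Alg F I), (x + y).map (ev F I s) =
        x.map (ev F I s) + y.map (ev F I s) := by
      intro x y
      ext1 i j
      rfl
    have h3 : (1 : Matrix (Fin m) (Fin m) (Alg F I)).map (ev F I s) = 1 := by
      ext1 i j
      by_cases hij : i = j
      · subst hij
        rw [Matrix.one_apply_eq, Matrix.map_apply, Matrix.one_apply_eq]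
        rfl
      · rw [Matrix.one_apply_ne hij, Matrix.map_apply, Matrix.one_apply_ne hij]
        rfl
    have h4 : k.map (ev F I s) = 0 := by
      rw [hk, h1, h2, hev, hev, h1, h1, h3, hee, hidem, one_sub_idem hidem]
      abel
    exact congrFun (congrFun h4 i) j
  have hloc : ∀ f : Alg F I, f.1 s = 0 → ∃ C : Clopens (I → T), s ∈ C ∧
      ∀ D ≤ C, ‖(cA' F I).π D f‖ < δ := by
    intro f hf
    have hopen : IsOpen {t | ‖f.1 t‖ < δ / 2} :=
      isOpen_lt (continuous_norm.comp f.1.continuous) continuous_const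
    have hmem : s ∈ {t | ‖f.1 t‖ < δ / 2} := by
      show ‖f.1 s‖ < δ / 2
      rw [hf, norm_zero]
      linarith
    obtain ⟨V, hV, h1, h2⟩ := compact_exists_isClopen_in_isOpen hopen hmem
    refine ⟨⟨V, hV⟩, h1, fun D hD => ?_⟩
    have h3 : ‖((cA' F I).π D f).1‖ ≤ δ / 2 := by
      rw [ContinuousMap.norm_le _ (by linarith)]
      intro t
      show ‖(resA D f).1 t‖ ≤ δ / 2
      by_cases ht : t ∈ D
      · rw [resA_mem ht]
        exact (h2 (hD ht)).le
      · rw [resA_not ht, norm_zero]
        linarith
    exact lt_of_le_of_lt h3 (by linarith)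
  choose C hC hC' using fun i j => hloc (k i j) (hk0 i j)
  obtain ⟨D, hD⟩ : ∃ D, D = (Finset.univ : Finset (Fin m × Fin m)).inf fun p => C p.1 p.2 :=
    ⟨_, rfl⟩
  have hle : ∀ i j, D ≤ C i j := by
    intro i j
    rw [hD]
    exact Finset.inf_le (f := fun p : Fin m × Fin m => C p.1 p.2) (Finset.mem_univ (i, j))
  obtain ⟨v, hv1, hv2⟩ := hN (k.map ((cA' F I).π D)) (fun i j => hC' i j D (hle i j))
  refine ⟨D, by rw [hD]; exact finset_inf_mem' s _ _ (fun p _ => hC _ _), ?_⟩
  obtain ⟨P, hP⟩ : ∃ P : Matrix (Fin m) (Fin m) (Alg F I) → Matrix (Fin m) (Fin m) (Alg F I),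
      ∀ x, P x = x.map ((cA' F I).π D) := ⟨_, fun _ => rfl⟩
  have Pm : ∀ x y, P (x * y) = P x * P y := fun x y => by rw [hP, hP, hP, map_mul']
  have Ps : ∀ x y, P (x - y) = P x - P y := fun x y => by
    rw [hP, hP, hP]
    ext1 i j
    show (cA' F I).π D (x i j - y i j) = (cA' F I).π D (x i j) - (cA' F I).π D (y i j)
    exact map_sub ((cA' F I).π D) _ _
  rw [← hP] at hv1 hv2
  rw [← hP, ← hP]
  have c1 : P e * (1 - P k) = P (e * e') := by
    have : e * e' = e - e * k := by
      rw [hk]
      have : e * (1 - (e * e' + (1 - e) * (1 - e'))) = e - (e * e) * e' -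
          (e - e * e) * (1 - e') := by noncomm_ring
      rw [this, he]
      noncomm_ring
    rw [this, Ps, Pm, mul_sub, mul_one]
  have c2 : (1 - P k) * P e' = P (e * e') := by
    have : e * e' = e' - k * e' := by
      rw [hk]
      have : (1 - (e * e' + (1 - e) * (1 - e'))) * e' = e' - e * (e' * e') -
          (1 - e) * (e' - e' * e') := by noncomm_ring
      rw [this, he']
      noncomm_ring
    rw [this, Ps, Pm, sub_mul, one_mul]
  have hPe : P e * P e = P e := by rw [← Pm, he]
  have hPe' : P e' * P e' = P e' := by rw [← Pm, he']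
  refine ⟨P e * (1 - P k), v * P e, ?_, ?_⟩
  · calc P e * (1 - P k) * (v * P e) = P e * ((1 - P k) * v) * P e := by
          simp only [Matrix.mul_assoc]
      _ = P e := by rw [hv1, Matrix.mul_one, hPe]
  · calc v * P e * (P e * (1 - P k)) = v * ((P e * P e) * (1 - P k)) := by
          simp only [Matrix.mul_assoc]
      _ = v * ((1 - P k) * P e') := by rw [hPe, c1, c2]
      _ = P e' := by rw [← Matrix.mul_assoc, hv2, Matrix.one_mul]

/-- a local retraction gives local freeness -/
theorem alg_class {s : I → T} {G : Type} [NonUnitalRing G] (α : Alg F I →ₙ+* G)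
    (β : G →ₙ+* Alg F I) (h : ∀ f, (β (α f)).1 s = f.1 s) (c : VV (Alg F I)) :
    ∃ C : Clopens (I → T), s ∈ C ∧
      vmap ((cA' F I).π C) c = vmap ((cA' F I).π C) (vmap β (vmap α c)) := by
  obtain ⟨e, rfl⟩ := exists_mk c
  obtain ⟨C, hC, h1⟩ := pert e.mat (imap β (imap α e)).mat e.idem (imap β (imap α e)).idem s
    (fun i j => (h _).symm)
  exact ⟨C, hC, VV.mk_eq.2 h1⟩

theorem alg_locFree (s : I → T) : (cA' F I).toBMon.LocFree s := by
  by_cases hc : ∀ i j, F.P (s i) * F.P (s j) = F.P (s j) * F.P (s i)
  · by_cases h0 : ∀ i, F.P (s i) = 0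
    · -- scalars
      have hsc : ∀ f : Alg F I, ∃ c : ℂ, f.1 s = algebraMap ℂ M2 c := fun f =>
        scalar_of_comm (f.1 s) fun y => f.2 s y (fun i => by rw [h0 i]; simp)
      have hα : ∀ f : Alg F I, f.1 s = algebraMap ℂ M2 ((f.1 s) 0 0) := by
        intro f
        obtain ⟨c, hc⟩ := hsc f
        rw [hc]
        simp [Matrix.algebraMap_matrix_apply]
      refine (cA' F I).locFree s (splR_field ℂ)
        { toFun := fun f => (f.1 s) 0 0
          map_mul' := fun f g => by
            show (f.1 s * g.1 s) 0 0 = _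
            rw [hα f, hα g, ← map_mul]
            simp [Matrix.algebraMap_matrix_apply]
          map_zero' := rfl
          map_add' := fun f g => rfl }
        (algebraMap ℂ (Alg F I)).toNonUnitalRingHom ?_
      refine alg_class _ _ fun f => ?_
      show algebraMap ℂ M2 ((f.1 s) 0 0) = f.1 s
      exact (hα f).symm
    · -- one projection
      push Not at h0
      obtain ⟨i, hi⟩ := h0
      have htr : (F.P (s i)).trace = 1 := (F.rk _).resolve_left hi
      have hns := F.not_scalar (s i) htr
      obtain ⟨ζ, hζ⟩ : ∃ ζ : Fin 2 → T → M2, (∀ t, ζ 0 t = F.P t) ∧ ∀ t, ζ 1 t = 1 - F.P t :=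
        ⟨![F.P, fun t => 1 - F.P t], fun _ => rfl, fun _ => rfl⟩
      have hζi : ∀ j t, ζ j t * ζ j t = ζ j t := by
        intro j t
        fin_cases j
        · show ζ 0 t * ζ 0 t = ζ 0 t
          rw [hζ.1, F.idem]
        · show ζ 1 t * ζ 1 t = ζ 1 t
          rw [hζ.2]
          exact compl_idem (F.idem t)
      have hz01 : ∀ t, ζ 0 t * ζ 1 t = 0 := by
        intro t
        rw [hζ.1, hζ.2, mul_sub, mul_one, F.idem, sub_self]
      have hz10 : ∀ t, ζ 1 t * ζ 0 t = 0 := by
        intro t
        rw [hζ.1, hζ.2, sub_mul, one_mul, F.idem, sub_self]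
      have hcoef : ∀ (f : Alg F I) (j : Fin 2), ∃ c : ℂ,
          f.1 s * ζ j (s i) = c • ζ j (s i) := by
        intro f j
        obtain ⟨a, b, hx⟩ := comm_span (F.P (s i)) (f.1 s) hns
          (f.2 s (F.P (s i)) (fun j => hc i j))
        fin_cases j
        · refine ⟨a + b, ?_⟩
          show f.1 s * ζ 0 (s i) = (a + b) • ζ 0 (s i)
          rw [hζ.1, hx, add_mul, smul_mul_assoc, F.idem, ← Algebra.smul_def, add_smul]
        · refine ⟨a, ?_⟩
          show f.1 s * ζ 1 (s i) = a • ζ 1 (s i)
          rw [hζ.2, hx, add_mul, smul_mul_assoc, mul_sub (F.P (s i)), mul_one, F.idem, sub_self,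
            smul_zero, add_zero, ← Algebra.smul_def]
      have hsum : ∀ f : Alg F I, f.1 s = coef (ζ 0 (s i)) (f.1 s) • ζ 0 (s i) +
          coef (ζ 1 (s i)) (f.1 s) • ζ 1 (s i) := by
        intro f
        rw [← coef_spec (hcoef f 0), ← coef_spec (hcoef f 1), ← mul_add, hζ.1, hζ.2,
          add_sub_cancel, mul_one]
      have hcont : ∀ y : Fin 2 → ℂ, Continuous fun t : I → T =>
          y 0 • ζ 0 (t i) + y 1 • ζ 1 (t i) := by
        intro y
        have := F.cont
        have e1 : (fun t : I → T => y 0 • ζ 0 (t i) + y 1 • ζ 1 (t i)) =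
            fun t : I → T => y 0 • F.P (t i) + y 1 • (1 - F.P (t i)) := by
          funext t
          rw [hζ.1, hζ.2]
        rw [e1]
        fun_prop
      have hgood : ∀ (y : Fin 2 → ℂ) (t : I → T),
          Pool.Agent.Y78.NK.Good F I t (y 0 • ζ 0 (t i) + y 1 • ζ 1 (t i)) := by
        intro y t x hx
        rw [hζ.1, hζ.2, mul_add, add_mul, mul_smul_comm, mul_smul_comm, smul_mul_assoc,
          smul_mul_assoc, mul_sub, sub_mul, hx i, mul_one, one_mul]
      refine (cA' F I).locFree s (splR_pi (J := Fin 2) (F := fun _ => ℂ) fun _ => splR_field ℂ)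
        { toFun := fun f j => coef (ζ j (s i)) (f.1 s)
          map_mul' := fun f g => by
            funext j
            exact coef_mul (hcoef f j) (hcoef g j)
          map_zero' := by
            funext j
            exact coef_zero' _
          map_add' := fun f g => by
            funext j
            exact coef_add (hcoef f j) (hcoef g j) }
        { toFun := fun y => ⟨⟨_, hcont y⟩, hgood y⟩
          map_mul' := fun x y => alg_ext fun t => by
            show (x * y) 0 • ζ 0 (t i) + (x * y) 1 • ζ 1 (t i) =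
              (x 0 • ζ 0 (t i) + x 1 • ζ 1 (t i)) * (y 0 • ζ 0 (t i) + y 1 • ζ 1 (t i))
            rw [add_mul, mul_add, mul_add, smul_mul_smul_comm, smul_mul_smul_comm,
              smul_mul_smul_comm, smul_mul_smul_comm, hz01, hz10, hζi, hζi, smul_zero,
              smul_zero, add_zero, zero_add]
            rfl
          map_zero' := alg_ext fun t => by
            show (0 : ℂ) • ζ 0 (t i) + (0 : ℂ) • ζ 1 (t i) = 0
            rw [zero_smul, zero_smul, add_zero]
          map_add' := fun x y => alg_ext fun t => by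
            show (x 0 + y 0) • ζ 0 (t i) + (x 1 + y 1) • ζ 1 (t i) =
              (x 0 • ζ 0 (t i) + x 1 • ζ 1 (t i)) + (y 0 • ζ 0 (t i) + y 1 • ζ 1 (t i))
            rw [add_smul, add_smul]
            abel } ?_
      refine alg_class _ _ fun f => ?_
      exact (hsum f).symm
  · -- all matrices
    push Not at hc
    obtain ⟨i, j, hij⟩ := hc
    have hopen : IsOpen {t : I → T | F.P (t i) * F.P (t j) ≠ F.P (t j) * F.P (t i)} := by
      have := F.cont
      exact isOpen_ne_fun (by fun_prop) (by fun_prop)
    obtain ⟨V, hV, h1, h2⟩ := compact_exists_isClopen_in_isOpen hopen hij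
    obtain ⟨D, hD⟩ : ∃ D : Clopens (I → T), (D : Set (I → T)) = V := ⟨⟨V, hV⟩, rfl⟩
    have hsD : s ∈ D := by
      show s ∈ (D : Set (I → T))
      rw [hD]
      exact h1
    have hgood : ∀ (x : M2) (t : I → T),
        Pool.Agent.Y78.NK.Good F I t ((D : Set (I → T)).indicator (fun _ => x) t) := by
      intro x t
      by_cases h : t ∈ (D : Set (I → T))
      · rw [Set.indicator_of_mem h]
        rw [hD] at h
        exact good_noncomm F I t i j (h2 h) x
      · rw [Set.indicator_of_notMem h]
        intro y _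
        rw [mul_zero, zero_mul]
    have hcont : ∀ x : M2, Continuous ((D : Set (I → T)).indicator fun _ => x) := by
      intro x
      refine Continuous.indicator ?_ continuous_const
      intro a ha
      rw [D.isClopen.frontier_eq] at ha
      exact ha.elim
    refine (cA' F I).locFree s (splR_mt ℂ 1) (ev F I s)
      { toFun := fun x => ⟨⟨_, hcont x⟩, hgood x⟩
        map_mul' := fun x y => alg_ext fun t => by
          show (D : Set (I → T)).indicator (fun _ => x * y) t =
            (D : Set (I → T)).indicator (fun _ => x) t * (D : Set (I → T)).indicator (fun _ => y) t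
          by_cases h : t ∈ (D : Set (I → T))
          · rw [Set.indicator_of_mem h, Set.indicator_of_mem h, Set.indicator_of_mem h]
          · rw [Set.indicator_of_notMem h, Set.indicator_of_notMem h, zero_mul]
        map_zero' := alg_ext fun t => by
          show (D : Set (I → T)).indicator (fun _ => (0 : M2)) t = 0
          by_cases h : t ∈ (D : Set (I → T))
          · rw [Set.indicator_of_mem h]
          · rw [Set.indicator_of_notMem h]
        map_add' := fun x y => alg_ext fun t => by
          show (D : Set (I → T)).indicator (fun _ => x + y) t =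
            (D : Set (I → T)).indicator (fun _ => x) t + (D : Set (I → T)).indicator (fun _ => y) t
          by_cases h : t ∈ (D : Set (I → T))
          · rw [Set.indicator_of_mem h, Set.indicator_of_mem h, Set.indicator_of_mem h]
          · rw [Set.indicator_of_notMem h, Set.indicator_of_notMem h,
              Set.indicator_of_notMem h, zero_add] } ?_
    refine alg_class _ _ fun f => ?_
    show (D : Set (I → T)).indicator (fun _ => f.1 s) s = f.1 s
    exact Set.indicator_of_mem hsD _

/-- `V` of the algebra is the positive cone of a dimension group -/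
theorem alg_dimCone : DimCone (VV (Alg F I)) :=
  (cA' F I).toBMon.dimCone alg_locFree

/-- the algebra of the earlier result -/
theorem half2 : ∃ F : Fam, RealRankZero (Alg F Ind) ∧
    ∀ (R : Type u) [NonUnitalRing R], (∀ x : R, ∃ y : R, x * y * x = x) →
      ¬ Nonempty (VV (Alg F Ind) ≃+ VV R) := by
  obtain ⟨F, ⟨z, hz⟩, hrot⟩ := exists_fam
  refine ⟨F, alg_rr0 F Ind, ?_⟩
  rintro R _ hR ⟨e⟩
  obtain ⟨c, hc⟩ := urp hR (e (cl1 (1 : Alg F Ind) (one_mul 1))) (fun i => e (cA F Ind i))
    (fun i => e (cB F Ind i)) (by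
      intro i
      rw [← map_add]
      congr 1
      exact cl1_add (pr F Ind i) (pr_idem F Ind i))
  refine main_false F z hz hrot (fun i j => e.symm (c i j)) ?_
  intro i j k
  obtain ⟨h1, h2, h3, h4⟩ := hc i j k
  refine ⟨?_, ?_, ?_, ?_⟩
  · have := le_of_equiv e h1
    rwa [e.symm_apply_apply] at this
  · have := le_of_equiv e h2
    rwa [e.symm_apply_apply] at this
  · have := le_of_equiv e h3
    rwa [map_add, e.symm_apply_apply, e.symm_apply_apply] at this
  · have := le_of_equiv e h4
    rwa [map_add] at this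

end Pool.Agent.H6.NK
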