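import Pool.Graph.R_seed8.H494R3.LD.C2

set_option autoImplicit false

/-!
Approximate range projections in unital C*-algebras of real rank zero.
-/

namespace Pool.Agent.H6.NK

universe u

/-- self-adjoint elements of finite spectrum are dense -/
def FS (U : Type u) [CStarAlgebra U] : Prop :=
  ∀ x : U, IsSelfAdjoint x → ∀ ε : ℝ, 0 < ε →
    ∃ y : U, IsSelfAdjoint y ∧ (spectrum ℂ y).Finite ∧ ‖x - y‖ < ε

section
variable {U : Type u} [CStarAlgebra U]

theorem key_unital' (b y : U) (N : ℝ) (hN : 0 < N) (s : U) (hb : b = star s * s)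
    (hy : IsSelfAdjoint y) (hf : (spectrum ℝ y).Finite) (hyb : ‖b - y‖ ≤ N / 4) :
    ∃ q r : U, q * q = q ∧ star q = q ∧ star r = r ∧ r * (q * b * q) = q ∧ q * r = r ∧
      r * q = r ∧ ‖(1 - q) * b * (1 - q)‖ ≤ N := by
  let _ := CStarAlgebra.spectralOrder U
  have _ := CStarAlgebra.spectralOrderedRing U
  have hb0 : 0 ≤ b := by rw [hb]; exact star_mul_self_nonneg s
  have hbs : IsSelfAdjoint b := IsSelfAdjoint.of_nonneg hb0
  obtain ⟨χ, hχ⟩ : ∃ χ : ℝ → ℝ, χ = fun t => if N / 2 ≤ t then 1 else 0 := ⟨_, rfl⟩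
  have hc : ∀ f : ℝ → ℝ, ContinuousOn f (spectrum ℝ y) := fun f => hf.continuousOn f
  obtain ⟨q, hq⟩ : ∃ q : U, q = cfc χ y := ⟨_, rfl⟩
  have hqq : q * q = q := by
    rw [hq, ← cfc_mul χ χ y (hc _) (hc _)]
    congr 1
    funext t
    rw [hχ]
    by_cases h : N / 2 ≤ t
    · simp [h]
    · simp [h]
  have hqs : star q = q := by
    rw [hq]
    exact cfc_predicate χ y
  have hid : cfc (fun t : ℝ => t) y = y := cfc_id' ℝ y
  have h1 : (N / 2) • q ≤ q * y * q := by
    have e1 : q * y * q = cfc (fun t => χ t * t * χ t) y := by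
      rw [cfc_mul (fun t => χ t * t) χ y (hc _) (hc _), cfc_mul χ (fun t => t) y (hc _) (hc _),
        hid, hq]
    have e2 : (N / 2) • q = cfc (fun t => (N / 2) * χ t) y := by
      rw [hq, ← cfc_smul (N / 2) χ y (hc _)]
      rfl
    rw [e1, e2]
    apply cfc_mono _ (hc _) (hc _)
    intro t _
    rw [hχ]
    by_cases h : N / 2 ≤ t
    · simp [h]
    · simp [h]
  have hd : IsSelfAdjoint (b - y) := hbs.sub hy
  have h3 : b - y ≤ algebraMap ℝ U (N / 4) :=
    (IsSelfAdjoint.le_algebraMap_norm_self hd).trans (algebraMap_mono U hyb)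
  have h4 : y - b ≤ algebraMap ℝ U (N / 4) := by
    have hyb' : ‖y - b‖ ≤ N / 4 := by rw [norm_sub_rev]; exact hyb
    exact (IsSelfAdjoint.le_algebraMap_norm_self (hy.sub hbs)).trans (algebraMap_mono U hyb')
  have hp1 : star (1 - q) = 1 - q := by rw [star_sub, star_one, hqs]
  have hp2 : (1 - q) * (1 - q) = 1 - q := by
    rw [mul_sub, sub_mul, one_mul, sub_mul, one_mul, mul_one, hqq]
    abel
  -- the small part
  have h5 : (1 - q) * y * (1 - q) ≤ algebraMap ℝ U (N / 2) := by
    have e0 : 1 - q = cfc (fun t => 1 - χ t) y := by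
      rw [cfc_sub (fun _ => (1 : ℝ)) χ y (hc _) (hc _), cfc_const_one ℝ y, hq]
    have e1 : (1 - q) * y * (1 - q) = cfc (fun t => (1 - χ t) * t * (1 - χ t)) y := by
      rw [cfc_mul (fun t => (1 - χ t) * t) (fun t => 1 - χ t) y (hc _) (hc _),
        cfc_mul (fun t => 1 - χ t) (fun t => t) y (hc _) (hc _), hid, ← e0]
    have e2 : algebraMap ℝ U (N / 2) = cfc (fun _ : ℝ => N / 2) y := by
      rw [cfc_const (N / 2) y]
    rw [e1, e2]
    apply cfc_mono _ (hc _) (hc _)
    intro t _
    rw [hχ]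
    by_cases h : N / 2 ≤ t
    · simp [h]; linarith
    · push Not at h
      have : ¬ N / 2 ≤ t := not_le.2 h
      simp [this]; linarith
  have h6 : (1 - q) * b * (1 - q) ≤ algebraMap ℝ U N := by
    have e1 : (1 - q) * (b - y) * (1 - q) ≤ (1 - q) * algebraMap ℝ U (N / 4) * (1 - q) := by
      have := star_left_conjugate_le_conjugate h3 (1 - q)
      rwa [hp1] at this
    have e2 : (1 - q) * algebraMap ℝ U (N / 4) * (1 - q) = (N / 4) • (1 - q) := by
      rw [Algebra.algebraMap_eq_smul_one, mul_smul_comm, smul_mul_assoc, mul_one, hp2]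
    have e3 : (N / 4) • (1 - q) ≤ algebraMap ℝ U (N / 4) := by
      rw [Algebra.algebraMap_eq_smul_one]
      apply smul_le_smul_of_nonneg_left _ (by linarith)
      have : 0 ≤ q := by
        have := star_mul_self_nonneg q
        rwa [hqs, hqq] at this
      exact sub_le_self 1 this
    have e4 : (1 - q) * b * (1 - q) = (1 - q) * (b - y) * (1 - q) + (1 - q) * y * (1 - q) := by
      noncomm_ring
    rw [e4]
    calc (1 - q) * (b - y) * (1 - q) + (1 - q) * y * (1 - q) ≤
        algebraMap ℝ U (N / 4) + algebraMap ℝ U (N / 2) :=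
          add_le_add ((e1.trans e2.le).trans e3) h5
      _ = algebraMap ℝ U (N / 4 + N / 2) := (map_add _ _ _).symm
      _ ≤ algebraMap ℝ U N := algebraMap_mono U (by linarith)
  have h7 : 0 ≤ (1 - q) * b * (1 - q) := by
    have := star_left_conjugate_nonneg hb0 (1 - q)
    rwa [hp1] at this
  have h8 : ‖(1 - q) * b * (1 - q)‖ ≤ N :=
    (CStarAlgebra.norm_le_iff_le_algebraMap _ (r := N) (by linarith) h7).2 h6
  obtain ⟨w, hw⟩ : ∃ w : U, w = q * b * q + (N / 4) • (1 - q) := ⟨_, rfl⟩
  have hwle : algebraMap ℝ U (N / 4) ≤ w := by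
    have e1 : q * (y - b) * q ≤ q * algebraMap ℝ U (N / 4) * q := by
      have := star_left_conjugate_le_conjugate h4 q
      rwa [hqs] at this
    have e2 : q * algebraMap ℝ U (N / 4) * q = (N / 4) • q := by
      rw [Algebra.algebraMap_eq_smul_one, mul_smul_comm, smul_mul_assoc, mul_one, hqq]
    have e3 : (N / 2) • q - (N / 4) • q ≤ q * b * q := by
      have e4 : q * (y - b) * q = q * y * q - q * b * q := by noncomm_ring
      rw [e4, e2] at e1
      calc (N / 2) • q - (N / 4) • q ≤ q * y * q - (N / 4) • q := sub_le_sub_right h1 _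
        _ ≤ q * b * q := by
          rw [sub_le_iff_le_add] at e1 ⊢
          rw [add_comm]; exact e1
    have e5 : algebraMap ℝ U (N / 4) = ((N / 2) • q - (N / 4) • q) + (N / 4) • (1 - q) := by
      rw [Algebra.algebraMap_eq_smul_one, smul_sub, ← sub_smul]
      have : N / 2 - N / 4 = N / 4 := by ring
      rw [this]; abel
    rw [e5, hw]
    exact add_le_add_left e3 _
  have hpos : IsStrictlyPositive (algebraMap ℝ U (N / 4)) := by
    rw [IsStrictlyPositive.iff_of_unital]
    refine ⟨?_, ?_⟩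
    · rw [Algebra.algebraMap_eq_smul_one]
      exact smul_nonneg (by linarith) zero_le_one
    · exact (IsUnit.mk0 (N / 4) (by linarith)).map (algebraMap ℝ U)
  have hwu : IsUnit w := CStarAlgebra.isUnit_of_le _ hwle hpos
  obtain ⟨v, hv⟩ := hwu
  have hqw : q * w = q * b * q := by
    rw [hw, mul_add, mul_smul_comm, mul_sub, mul_one, hqq, sub_self, smul_zero, add_zero,
      ← mul_assoc, ← mul_assoc, hqq]
  have hwq : w * q = q * b * q := by
    rw [hw, add_mul, smul_mul_assoc, sub_mul, one_mul, hqq, sub_self, smul_zero, add_zero,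
      mul_assoc, hqq]
  have hcomm : q * (v⁻¹ : Uˣ) = (v⁻¹ : Uˣ) * q := by
    have h7 : Commute q (v : U) := by
      show q * (v : U) = v * q
      rw [hv, hqw, hwq]
    exact h7.units_inv_right
  have hws : star w = w := by
    rw [hw, star_add, star_mul, star_mul, star_smul, star_sub, star_one, hqs, hbs.star_eq,
      star_trivial, mul_assoc]
  have hvs : star ((v⁻¹ : Uˣ) : U) = (v⁻¹ : Uˣ) := by
    have h8 : star ((v⁻¹ : Uˣ) : U) * w = 1 := by
      conv_lhs => rw [← hws]
      rw [← star_mul, ← hv, Units.mul_inv, star_one]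
    calc star ((v⁻¹ : Uˣ) : U) = star ((v⁻¹ : Uˣ) : U) * (w * (v⁻¹ : Uˣ)) := by
          rw [← hv, Units.mul_inv, mul_one]
      _ = (v⁻¹ : Uˣ) := by rw [← mul_assoc, h8, one_mul]
  refine ⟨q, q * (v⁻¹ : Uˣ), hqq, hqs, ?_, ?_, ?_, ?_, h8⟩
  · rw [star_mul, hvs, hqs, hcomm]
  · rw [← hwq, mul_assoc, ← hv, ← mul_assoc ((v⁻¹ : Uˣ) : U), Units.inv_mul, one_mul, hqq]
  · rw [← mul_assoc, hqq]
  · rw [mul_assoc, ← hcomm, ← mul_assoc, hqq]

theorem norm_proj_le {p : U} (hpp : p * p = p) (hps : star p = p) : ‖p‖ ≤ 1 := by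
  have h1 : ‖p‖ * ‖p‖ = ‖p‖ := by
    have := CStarRing.norm_star_mul_self (x := p)
    rw [hps, hpp] at this
    exact this.symm
  nlinarith [norm_nonneg p]

/-- Approximate range projections. -/
theorem lemP (hU : FS U) (s : U) (ε : ℝ) (hε : 0 < ε) :
    ∃ w : U, (s * w) * (s * w) = s * w ∧ star (s * w) = s * w ∧ ‖(1 - s * w) * s‖ ≤ ε := by
  obtain ⟨y, hy, hf, hxy⟩ := hU (star s * s) (IsSelfAdjoint.star_mul_self s) (ε ^ 2 / 4)
    (by positivity)
  have hfr : (spectrum ℝ y).Finite := by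
    rw [← spectrum.preimage_algebraMap ℂ]
    exact hf.preimage (fun _ _ _ _ h => (algebraMap ℝ ℂ).injective h)
  obtain ⟨q, r, hqq, hqs, hrs, hrq, hqr, hrq', hn⟩ := key_unital' (star s * s) y (ε ^ 2)
    (by positivity) s rfl hy hfr hxy.le
  have hrb : r * (star s * s) * r = r := by
    calc r * (star s * s) * r = (r * q) * (star s * s) * (q * r) := by rw [hrq', hqr]
      _ = (r * (q * (star s * s) * q)) * r := by noncomm_ring
      _ = r := by rw [hrq, hqr]
  have hid : (s * (r * star s)) * (s * (r * star s)) = s * (r * star s) := by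
    calc (s * (r * star s)) * (s * (r * star s)) = s * (r * (star s * s) * r) * star s := by
          noncomm_ring
      _ = s * (r * star s) := by rw [hrb, mul_assoc]
  have hst : star (s * (r * star s)) = s * (r * star s) := by
    rw [star_mul, star_mul, star_star, hrs, mul_assoc]
  refine ⟨r * star s, hid, hst, ?_⟩
  have h1 : (1 - s * (r * star s)) * s = (1 - s * (r * star s)) * (s * (1 - q)) := by
    have : (1 - s * (r * star s)) * (s * q) = 0 := by
      have e1 : s * (r * star s) * (s * q) = s * ((r * q) * (star s * s) * q) := by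
        rw [hrq']; noncomm_ring
      have e2 : (r * q) * (star s * s) * q = r * (q * (star s * s) * q) := by noncomm_ring
      rw [sub_mul, one_mul, e1, e2, hrq, sub_self]
    rw [mul_sub, mul_one, mul_sub, this, sub_zero]
  have h2 : ‖1 - s * (r * star s)‖ ≤ 1 := by
    apply norm_proj_le
    · rw [mul_sub, sub_mul, one_mul, sub_mul, one_mul, mul_one, hid]
      abel
    · rw [star_sub, star_one, hst]
  have h3 : ‖s * (1 - q)‖ ≤ ε := by
    have e1 : ‖s * (1 - q)‖ * ‖s * (1 - q)‖ = ‖(1 - q) * (star s * s) * (1 - q)‖ := by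
      rw [← CStarRing.norm_star_mul_self, star_mul, star_sub, star_one, hqs]
      congr 1
      noncomm_ring
    rw [← e1] at hn
    nlinarith [norm_nonneg (s * (1 - q))]
  rw [h1]
  calc ‖(1 - s * (r * star s)) * (s * (1 - q))‖ ≤ ‖1 - s * (r * star s)‖ * ‖s * (1 - q)‖ :=
        norm_mul_le _ _
    _ ≤ 1 * ε := mul_le_mul h2 h3 (norm_nonneg _) (by norm_num)
    _ = ε := one_mul _

end

end Pool.Agent.H6.NK
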