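import Pool.Agent.H6.NK.Dim

set_option autoImplicit false

/-!
Monoids on which the clopen subsets of a compact space act: from local to global.
-/

namespace Pool.Agent.H6.NK

open TopologicalSpace

universe u

/-- The clopen subsets of `X` act on `M`. -/
structure BMon (X : Type) [TopologicalSpace X] (M : Type u) [AddCommMonoid M] where
  ρ : Clopens X → M →+ M
  top : ∀ c, ρ ⊤ c = c
  bot : ∀ c, ρ ⊥ c = 0
  inf : ∀ C D c, ρ C (ρ D c) = ρ (C ⊓ D) c
  compl : ∀ C c, ρ C c + ρ Cᶜ c = c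

section
variable {X : Type} [TopologicalSpace X]

theorem clopen_induction [CompactSpace X] (Q : Clopens X → Prop) (h0 : Q ⊥)
    (hmono : ∀ C D, D ≤ C → Q C → Q D) (hsup : ∀ C D, Disjoint C D → Q C → Q D → Q (C ⊔ D))
    (hloc : ∀ s, ∃ C : Clopens X, s ∈ C ∧ Q C) : Q ⊤ := by
  have key : ∃ V : Clopens X, (Set.univ : Set X) ⊆ V ∧ Q V := by
    refine IsCompact.induction_on (p := fun s : Set X => ∃ V : Clopens X, s ⊆ V ∧ Q V)
      isCompact_univ ?_ ?_ ?_ ?_
    · exact ⟨⊥, Set.empty_subset _, h0⟩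
    · rintro s s' hss ⟨V, hV, h⟩
      exact ⟨V, hss.trans hV, h⟩
    · rintro s s' ⟨V, hV, h⟩ ⟨V', hV', h'⟩
      refine ⟨V ⊔ (V' \ V), ?_, hsup _ _ disjoint_sdiff_self_right h
        (hmono V' _ sdiff_le h')⟩
      intro x hx
      by_cases h1 : x ∈ V
      · exact Or.inl h1
      · rcases hx with hx | hx
        · exact absurd (hV hx) h1
        · exact Or.inr ⟨hV' hx, h1⟩
    · intro x _
      obtain ⟨C, hx, hC⟩ := hloc x
      refine ⟨(C : Set X), ?_, C, subset_rfl, hC⟩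
      rw [nhdsWithin_univ]
      exact C.isClopen.isOpen.mem_nhds hx
  obtain ⟨V, hV, h⟩ := key
  have : V = ⊤ := by
    apply Clopens.ext
    exact Set.eq_univ_of_univ_subset hV
  rwa [this] at h

variable {M : Type u} [AddCommMonoid M] (B : BMon X M)

namespace BMon

theorem le {C D : Clopens X} (h : C ≤ D) (c : M) : B.ρ C (B.ρ D c) = B.ρ C c := by
  rw [B.inf, inf_eq_left.2 h]

theorem le' {C D : Clopens X} (h : C ≤ D) (c : M) : B.ρ D (B.ρ C c) = B.ρ C c := by
  rw [B.inf, inf_eq_right.2 h]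

theorem idem (C : Clopens X) (c : M) : B.ρ C (B.ρ C c) = B.ρ C c := B.le le_rfl c

theorem disj {C D : Clopens X} (h : Disjoint C D) (c : M) : B.ρ C (B.ρ D c) = 0 := by
  rw [B.inf, h.eq_bot, B.bot]

theorem sup {C D : Clopens X} (h : Disjoint C D) (c : M) :
    B.ρ (C ⊔ D) c = B.ρ C c + B.ρ D c := by
  have h1 := B.compl C (B.ρ (C ⊔ D) c)
  have h2 : Cᶜ ⊓ (C ⊔ D) = D := by
    rw [inf_sup_left, compl_inf_self, bot_sup_eq]
    exact inf_eq_right.2 (le_compl_iff_disjoint_left.2 h)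
  rw [B.inf, B.inf, inf_eq_left.2 le_sup_left, h2] at h1
  exact h1.symm

theorem glue {C D : Clopens X} (h : Disjoint C D) (x y : M) :
    ∃ z, B.ρ C z = B.ρ C x ∧ B.ρ D z = B.ρ D y := by
  refine ⟨B.ρ C x + B.ρ D y, ?_, ?_⟩
  · rw [map_add, B.idem, B.disj h, add_zero]
  · rw [map_add, B.idem, B.disj h.symm, zero_add]

/-- local structure at a point -/
def LocFree (s : X) : Prop :=
  ∃ (J : Type) (_ : Fintype J) (r : J → M →+ ℕ) (γ : J → M), ∀ c, ∃ C : Clopens X, s ∈ C ∧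
    B.ρ C c = B.ρ C (∑ j, r j c • γ j)

end BMon

theorem nat_refine (a b c d : ℕ) (h : a + b = c + d) :
    ∃ x y z w : ℕ, a = x + y ∧ b = z + w ∧ c = x + z ∧ d = y + w := by
  rcases le_total a c with hac | hac
  · exact ⟨a, 0, c - a, d, by omega, by omega, by omega, by omega⟩
  · exact ⟨c, a - c, 0, b, by omega, by omega, by omega, by omega⟩

theorem BMon.dimCone [CompactSpace X] (hl : ∀ s, B.LocFree s) : DimCone M := by
  refine ⟨?_, ?_, ?_, ?_⟩
  · intro a b c habc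
    have : (fun C => B.ρ C a = B.ρ C b) ⊤ := by
      refine clopen_induction (fun C => B.ρ C a = B.ρ C b) ?_ ?_ ?_ ?_
      · show B.ρ ⊥ a = B.ρ ⊥ b
        rw [B.bot, B.bot]
      · intro C D hD h
        show B.ρ D a = B.ρ D b
        rw [← B.le hD, h, B.le hD]
      · intro C D hCD h h'
        show B.ρ (C ⊔ D) a = B.ρ (C ⊔ D) b
        rw [B.sup hCD, B.sup hCD, h, h']
      · intro s
        obtain ⟨J, _, r, γ, h⟩ := hl s
        obtain ⟨C, hC, h1⟩ := h a
        obtain ⟨D, hD, h2⟩ := h b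
        refine ⟨C ⊓ D, ⟨hC, hD⟩, ?_⟩
        have hr : ∀ j, r j a = r j b := by
          intro j
          have := congrArg (r j) habc
          rw [map_add, map_add] at this
          exact Nat.add_right_cancel this
        rw [← B.le (inf_le_left : C ⊓ D ≤ C), h1, B.le inf_le_left,
          ← B.le (inf_le_right : C ⊓ D ≤ D) b, h2, B.le inf_le_right]
        simp only [hr]
    have h2 : B.ρ ⊤ a = B.ρ ⊤ b := this
    rwa [B.top, B.top] at h2
  · intro a b hab
    have : (fun C => B.ρ C a = 0) ⊤ := by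
      refine clopen_induction (fun C => B.ρ C a = 0) ?_ ?_ ?_ ?_
      · exact B.bot a
      · intro C D hD h
        show B.ρ D a = 0
        rw [← B.le hD, h, map_zero]
      · intro C D hCD h h'
        show B.ρ (C ⊔ D) a = 0
        rw [B.sup hCD, h, h', add_zero]
      · intro s
        obtain ⟨J, _, r, γ, h⟩ := hl s
        obtain ⟨C, hC, h1⟩ := h a
        refine ⟨C, hC, ?_⟩
        have hr : ∀ j, r j a = 0 := by
          intro j
          have := congrArg (r j) hab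
          rw [map_add, map_zero] at this
          omega
        rw [h1]
        simp only [hr, zero_smul, Finset.sum_const_zero, map_zero]
    have h2 : B.ρ ⊤ a = 0 := this
    rwa [B.top] at h2
  · intro n a b c hn hab
    have : (fun C => ∃ d, B.ρ C a + B.ρ C d = B.ρ C b) ⊤ := by
      refine clopen_induction (fun C => ∃ d, B.ρ C a + B.ρ C d = B.ρ C b) ?_ ?_ ?_ ?_
      · exact ⟨0, by rw [B.bot, B.bot, B.bot, add_zero]⟩
      · rintro C D hD ⟨d, h⟩
        refine ⟨d, ?_⟩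
        have := congrArg (B.ρ D) h
        rwa [map_add, B.le hD, B.le hD, B.le hD] at this
      · rintro C D hCD ⟨d, h⟩ ⟨d', h'⟩
        obtain ⟨z, hz, hz'⟩ := B.glue hCD d d'
        refine ⟨z, ?_⟩
        rw [B.sup hCD, B.sup hCD, B.sup hCD, ← h, ← h', hz, hz']
        abel
      · intro s
        obtain ⟨J, _, r, γ, h⟩ := hl s
        obtain ⟨C, hC, h1⟩ := h a
        obtain ⟨D, hD, h2⟩ := h b
        have hr : ∀ j, ∃ d : ℕ, r j b = r j a + d := by
          intro j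
          have := congrArg (r j) hab
          rw [map_add, map_nsmul, map_nsmul, smul_eq_mul, smul_eq_mul] at this
          have h3 : r j a ≤ r j b := by
            have : n * r j a ≤ n * r j b := by omega
            exact Nat.le_of_mul_le_mul_left this hn
          exact ⟨r j b - r j a, by omega⟩
        choose d hd using hr
        refine ⟨C ⊓ D, ⟨hC, hD⟩, ∑ j, d j • γ j, ?_⟩
        rw [← B.le (inf_le_left : C ⊓ D ≤ C) a, h1, B.le inf_le_left,
          ← B.le (inf_le_right : C ⊓ D ≤ D) b, h2, B.le inf_le_right, ← map_add,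
          ← Finset.sum_add_distrib]
        simp only [hd, add_smul]
    obtain ⟨d, hd⟩ : ∃ d, B.ρ ⊤ a + B.ρ ⊤ d = B.ρ ⊤ b := this
    rw [B.top, B.top, B.top] at hd
    exact ⟨d, hd⟩
  · intro a b c d habcd
    have : (fun C => ∃ x y z w, B.ρ C a = B.ρ C x + B.ρ C y ∧ B.ρ C b = B.ρ C z + B.ρ C w ∧
        B.ρ C c = B.ρ C x + B.ρ C z ∧ B.ρ C d = B.ρ C y + B.ρ C w) ⊤ := by
      refine clopen_induction (fun C => ∃ x y z w, B.ρ C a = B.ρ C x + B.ρ C y ∧
        B.ρ C b = B.ρ C z + B.ρ C w ∧ B.ρ C c = B.ρ C x + B.ρ C z ∧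
        B.ρ C d = B.ρ C y + B.ρ C w) ?_ ?_ ?_ ?_
      · exact ⟨0, 0, 0, 0, by simp [B.bot]⟩
      · rintro C D hD ⟨x, y, z, w, e1, e2, e3, e4⟩
        have e1' := congrArg (B.ρ D) e1
        have e2' := congrArg (B.ρ D) e2
        have e3' := congrArg (B.ρ D) e3
        have e4' := congrArg (B.ρ D) e4
        rw [map_add, B.le hD, B.le hD, B.le hD] at e1' e2' e3' e4'
        exact ⟨x, y, z, w, e1', e2', e3', e4'⟩
      · rintro C D hCD ⟨x, y, z, w, e1, e2, e3, e4⟩ ⟨x', y', z', w', e1', e2', e3', e4'⟩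
        obtain ⟨x₀, hx, hx'⟩ := B.glue hCD x x'
        obtain ⟨y₀, hy, hy'⟩ := B.glue hCD y y'
        obtain ⟨z₀, hz, hz'⟩ := B.glue hCD z z'
        obtain ⟨w₀, hw, hw'⟩ := B.glue hCD w w'
        refine ⟨x₀, y₀, z₀, w₀, ?_, ?_, ?_, ?_⟩
        · rw [B.sup hCD, B.sup hCD, B.sup hCD, e1, e1', hx, hx', hy, hy']
          abel
        · rw [B.sup hCD, B.sup hCD, B.sup hCD, e2, e2', hz, hz', hw, hw']
          abel
        · rw [B.sup hCD, B.sup hCD, B.sup hCD, e3, e3', hx, hx', hz, hz']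
          abel
        · rw [B.sup hCD, B.sup hCD, B.sup hCD, e4, e4', hy, hy', hw, hw']
          abel
      · intro s
        obtain ⟨J, _, r, γ, h⟩ := hl s
        obtain ⟨C₁, hC₁, h1⟩ := h a
        obtain ⟨C₂, hC₂, h2⟩ := h b
        obtain ⟨C₃, hC₃, h3⟩ := h c
        obtain ⟨C₄, hC₄, h4⟩ := h d
        have hr : ∀ j, ∃ x y z w : ℕ, r j a = x + y ∧ r j b = z + w ∧ r j c = x + z ∧
            r j d = y + w := by
          intro j
          have := congrArg (r j) habcd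
          rw [map_add, map_add] at this
          exact nat_refine _ _ _ _ this
        choose x y z w e1 e2 e3 e4 using hr
        have l1 : C₁ ⊓ C₂ ⊓ C₃ ⊓ C₄ ≤ C₁ := inf_le_left.trans (inf_le_left.trans inf_le_left)
        have l2 : C₁ ⊓ C₂ ⊓ C₃ ⊓ C₄ ≤ C₂ := inf_le_left.trans (inf_le_left.trans inf_le_right)
        have l3 : C₁ ⊓ C₂ ⊓ C₃ ⊓ C₄ ≤ C₃ := inf_le_left.trans inf_le_right
        have l4 : C₁ ⊓ C₂ ⊓ C₃ ⊓ C₄ ≤ C₄ := inf_le_right
        refine ⟨C₁ ⊓ C₂ ⊓ C₃ ⊓ C₄, ⟨⟨⟨hC₁, hC₂⟩, hC₃⟩, hC₄⟩, ∑ j, x j • γ j, ∑ j, y j • γ j,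
          ∑ j, z j • γ j, ∑ j, w j • γ j, ?_, ?_, ?_, ?_⟩
        · rw [← B.le l1, h1, B.le l1, ← map_add, ← Finset.sum_add_distrib]
          simp only [e1, add_smul]
        · rw [← B.le l2, h2, B.le l2, ← map_add, ← Finset.sum_add_distrib]
          simp only [e2, add_smul]
        · rw [← B.le l3, h3, B.le l3, ← map_add, ← Finset.sum_add_distrib]
          simp only [e3, add_smul]
        · rw [← B.le l4, h4, B.le l4, ← map_add, ← Finset.sum_add_distrib]
          simp only [e4, add_smul]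
    obtain ⟨x, y, z, w, e1, e2, e3, e4⟩ : ∃ x y z w, B.ρ ⊤ a = B.ρ ⊤ x + B.ρ ⊤ y ∧
      B.ρ ⊤ b = B.ρ ⊤ z + B.ρ ⊤ w ∧ B.ρ ⊤ c = B.ρ ⊤ x + B.ρ ⊤ z ∧
      B.ρ ⊤ d = B.ρ ⊤ y + B.ρ ⊤ w := this
    simp only [B.top] at e1 e2 e3 e4
    exact ⟨x, y, z, w, e1, e2, e3, e4⟩

end

end Pool.Agent.H6.NK
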