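import Pool.Agent.H6.NK.Star

set_option autoImplicit false

/-!
Local analysis at a point: elements that become small near the point, and minimal projections.
-/

namespace Pool.Agent.H6.NK

open Pool.Agent.H494R3.NK Pool.Agent.Y78.NK TopologicalSpace

universe u v

section
variable {I : Type} {M : Type v} [AddCommMonoid M] {N : NSys I M}
variable {U : Type u} [CStarAlgebra U] {p : U} {c : Cls U M p} {z : Clopens (Xs I) → U}

/-- small near the point -/
def Sm (z : Clopens (Xs I) → U) (t : Xs I) (x : U) : Prop :=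
  ∀ ε : ℝ, 0 < ε → ∃ C : Clopens (Xs I), t ∈ C ∧ ‖z C * x‖ ≤ ε

variable (hz : Cen N c z) {t : Xs I}
include hz

theorem z_norm (C : Clopens (Xs I)) : ‖z C‖ ≤ 1 := norm_proj_le (hz.isP C).1 (hz.sa C)

theorem z_mono {C D : Clopens (Xs I)} (h : C ≤ D) (x : U) : ‖z C * x‖ ≤ ‖z D * x‖ := by
  rw [← hz.le C D h, mul_assoc]
  calc ‖z C * (z D * x)‖ ≤ ‖z C‖ * ‖z D * x‖ := norm_mul_le _ _
    _ ≤ 1 * ‖z D * x‖ := mul_le_mul_of_nonneg_right (z_norm hz C) (norm_nonneg _)
    _ = ‖z D * x‖ := one_mul _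

theorem Sm.add {x y : U} (hx : Sm z t x) (hy : Sm z t y) : Sm z t (x + y) := by
  intro ε hε
  obtain ⟨C, hC, h1⟩ := hx (ε / 2) (by linarith)
  obtain ⟨D, hD, h2⟩ := hy (ε / 2) (by linarith)
  refine ⟨C ⊓ D, ⟨hC, hD⟩, ?_⟩
  rw [mul_add]
  calc ‖z (C ⊓ D) * x + z (C ⊓ D) * y‖ ≤ ‖z (C ⊓ D) * x‖ + ‖z (C ⊓ D) * y‖ := norm_add_le _ _
    _ ≤ ε / 2 + ε / 2 := add_le_add ((z_mono hz inf_le_left x).trans h1)
        ((z_mono hz inf_le_right y).trans h2)
    _ = ε := by ring

omit hz in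
theorem Sm.mul_right {x : U} (hx : Sm z t x) (y : U) : Sm z t (x * y) := by
  intro ε hε
  obtain ⟨C, hC, h1⟩ := hx (ε / (‖y‖ + 1)) (by positivity)
  refine ⟨C, hC, ?_⟩
  rw [← mul_assoc]
  calc ‖z C * x * y‖ ≤ ‖z C * x‖ * ‖y‖ := norm_mul_le _ _
    _ ≤ ε / (‖y‖ + 1) * (‖y‖ + 1) := by
        apply mul_le_mul h1 (by linarith) (norm_nonneg _) (by positivity)
    _ = ε := by field_simp

theorem Sm.mul_left {x : U} (hx : Sm z t x) {y : U} (h1 : p * y = y) (h2 : y * p = y) :
    Sm z t (y * x) := by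
  intro ε hε
  obtain ⟨C, hC, h3⟩ := hx (ε / (‖y‖ + 1)) (by positivity)
  refine ⟨C, hC, ?_⟩
  rw [← mul_assoc, hz.comm C y h1 h2, mul_assoc]
  calc ‖y * (z C * x)‖ ≤ ‖y‖ * ‖z C * x‖ := norm_mul_le _ _
    _ ≤ (‖y‖ + 1) * (ε / (‖y‖ + 1)) := by
        apply mul_le_mul (by linarith) h3 (norm_nonneg _) (by positivity)
    _ = ε := by field_simp

omit hz in
theorem Sm.smul {x : U} (hx : Sm z t x) (a : ℂ) : Sm z t (a • x) := by
  have := hx.mul_right (algebraMap ℂ U a)
  rwa [← Algebra.commutes, ← Algebra.smul_def] at this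

omit hz in
theorem Sm.of_smul {x : U} {a : ℂ} (ha : a ≠ 0) (hx : Sm z t (a • x)) : Sm z t x := by
  have := hx.smul a⁻¹
  rwa [smul_smul, inv_mul_cancel₀ ha, one_smul] at this

omit hz in
theorem Sm.neg {x : U} (hx : Sm z t x) : Sm z t (-x) := by
  have := hx.smul (-1)
  rwa [neg_smul, one_smul] at this

theorem Sm.sub {x y : U} (hx : Sm z t x) (hy : Sm z t y) : Sm z t (x - y) := by
  rw [sub_eq_add_neg]
  exact Sm.add hz hx hy.neg

omit hz in
theorem Sm.zero : Sm z t 0 := fun ε hε => ⟨⊤, trivial, by rw [mul_zero, norm_zero]; exact hε.le⟩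

theorem Sm.sum {J : Type} (T : Finset J) (f : J → U) (h : ∀ j ∈ T, Sm z t (f j)) :
    Sm z t (∑ j ∈ T, f j) := by
  classical
  induction T using Finset.induction_on with
  | empty => rw [Finset.sum_empty]; exact Sm.zero
  | insert a T ha ih =>
    rw [Finset.sum_insert ha]
    exact Sm.add hz (h a (Finset.mem_insert_self _ _))
      (ih fun j hj => h j (Finset.mem_insert_of_mem hj))

theorem Sm.star' {x : U} (hx : Sm z t x) (h1 : p * x = x) (h2 : x * p = x) :
    Sm z t (star x) := by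
  intro ε hε
  obtain ⟨C, hC, h3⟩ := hx ε hε
  refine ⟨C, hC, ?_⟩
  have : z C * star x = star (z C * x) := by
    rw [hz.comm C x h1 h2, star_mul, hz.sa]
  rw [this, norm_star]
  exact h3

/-- if `x* x` is small then so is `x` -/
theorem Sm.of_star_mul {x : U} (hx : Sm z t (star x * x)) (h1 : p * x = x) (h2 : x * p = x) :
    Sm z t x := by
  intro ε hε
  obtain ⟨C, hC, h3⟩ := hx (ε ^ 2) (by positivity)
  refine ⟨C, hC, ?_⟩
  have h4 : star (z C * x) * (z C * x) = z C * (star x * x) := by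
    rw [star_mul, hz.sa, hz.comm C x h1 h2]
    have e1 : star x * p = star x := by
      have := congrArg star h1
      have ps := c.ps
      rwa [star_mul, ps] at this
    have e2 : p * star x = star x := by
      have := congrArg star h2
      have ps := c.ps
      rwa [star_mul, ps] at this
    have e3 := hz.comm C (star x) e2 e1
    rw [← hz.comm C x h1 h2, mul_assoc (star x), ← mul_assoc (z C) (z C), (hz.isP C).1,
      ← mul_assoc, ← e3, mul_assoc]
  have h5 : ‖z C * x‖ * ‖z C * x‖ = ‖z C * (star x * x)‖ := by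
    rw [← h4, CStarRing.norm_star_mul_self]
  nlinarith [norm_nonneg (z C * x)]

/-- smallness is local -/
theorem Sm.of_cut {x : U} {C : Clopens (Xs I)} (hC : t ∈ C) (hx : Sm z t (z C * x)) :
    Sm z t x := by
  intro ε hε
  obtain ⟨D, hD, h1⟩ := hx ε hε
  refine ⟨D ⊓ C, ⟨hD, hC⟩, ?_⟩
  have : z (D ⊓ C) * x = z (D ⊓ C) * (z C * x) := by
    rw [← mul_assoc, hz.le _ _ inf_le_right]
  rw [this]
  exact (z_mono hz inf_le_left _).trans h1

omit hz in
theorem sm_of_zero {x : U} {C : Clopens (Xs I)} (hC : t ∈ C) (hx : z C * x = 0) : Sm z t x :=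
  fun ε hε => ⟨C, hC, by rw [hx, norm_zero]; exact hε.le⟩

omit hz in
theorem cls_zero (N : NSys I M) (c : Cls U M p) : c.cls 0 = 0 := by
  have h0 : IsP p (0 : U) := ⟨by simp, by simp, by simp⟩
  have := c.add 0 0 h0 h0 (by simp) (by simp)
  rw [add_zero] at this
  have h1 : 0 + c.cls 0 = c.cls 0 + c.cls 0 := by rw [zero_add]; exact this
  exact (N.dim.cancel _ _ _ h1).symm

theorem rank_zero (ht : ∀ k, act t k) {q : U} (hq : IsP p q) (h : N.r t (c.cls q) = 0) :
    ∃ C : Clopens (Xs I), t ∈ C ∧ z C * q = 0 := by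
  obtain ⟨γ, hγ⟩ := N.loc t ht
  obtain ⟨C, hC, h1⟩ := hγ (c.cls q)
  rw [h, zero_smul, ← hz.cut C q hq] at h1
  exact ⟨C, hC, c.zero _ (isP_mul (hz.isP C) hq (hz.comm C q hq.2.1 hq.2.2)) h1⟩

theorem zero_rank {C : Clopens (Xs I)} (hC : t ∈ C) {q : U} (hq : IsP p q) (h : z C * q = 0) :
    N.r t (c.cls q) = 0 := by
  have h1 := hz.cut C q hq
  rw [h, cls_zero N c] at h1
  rw [← N.B.compl C (c.cls q), ← h1, zero_add]
  exact N.rρ t Cᶜ _ (fun h2 => h2 hC)

theorem sm_rank {q : U} (hq : IsP p q) (h : Sm z t q) : N.r t (c.cls q) = 0 := by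
  obtain ⟨C, hC, h1⟩ := h (1 / 2) (by norm_num)
  have h2 := isP_mul (hz.isP C) hq (hz.comm C q hq.2.1 hq.2.2)
  have h3 : ‖z C * q‖ ≤ ‖z C * q‖ * ‖z C * q‖ := by
    conv_lhs => rw [← h2.1]
    exact norm_mul_le _ _
  have h4 : ‖z C * q‖ = 0 := by nlinarith [norm_nonneg (z C * q)]
  exact zero_rank hz hC hq (norm_eq_zero.1 h4)

theorem rank_sm (ht : ∀ k, act t k) {q : U} (hq : IsP p q) (h : N.r t (c.cls q) = 0) :
    Sm z t q := by
  obtain ⟨C, hC, h1⟩ := rank_zero hz ht hq h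
  exact sm_of_zero hC h1

omit hz in
theorem isUnit_of_right {a b : U} (ha : star a = a) (h : a * b = 1) : IsUnit a := by
  have h1 : star b * a = 1 := by
    have := congrArg star h
    rwa [star_mul, ha, star_one] at this
  exact ⟨⟨a, b, h, by
    have : star b = b := by
      calc star b = star b * (a * b) := by rw [h, mul_one]
        _ = b := by rw [← mul_assoc, h1, one_mul]
    rw [this] at h1
    exact h1⟩, rfl⟩

/-- a right inverse near the point prevents nearby numbers from being spectral values -/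
theorem not_spec {g x w : U} {C : Clopens (Xs I)} {a : ℝ} (hg : IsP p g) (hgs : star g = g)
    (hx : star x = x) (hgx : g * x = x) (hw : z C * g = z C * ((x - (a : ℂ) • g) * w)) :
    ∀ D : Clopens (Xs I), D ≤ C → ∀ b : ℝ, b ≠ 0 → |b - a| * ‖w‖ < 1 →
      b ∉ spectrum ℝ (z D * x) := by
  intro D hD b hb hlt hmem
  have hxg : x * g = x := by
    have := congrArg star hgx
    rwa [star_mul, hgs, hx] at this
  have hpx : p * x = x := by rw [← hgx, ← mul_assoc, hg.2.1]
  have hxp : x * p = x := by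
    have := congrArg star hpx
    have ps := c.ps
    rwa [star_mul, ps, hx] at this
  have zx := hz.comm D x hpx hxp
  have zg := hz.comm D g hg.2.1 hg.2.2
  obtain ⟨e, he⟩ : ∃ e, e = z D * g := ⟨_, rfl⟩
  have hee : e * e = e := by
    rw [he]
    exact (isP_mul (hz.isP D) hg zg).1
  obtain ⟨k, hk⟩ : ∃ k, k = z D * x := ⟨_, rfl⟩
  have hks : star k = k := by
    rw [hk, star_mul, hx, hz.sa, zx]
  have hke : k * e = k := by
    rw [hk, he, mul_assoc, ← mul_assoc x, ← zx, mul_assoc (z D) x g, hxg, ← mul_assoc,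
      (hz.isP D).1]
  have hek : e * k = k := by
    rw [hk, he, mul_assoc, ← mul_assoc g, ← zg, mul_assoc (z D) g x, hgx, ← mul_assoc,
      (hz.isP D).1]
  -- the relation on `D`
  have hw' : e = (k - (a : ℂ) • e) * w := by
    have h1 := congrArg (fun y => z D * y) hw
    simp only [← mul_assoc, hz.le D C hD] at h1
    calc e = z D * g := he
      _ = z D * (x - (a : ℂ) • g) * w := h1
      _ = (k - (a : ℂ) • e) * w := by rw [hk, he, mul_sub, mul_smul_comm]
  obtain ⟨d, hd⟩ : ∃ d : ℂ, d = ((b - a : ℝ) : ℂ) := ⟨_, rfl⟩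
  have hv : ‖d • w‖ < 1 := by
    rw [norm_smul, hd, Complex.norm_real, Real.norm_eq_abs]
    exact hlt
  have hu : IsUnit (1 - d • w) := isUnit_one_sub_of_norm_lt_one hv
  obtain ⟨v, hv⟩ := hu
  have h2 : (k - (b : ℂ) • e) * w = e * v := by
    have e1 : (k - (b : ℂ) • e) * w = (k - (a : ℂ) • e) * w - e * (d • w) := by
      rw [hd]
      push_cast
      rw [sub_mul, sub_mul, smul_mul_assoc, smul_mul_assoc, mul_smul_comm, sub_smul]
      abel
    rw [e1, ← hw', hv, mul_sub, mul_one]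
  have h3 : (k - (b : ℂ) • e) * (w * (v⁻¹ : Uˣ)) = e := by
    rw [← mul_assoc, h2, mul_assoc, Units.mul_inv, mul_one]
  have h4 : (k - (b : ℂ) • (1 : U)) * (e * (w * (v⁻¹ : Uˣ)) - (b : ℂ)⁻¹ • (1 - e)) = 1 := by
    have e1 : (k - (b : ℂ) • (1 : U)) * e = k - (b : ℂ) • e := by
      rw [sub_mul, hke, smul_mul_assoc, one_mul]
    have e2 : (k - (b : ℂ) • (1 : U)) * (1 - e) = -((b : ℂ) • (1 - e)) := by
      rw [sub_mul, mul_sub, mul_one, hke, sub_self, zero_sub, smul_mul_assoc, one_mul]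
    have hb' : (b : ℂ) ≠ 0 := by exact_mod_cast hb
    have e3 : (k - (b : ℂ) • e) * e = k - (b : ℂ) • e := by
      rw [sub_mul, hke, smul_mul_assoc, hee]
    rw [mul_sub, ← mul_assoc, e1, h3, mul_smul_comm, e2, smul_neg, smul_smul,
      inv_mul_cancel₀ hb', one_smul]
    abel
  have h5 : star (k - (b : ℂ) • (1 : U)) = k - (b : ℂ) • (1 : U) := by
    rw [star_sub, hks, star_smul, star_one, Complex.star_def, Complex.conj_ofReal]
  have h6 := isUnit_of_right h5 h4
  apply hmem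
  show IsUnit (algebraMap ℝ U b - z D * x)
  have h7 : algebraMap ℝ U b - z D * x = -(k - (b : ℂ) • (1 : U)) := by
    rw [hk, IsScalarTower.algebraMap_apply ℝ ℂ U b, Algebra.algebraMap_eq_smul_one]
    simp
  rw [h7]
  exact h6.neg

variable (hU : FS U)
include hU

/-- alternative: small or right invertible near the point -/
theorem sm_or_inv (ht : ∀ k, act t k) {g s : U} (hg : IsP p g)
    (hr : N.r t (c.cls g) = 1) (hgs : g * s = s) :
    Sm z t s ∨ ∃ (w : U) (C : Clopens (Xs I)), t ∈ C ∧ z C * g = z C * (s * w) := by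
  by_cases h : Sm z t s
  · exact Or.inl h
  right
  unfold Sm at h
  push Not at h
  obtain ⟨ε, hε, h1⟩ := h
  obtain ⟨w, h2, h3, h4⟩ := lemP hU s ε hε
  have hgf : g * (s * w) = s * w := by rw [← mul_assoc, hgs]
  have hf : IsP p (s * w) := by
    refine isP_of_star c.ps h2 h3 ?_
    rw [← hgf, ← mul_assoc, hg.2.1]
  -- `g` is self-adjoint up to replacing it: only `f g = f` modulo equivalence is needed
  have hle : Le (c.cls (s * w)) (c.cls g) := c.le _ g 1 (s * w) hf hg (by rw [one_mul, hgf])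
  obtain ⟨d, hd⟩ := hle
  have hrd : N.r t (c.cls (s * w)) + N.r t d = 1 := by
    rw [← map_add, hd, hr]
  by_cases h0 : N.r t (c.cls (s * w)) = 0
  · exfalso
    obtain ⟨C, hC, h5⟩ := rank_zero hz ht hf h0
    have h6 : z C * s = z C * ((1 - s * w) * s) := by
      rw [sub_mul, one_mul, mul_sub, ← mul_assoc (z C) (s * w), h5, zero_mul, sub_zero]
    have h7 : ‖z C * s‖ ≤ ε := by
      rw [h6]
      calc ‖z C * ((1 - s * w) * s)‖ ≤ ‖z C‖ * ‖(1 - s * w) * s‖ := norm_mul_le _ _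
        _ ≤ 1 * ε := mul_le_mul (z_norm hz C) h4 (norm_nonneg _) (by norm_num)
        _ = ε := one_mul _
    exact absurd h7 (not_le.2 (h1 C hC))
  · -- `f g` is an idempotent equivalent to `f`, and `g - f g` has rank zero
    have hfg : IsP p (s * w * g) := by
      refine ⟨?_, ?_, ?_⟩
      · calc s * w * g * (s * w * g) = s * w * (g * (s * w)) * g := by noncomm_ring
          _ = s * w * g := by rw [hgf, h2]
      · rw [← mul_assoc, hf.2.1]
      · rw [mul_assoc, hg.2.2]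
    have hgfg : g * (s * w * g) = s * w * g := by rw [← mul_assoc, hgf]
    have hfgg : s * w * g * g = s * w * g := by rw [mul_assoc, hg.1]
    have hsub := isP_sub hg hfg hgfg hfgg
    have hadd := c.add _ _ hfg hsub (by
      rw [mul_sub, hfgg, hfg.1, sub_self]) (by
      rw [sub_mul, hgfg, hfg.1, sub_self])
    rw [add_sub_cancel] at hadd
    have heq : Le (c.cls (s * w)) (c.cls (s * w * g)) := by
      refine c.le _ (s * w * g) 1 (s * w) hf hfg ?_
      rw [one_mul, mul_assoc, hgf, h2]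
    obtain ⟨d', hd'⟩ := heq
    have h8 : N.r t (c.cls (s * w)) + N.r t d' = N.r t (c.cls (s * w * g)) := by
      rw [← map_add, hd']
    have h9 : N.r t (c.cls (s * w * g)) + N.r t (c.cls (g - s * w * g)) = 1 := by
      rw [← map_add, ← hadd, hr]
    have h10 : N.r t (c.cls (g - s * w * g)) = 0 := by omega
    obtain ⟨C, hC, h5⟩ := rank_zero hz ht hsub h10
    refine ⟨w * g, C, hC, ?_⟩
    rw [mul_sub, sub_eq_zero] at h5
    rw [h5]
    simp only [mul_assoc]

/-- the corner of a minimal projection: self-adjoint elements -/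
theorem corner_real (ht : ∀ k, act t k) {g x : U} (hg : IsP p g) (hgs : star g = g)
    (hr : N.r t (c.cls g) = 1) (hx : star x = x) (hgx : g * x = x) :
    ∃ a : ℝ, Sm z t (x - (a : ℂ) • g) := by
  have hxg : x * g = x := by
    have := congrArg star hgx
    rwa [star_mul, hgs, hx] at this
  have hpx : p * x = x := by rw [← hgx, ← mul_assoc, hg.2.1]
  have hxp : x * p = x := by
    have := congrArg star hpx
    have ps := c.ps
    rwa [star_mul, ps, hx] at this
  obtain ⟨S, hS⟩ : ∃ S : Set ℝ, S = {r | ∃ C : Clopens (Xs I), t ∈ C ∧ r = ‖z C * x‖} := ⟨_, rfl⟩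
  have hSne : S.Nonempty := by
    rw [hS]
    exact ⟨_, ⊤, trivial, rfl⟩
  have hSb : BddBelow S := ⟨0, by
    rw [hS]
    rintro _ ⟨C, _, rfl⟩
    exact norm_nonneg _⟩
  obtain ⟨m, hm⟩ : ∃ m, m = sInf S := ⟨_, rfl⟩
  have hm0 : 0 ≤ m := by
    rw [hm]
    apply le_csInf hSne
    rw [hS]
    rintro _ ⟨C, _, rfl⟩
    exact norm_nonneg _
  have hml : ∀ C : Clopens (Xs I), t ∈ C → m ≤ ‖z C * x‖ := by
    intro C hC
    rw [hm]
    apply csInf_le hSb
    rw [hS]
    exact ⟨C, hC, rfl⟩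
  have hmu : ∀ η : ℝ, 0 < η → ∃ C : Clopens (Xs I), t ∈ C ∧ ‖z C * x‖ < m + η := by
    intro η hη
    obtain ⟨r, hr, h1⟩ := exists_lt_of_csInf_lt hSne (show sInf S < m + η by rw [← hm]; linarith)
    rw [hS] at hr
    obtain ⟨C, hC, rfl⟩ := hr
    exact ⟨C, hC, h1⟩
  rcases hm0.eq_or_lt with h0 | hpos
  · refine ⟨0, ?_⟩
    rw [Complex.ofReal_zero, zero_smul, sub_zero]
    intro ε hε
    obtain ⟨C, hC, h1⟩ := hmu ε hε
    exact ⟨C, hC, by linarith⟩
  have hgs' : ∀ a : ℝ, g * (x - (a : ℂ) • g) = x - (a : ℂ) • g := by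
    intro a
    rw [mul_sub, hgx, mul_smul_comm, hg.1]
  rcases sm_or_inv hz hU ht hg hr (hgs' m) with h1 | ⟨w, C, hC, hw⟩
  · exact ⟨m, h1⟩
  rcases sm_or_inv hz hU ht hg hr (hgs' (-m)) with h1 | ⟨w', C', hC', hw'⟩
  · exact ⟨-m, h1⟩
  exfalso
  obtain ⟨η, hη⟩ : ∃ η : ℝ, η = 1 / (‖w‖ + ‖w'‖ + 1) := ⟨_, rfl⟩
  have hη0 : 0 < η := by rw [hη]; positivity
  obtain ⟨D, hD, h1⟩ := hmu η hη0
  obtain ⟨E, hE⟩ : ∃ E, E = D ⊓ (C ⊓ C') := ⟨_, rfl⟩
  have htE : t ∈ E := by rw [hE]; exact ⟨hD, hC, hC'⟩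
  have hEC : E ≤ C := by rw [hE]; exact inf_le_right.trans inf_le_left
  have hEC' : E ≤ C' := by rw [hE]; exact inf_le_right.trans inf_le_right
  have hED : E ≤ D := by rw [hE]; exact inf_le_left
  have h2 := hml E htE
  have h3 : ‖z E * x‖ < m + η := (z_mono hz hED x).trans_lt h1
  have hpos' : 0 < ‖z E * x‖ := lt_of_lt_of_le hpos h2
  have hnt : Nontrivial U := by
    refine ⟨z E * x, 0, ?_⟩
    intro h
    rw [h, norm_zero] at hpos'
    exact lt_irrefl _ hpos'
  have hsa : IsSelfAdjoint (z E * x) := by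
    show star (z E * x) = z E * x
    rw [star_mul, hx, hz.sa, hz.comm E x hpx hxp]
  have hlt : ∀ v : U, ‖v‖ ≤ ‖w‖ + ‖w'‖ → |‖z E * x‖ - m| * ‖v‖ < 1 := by
    intro v hv
    have h4 : |‖z E * x‖ - m| < η := by
      rw [abs_lt]
      constructor <;> linarith
    calc |‖z E * x‖ - m| * ‖v‖ ≤ η * (‖w‖ + ‖w'‖) :=
          mul_le_mul h4.le hv (norm_nonneg _) hη0.le
      _ < η * (‖w‖ + ‖w'‖ + 1) := by
          apply mul_lt_mul_of_pos_left _ hη0
          linarith
      _ = 1 := by rw [hη]; field_simp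
  rcases CStarAlgebra.norm_or_neg_norm_mem_spectrum hsa with h4 | h4
  · refine not_spec hz hg hgs hx hgx hw E hEC _ hpos'.ne' ?_ h4
    exact hlt w (by linarith [norm_nonneg w'])
  · refine not_spec hz hg hgs hx hgx hw' E hEC' _ (neg_ne_zero.2 hpos'.ne') ?_ h4
    have : |-‖z E * x‖ - -m| = |‖z E * x‖ - m| := by
      rw [← abs_neg]
      congr 1
      ring
    rw [this]
    exact hlt w' (by linarith [norm_nonneg w])

/-- the corner of a minimal projection -/
theorem corner_scalar (ht : ∀ k, act t k) {g x : U} (hg : IsP p g) (hgs : star g = g)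
    (hr : N.r t (c.cls g) = 1) (hgx : g * x = x) (hxg : x * g = x) :
    ∃ a : ℂ, Sm z t (x - a • g) := by
  have e1 : star x * g = star x := by
    have := congrArg star hgx
    rwa [star_mul, hgs] at this
  have e2 : g * star x = star x := by
    have := congrArg star hxg
    rwa [star_mul, hgs] at this
  obtain ⟨a, ha⟩ := corner_real hz hU ht hg hgs hr (x := x + star x)
    (by rw [star_add, star_star, add_comm]) (by rw [mul_add, hgx, e2])
  obtain ⟨b, hb⟩ := corner_real hz hU ht hg hgs hr (x := Complex.I • (x - star x))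
    (by
      rw [star_smul, star_sub, star_star]
      simp only [Complex.star_def, Complex.conj_I]
      rw [neg_smul, ← smul_neg, neg_sub]) (by rw [mul_smul_comm, mul_sub, hgx, e2])
  refine ⟨((a : ℂ) - Complex.I * b) / 2, ?_⟩
  have h1 := Sm.sub hz (ha.smul (1 / 2)) (hb.smul (Complex.I / 2))
  have h2 : (1 / 2 : ℂ) • (x + star x - (a : ℂ) • g) -
      (Complex.I / 2 : ℂ) • (Complex.I • (x - star x) - (b : ℂ) • g) =
      x - (((a : ℂ) - Complex.I * b) / 2) • g := by
    have hI : Complex.I / 2 * Complex.I = -(1 / 2) := by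
      have := Complex.I_mul_I
      linear_combination (1 / 2 : ℂ) * this
    rw [smul_sub, smul_sub, smul_smul, smul_smul, smul_smul, hI, smul_add, smul_sub, neg_smul,
      neg_smul]
    have e3 : x = (1 / 2 : ℂ) • x + (1 / 2 : ℂ) • x := by
      rw [← add_smul]
      norm_num
    have e4 : (((a : ℂ) - Complex.I * b) / 2) • g =
        (1 / 2 * (a : ℂ)) • g - (Complex.I / 2 * (b : ℂ)) • g := by
      rw [← sub_smul]
      congr 1
      ring
    conv_rhs => rw [e3, e4]
    abel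
  rwa [h2] at h1

end

end Pool.Agent.H6.NK
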