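import Pool.Graph.R_seed8.H499R3.NK.TaskFin
import Pool.Agent.H6.NK.Loc

set_option autoImplicit false

/-!
Functoriality of `V`, ranks, and monoids `V` of products of matrix rings over fields.
-/

namespace Pool.Agent.H6.NK

open Pool.Agent.H494R3.NK TopologicalSpace

universe u v w

section
variable {R : Type u} {S : Type v} {T : Type w} [NonUnitalRing R] [NonUnitalRing S]
  [NonUnitalRing T]

theorem map_mul' (φ : R →ₙ+* S) {ι κ μ : Type} [Fintype κ] (x : Matrix ι κ R)
    (y : Matrix κ μ R) : (x * y).map φ = x.map φ * y.map φ := by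
  ext i j
  simp [Matrix.mul_apply, map_sum, map_mul]

/-- the image of an idempotent under a homomorphism -/
def imap (φ : R →ₙ+* S) (e : Idem R) : Idem S :=
  ⟨e.size, e.mat.map φ, by rw [← map_mul', e.idem]⟩

theorem Eqv.map (φ : R →ₙ+* S) {ι κ : Type} [Fintype ι] [Fintype κ] {e : Matrix ι ι R}
    {f : Matrix κ κ R} (h : Eqv e f) : Eqv (e.map φ) (f.map φ) := by
  obtain ⟨x, y, h1, h2⟩ := h
  exact ⟨x.map φ, y.map φ, by rw [← map_mul', h1], by rw [← map_mul', h2]⟩

theorem blk_map (φ : R →ₙ+* S) {m n : ℕ} (e : Matrix (Fin m) (Fin m) R)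
    (f : Matrix (Fin n) (Fin n) R) : (blk e f).map φ = blk (e.map φ) (f.map φ) := by
  unfold blk
  rw [← Matrix.submatrix_map]
  congr 1
  ext (i | i) (j | j) <;> simp

/-- the homomorphism of monoids induced by a homomorphism of rings -/
def vmap (φ : R →ₙ+* S) : VV R →+ VV S where
  toFun := Quotient.map (imap φ) (by
    intro e f h
    exact (Idem.equiv_iff _ _).2 (Eqv.map φ ((Idem.equiv_iff e f).1 h)))
  map_zero' := by
    show VV.mk (imap φ (Idem.zero R)) = VV.mk (Idem.zero S)
    apply VV.mk_eq.2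
    have : (imap φ (Idem.zero R)).mat = 0 := by
      ext i
      exact Fin.elim0 i
    rw [this]
    exact Eqv.zero
  map_add' := by
    rintro ⟨a⟩ ⟨b⟩
    show VV.mk (imap φ (a.add b)) = VV.mk ((imap φ a).add (imap φ b))
    congr 1
    show (⟨_, _, _⟩ : Idem S) = ⟨_, _, _⟩
    congr 1
    exact blk_map φ a.mat b.mat

theorem vmap_mk (φ : R →ₙ+* S) (e : Idem R) : vmap φ (VV.mk e) = VV.mk (imap φ e) := rfl

theorem exists_mk (c : VV R) : ∃ e : Idem R, c = VV.mk e := by
  obtain ⟨e, he⟩ := Quotient.exists_rep c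
  exact ⟨e, he.symm⟩

theorem vmap_comp (φ : R →ₙ+* S) (ψ : S →ₙ+* T) (θ : R →ₙ+* T) (h : ∀ x, θ x = ψ (φ x))
    (c : VV R) : vmap ψ (vmap φ c) = vmap θ c := by
  obtain ⟨e, rfl⟩ := exists_mk c
  show VV.mk (imap ψ (imap φ e)) = VV.mk (imap θ e)
  congr 1
  show (⟨_, _, _⟩ : Idem T) = ⟨_, _, _⟩
  congr 1
  ext i j
  exact (h _).symm

theorem vmap_id (φ : R →ₙ+* R) (h : ∀ x, φ x = x) (c : VV R) : vmap φ c = c := by
  obtain ⟨e, rfl⟩ := exists_mk c
  show VV.mk (imap φ e) = VV.mk e
  congr 1
  show (⟨_, _, _⟩ : Idem R) = ⟨_, _, _⟩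
  congr 1
  ext i j
  exact h _

theorem vmap_zero (φ : R →ₙ+* S) (h : ∀ x, φ x = 0) (c : VV R) : vmap φ c = 0 := by
  obtain ⟨e, rfl⟩ := exists_mk c
  apply VV.mk_eq.2
  have : (imap φ e).mat = 0 := by
    ext i j
    exact h _
  rw [this]
  exact Eqv.zero

/-- the class of an orthogonal sum -/
theorem cm_add {n : ℕ} {e f : Matrix (Fin n) (Fin n) R} (he : e * e = e) (hf : f * f = f)
    (hef : (e + f) * (e + f) = e + f) (h1 : e * f = 0) (h2 : f * e = 0) :
    cm hef = cm he + cm hf := by
  unfold cm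
  rw [VV.add_mk]
  apply VV.mk_eq.2
  show Eqv (e + f) (blk e f)
  refine Eqv.trans hef (blk_idem he hf) ?_ (Eqv.blk he hf)
  refine ⟨Matrix.fromCols e f, Matrix.fromRows e f, ?_, ?_⟩
  · rw [colrow, he, hf]
  · rw [rowcol, he, hf, h1, h2]

theorem vmap_add (φ ψ θ : R →ₙ+* S) (h : ∀ x, θ x = φ x + ψ x) (h1 : ∀ x y, φ x * ψ y = 0)
    (h2 : ∀ x y, ψ x * φ y = 0) (c : VV R) : vmap θ c = vmap φ c + vmap ψ c := by
  obtain ⟨e, rfl⟩ := exists_mk c
  have e1 : e.mat.map φ * e.mat.map φ = e.mat.map φ := by rw [← map_mul', e.idem]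
  have e2 : e.mat.map ψ * e.mat.map ψ = e.mat.map ψ := by rw [← map_mul', e.idem]
  have e3 : e.mat.map θ = e.mat.map φ + e.mat.map ψ := by
    ext i j
    exact h _
  have e4 : e.mat.map φ * e.mat.map ψ = 0 := by
    ext i j
    rw [Matrix.mul_apply]
    exact Finset.sum_eq_zero fun k _ => h1 _ _
  have e5 : e.mat.map ψ * e.mat.map φ = 0 := by
    ext i j
    rw [Matrix.mul_apply]
    exact Finset.sum_eq_zero fun k _ => h2 _ _
  have e6 : (e.mat.map φ + e.mat.map ψ) * (e.mat.map φ + e.mat.map ψ) =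
      e.mat.map φ + e.mat.map ψ := by
    rw [← e3, ← map_mul', e.idem]
  have := cm_add e1 e2 e6 e4 e5
  have h3 : vmap θ (VV.mk e) = cm e6 := by
    show VV.mk (⟨_, _, _⟩ : Idem S) = VV.mk ⟨_, _, _⟩
    congr 2
  rw [h3, this]
  rfl

end

/-! ### ranks -/

section
variable {K : Type} [Field K]

theorem rank_of {ι κ : Type} [Fintype ι] [Fintype κ] [DecidableEq κ] (X : Matrix ι κ K)
    (Y : Matrix κ ι K) (h : Y * X = 1) : (X * Y).rank = Fintype.card κ := by
  apply le_antisymm
  · exact (Matrix.rank_mul_le_left X Y).trans (Matrix.rank_le_card_width X)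
  · have h1 : Y * (X * Y) * X = 1 := by
      rw [← Matrix.mul_assoc, h, Matrix.one_mul, h]
    calc Fintype.card κ = (Y * (X * Y) * X).rank := by rw [h1, Matrix.rank_one]
      _ ≤ (Y * (X * Y)).rank := Matrix.rank_mul_le_left _ _
      _ ≤ (X * Y).rank := Matrix.rank_mul_le_right _ _

theorem exists_fac {ι : Type} [Fintype ι] [DecidableEq ι] (E : Matrix ι ι K) (hE : E * E = E) :
    ∃ (r : ℕ) (X : Matrix ι (Fin r) K) (Y : Matrix (Fin r) ι K), X * Y = E ∧ Y * X = 1 := by
  obtain ⟨f, hf⟩ : ∃ f : (ι → K) →ₗ[K] (ι → K), f = Matrix.toLin' E := ⟨_, rfl⟩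
  have hff : ∀ x, f (f x) = f x := by
    intro x
    rw [hf, ← LinearMap.comp_apply, ← Matrix.toLin'_mul, hE]
  obtain ⟨b, hb⟩ : ∃ b : LinearMap.range f ≃ₗ[K] (Fin (Module.finrank K (LinearMap.range f)) → K),
      b = b := ⟨(Module.finBasis K (LinearMap.range f)).equivFun, rfl⟩
  refine ⟨Module.finrank K (LinearMap.range f),
    LinearMap.toMatrix' ((LinearMap.range f).subtype ∘ₗ b.symm.toLinearMap),
    LinearMap.toMatrix' (b.toLinearMap ∘ₗ f.rangeRestrict), ?_, ?_⟩
  · rw [← LinearMap.toMatrix'_comp]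
    have : ((LinearMap.range f).subtype ∘ₗ b.symm.toLinearMap) ∘ₗ
        (b.toLinearMap ∘ₗ f.rangeRestrict) = f := by
      ext x
      simp
    rw [this, hf, LinearMap.toMatrix'_toLin']
  · rw [← LinearMap.toMatrix'_comp]
    have : (b.toLinearMap ∘ₗ f.rangeRestrict) ∘ₗ
        ((LinearMap.range f).subtype ∘ₗ b.symm.toLinearMap) = LinearMap.id := by
      apply LinearMap.ext
      intro x
      have h1 : f.rangeRestrict ((b.symm x : LinearMap.range f) : ι → K) = b.symm x := by
        apply Subtype.ext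
        obtain ⟨y, hy⟩ := (b.symm x).2
        show f ((b.symm x : LinearMap.range f) : ι → K) = _
        rw [← hy, hff]
      show b (f.rangeRestrict ((b.symm x : LinearMap.range f) : ι → K)) = x
      rw [h1, LinearEquiv.apply_symm_apply]
    rw [this, LinearMap.toMatrix'_id]

variable (K) in
/-- the matrix ring -/
abbrev Mt (n : ℕ) : Type := Matrix (Fin n) (Fin n) K

/-- a matrix of matrices as a matrix -/
def flat {n : ℕ} {ι κ : Type} (x : Matrix ι κ (Mt K n)) : Matrix (ι × Fin n) (κ × Fin n) K :=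
  Matrix.of fun p q => x p.1 q.1 p.2 q.2

theorem flat_mul {n : ℕ} {ι κ μ : Type} [Fintype κ] (x : Matrix ι κ (Mt K n))
    (y : Matrix κ μ (Mt K n)) : flat (x * y) = flat x * flat y := by
  ext p q
  rw [Matrix.mul_apply, Fintype.sum_prod_type]
  show (x * y) p.1 q.1 p.2 q.2 = _
  rw [Matrix.mul_apply, Matrix.sum_apply]
  refine Finset.sum_congr rfl fun i _ => ?_
  rw [Matrix.mul_apply]
  rfl

theorem flat_rank_le {n : ℕ} {ι κ : Type} [Fintype ι] [Fintype κ] {e : Matrix ι ι (Mt K n)}
    {f : Matrix κ κ (Mt K n)} (he : e * e = e) (h : Eqv e f) : (flat e).rank ≤ (flat f).rank := by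
  obtain ⟨x, y, h1, h2⟩ := h
  have : flat e = flat x * flat f * flat y := by
    rw [← flat_mul, ← flat_mul, ← h2, ← Matrix.mul_assoc, h1, Matrix.mul_assoc, h1, he]
  rw [this]
  exact (Matrix.rank_mul_le_left _ _).trans (Matrix.rank_mul_le_right _ _)

theorem rank_blocks {ι κ : Type} [Fintype ι] [Fintype κ] [DecidableEq ι] [DecidableEq κ]
    (E : Matrix ι ι K) (F : Matrix κ κ K) (hE : E * E = E) (hF : F * F = F) :
    (Matrix.fromBlocks E 0 0 F).rank = E.rank + F.rank := by
  obtain ⟨r, X, Y, h1, h2⟩ := exists_fac E hE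
  obtain ⟨s, X', Y', h3, h4⟩ := exists_fac F hF
  have e1 : Matrix.fromBlocks E 0 0 F = Matrix.fromBlocks X 0 0 X' * Matrix.fromBlocks Y 0 0 Y' := by
    rw [Matrix.fromBlocks_multiply]
    simp [h1, h3]
  have e2 : Matrix.fromBlocks Y 0 0 Y' * Matrix.fromBlocks X 0 0 X' = 1 := by
    rw [Matrix.fromBlocks_multiply]
    simp [h2, h4]
  rw [e1, rank_of _ _ e2, ← h1, ← h3, rank_of X Y h2, rank_of X' Y' h4]
  simp

variable (K) in
/-- the rank of a class of idempotents over a matrix ring -/
noncomputable def rkM (n : ℕ) : VV (Mt K n) →+ ℕ where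
  toFun := Quotient.lift (s := Idem.setoid (Mt K n)) (fun e => (flat e.mat).rank) (by
    intro e f h
    have h' : Eqv e.mat f.mat := (Idem.equiv_iff e f).1 h
    exact le_antisymm (flat_rank_le e.idem h') (flat_rank_le f.idem h'.symm))
  map_zero' := by
    show (flat (Idem.zero (Mt K n)).mat).rank = 0
    have : flat (Idem.zero (Mt K n)).mat = 0 := by
      ext p
      exact Fin.elim0 p.1
    rw [this, Matrix.rank_zero]
  map_add' := by
    rintro ⟨a⟩ ⟨b⟩
    show (flat (blk a.mat b.mat)).rank = (flat a.mat).rank + (flat b.mat).rank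
    have h1 : Eqv (blk a.mat b.mat) (Matrix.fromBlocks a.mat 0 0 b.mat) :=
      (Eqv.blk a.idem b.idem).symm
    have h2 : (flat (blk a.mat b.mat)).rank =
        (flat (Matrix.fromBlocks a.mat 0 0 b.mat)).rank :=
      le_antisymm (flat_rank_le (blk_idem a.idem b.idem) h1)
        (flat_rank_le (idem_blocks a.idem b.idem) h1.symm)
    have i1 : flat a.mat * flat a.mat = flat a.mat := by rw [← flat_mul, a.idem]
    have i2 : flat b.mat * flat b.mat = flat b.mat := by rw [← flat_mul, b.idem]
    rw [h2, ← rank_blocks _ _ i1 i2]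
    have h3 : flat (Matrix.fromBlocks a.mat 0 0 b.mat) =
        (Matrix.fromBlocks (flat a.mat) 0 0 (flat b.mat)).submatrix
          (Equiv.sumProdDistrib _ _ _) (Equiv.sumProdDistrib _ _ _) := by
      ext ⟨i | i, x⟩ ⟨j | j, y⟩ <;> rfl
    rw [h3, Matrix.rank_submatrix]

theorem rkM_mk {n : ℕ} (e : Idem (Mt K n)) : rkM K n (VV.mk e) = (flat e.mat).rank := rfl

theorem single_idem {n : ℕ} (a : Fin n) :
    (Matrix.single a a 1 : Mt K n) * Matrix.single a a 1 = Matrix.single a a 1 := by
  rw [Matrix.single_mul_single_same, mul_one]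

theorem mt_class {n : ℕ} (a : Fin n) (c : VV (Mt K n)) :
    c = rkM K n c • cl (single_idem (K := K) a) := by
  obtain ⟨e, rfl⟩ := exists_mk c
  have i1 : flat e.mat * flat e.mat = flat e.mat := by rw [← flat_mul, e.idem]
  obtain ⟨r, X, Y, h1, h2⟩ := exists_fac (flat e.mat) i1
  have hr : rkM K n (VV.mk e) = r := by
    rw [rkM_mk, ← h1, rank_of X Y h2, Fintype.card_fin]
  rw [hr, ← Pool.Agent.H499R3.NK.cm_diag]
  apply VV.mk_eq.2
  show Eqv e.mat (Matrix.diagonal (fun _ => Matrix.single a a 1) : Matrix (Fin r) (Fin r) (Mt K n))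
  refine ⟨Matrix.of fun i k => Matrix.of fun b c => if c = a then X (i, b) k else 0,
    Matrix.of fun k i => Matrix.of fun b c => if b = a then Y k (i, c) else 0, ?_, ?_⟩
  · ext i j b c
    have h3 := congrFun (congrFun h1 (i, b)) (j, c)
    rw [Matrix.mul_apply] at h3
    rw [Matrix.mul_apply, Matrix.sum_apply]
    show _ = flat e.mat (i, b) (j, c)
    rw [← h3]
    refine Finset.sum_congr rfl fun k _ => ?_
    rw [Matrix.mul_apply]
    simp
  · ext k l b c
    have h3 := congrFun (congrFun h2 k) l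
    rw [Matrix.mul_apply, Fintype.sum_prod_type] at h3
    rw [Matrix.mul_apply, Matrix.sum_apply]
    simp only [Matrix.mul_apply, Matrix.of_apply, Matrix.diagonal_apply]
    by_cases hb : b = a
    · by_cases hc : c = a
      · subst hb hc
        simp only [if_true]
        rw [h3, Matrix.one_apply]
        by_cases hkl : k = l
        · simp [hkl]
        · simp [hkl]
      · subst hb
        simp only [hc, if_false, mul_zero, Finset.sum_const_zero]
        by_cases hkl : k = l
        · simp [hkl, Ne.symm hc]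
        · simp [hkl]
    · simp only [hb, if_false, zero_mul, Finset.sum_const_zero]
      by_cases hkl : k = l
      · simp [hkl, Ne.symm hb]
      · simp [hkl]

end

/-! ### split rings -/

/-- rings with `V` generated freely by finitely many classes -/
def SplR (F : Type u) [NonUnitalRing F] : Prop := Spl (VV F)

theorem splR_mt (K : Type) [Field K] (n : ℕ) : SplR (Mt K (n + 1)) :=
  ⟨Unit, inferInstance, fun _ => rkM K (n + 1), fun _ => cl (single_idem (K := K) 0), fun c => by
    rw [Finset.univ_unique, Finset.sum_singleton]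
    exact mt_class 0 c⟩

theorem SplR.retract {F : Type u} {F' : Type v} [NonUnitalRing F] [NonUnitalRing F']
    (h : SplR F') (α : F →ₙ+* F') (β : F' →ₙ+* F) (hβ : ∀ x, β (α x) = x) : SplR F := by
  obtain ⟨J, _, r, γ, hc⟩ := h
  refine ⟨J, inferInstance, fun j => (r j).comp (vmap α), fun j => vmap β (γ j), fun c => ?_⟩
  have h1 : vmap β (vmap α c) = c := by
    rw [vmap_comp α β (NonUnitalRingHom.id F) (fun x => (hβ x).symm)]
    exact vmap_id _ (fun _ => rfl) c
  conv_lhs => rw [← h1, hc (vmap α c), map_sum]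
  refine Finset.sum_congr rfl fun j _ => ?_
  rw [map_nsmul]
  rfl

theorem splR_field (K : Type) [Field K] : SplR K := by
  refine (splR_mt K 0).retract
    { toFun := fun a => Matrix.of fun _ _ => a
      map_mul' := fun a b => by
        ext i j
        rw [Matrix.mul_apply, Fin.sum_univ_one]
        rfl
      map_zero' := rfl
      map_add' := fun a b => rfl }
    { toFun := fun a => a 0 0
      map_mul' := fun a b => by
        rw [Matrix.mul_apply, Fin.sum_univ_one]
      map_zero' := rfl
      map_add' := fun a b => rfl } (fun x => rfl)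

section
variable {J : Type} {F : J → Type} [∀ j, NonUnitalRing (F j)]

/-- the projection to a factor -/
def prJ (j : J) : (∀ j, F j) →ₙ+* F j where
  toFun x := x j
  map_mul' _ _ := rfl
  map_zero' := rfl
  map_add' _ _ := rfl

open Classical in
/-- the inclusion of a factor -/
noncomputable def inJ (j : J) : F j →ₙ+* (∀ j, F j) where
  toFun x := Pi.single j x
  map_mul' _ _ := Pi.single_mul ..
  map_zero' := Pi.single_zero j
  map_add' _ _ := Pi.single_add ..

open Classical in
/-- the restriction to a subset of the factors -/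
noncomputable def resJ (T : Finset J) : (∀ j, F j) →ₙ+* (∀ j, F j) where
  toFun x := fun j => if j ∈ T then x j else 0
  map_mul' x y := by
    funext j
    by_cases h : j ∈ T <;> simp [h]
  map_zero' := by
    funext j
    by_cases h : j ∈ T <;> simp [h]
  map_add' x y := by
    funext j
    by_cases h : j ∈ T <;> simp [h]

theorem resJ_class (T : Finset J) (c : VV (∀ j, F j)) :
    vmap (resJ T) c = ∑ j ∈ T, vmap (inJ j) (vmap (prJ j) c) := by
  classical
  induction T using Finset.induction_on with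
  | empty =>
    rw [Finset.sum_empty]
    apply vmap_zero
    intro x
    funext j
    show (if j ∈ (∅ : Finset J) then x j else 0) = 0
    simp
  | insert a T ha ih =>
    have h0 : vmap (inJ a) (vmap (prJ (F := F) a) c) = vmap ((inJ a).comp (prJ (F := F) a)) c :=
      vmap_comp _ _ _ (fun _ => rfl) c
    rw [Finset.sum_insert ha, ← ih, h0]
    apply vmap_add
    · intro x
      funext j
      show (if j ∈ insert a T then x j else 0) = Pi.single a (x a) j + (if j ∈ T then x j else 0)
      by_cases h : j = a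
      · subst h
        simp [ha]
      · simp [h]
    · intro x y
      funext j
      show Pi.single a (x a) j * (if j ∈ T then y j else 0) = 0
      by_cases h : j = a
      · subst h
        simp [ha]
      · simp [h]
    · intro x y
      funext j
      show (if j ∈ T then x j else 0) * Pi.single a (y a) j = 0
      by_cases h : j = a
      · subst h
        simp [ha]
      · simp [h]

theorem splR_pi [Fintype J] (h : ∀ j, SplR (F j)) : SplR (∀ j, F j) := by
  classical
  choose I hI r γ hc using fun j => (h j).out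
  refine ⟨Σ j, I j, inferInstance, fun p => (r p.1 p.2).comp (vmap (prJ p.1)),
    fun p => vmap (inJ p.1) (γ p.1 p.2), fun c => ?_⟩
  have h1 : vmap (resJ Finset.univ) c = c := by
    apply vmap_id
    intro x
    funext j
    show (if j ∈ (Finset.univ : Finset J) then x j else 0) = x j
    simp
  conv_lhs => rw [← h1, resJ_class]
  rw [Fintype.sum_sigma]
  refine Finset.sum_congr rfl fun j _ => ?_
  conv_lhs => rw [hc j (vmap (prJ j) c), map_sum]
  refine Finset.sum_congr rfl fun i _ => ?_
  rw [map_nsmul]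
  rfl

end

/-! ### rings with an action of the clopen sets -/

/-- restriction of the elements of a ring to clopen sets -/
structure CRing (X : Type) [TopologicalSpace X] (R : Type u) [NonUnitalRing R] where
  π : Clopens X → R →ₙ+* R
  top : ∀ x, π ⊤ x = x
  bot : ∀ x, π ⊥ x = 0
  inf : ∀ C D x, π C (π D x) = π (C ⊓ D) x
  compl : ∀ C x, π C x + π Cᶜ x = x
  orth : ∀ C x y, π C x * π Cᶜ y = 0
  orth' : ∀ C x y, π Cᶜ x * π C y = 0

section
variable {X : Type} [TopologicalSpace X] {R : Type u} [NonUnitalRing R]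

/-- the action on `V` -/
def CRing.toBMon (P : CRing X R) : BMon X (VV R) where
  ρ C := vmap (P.π C)
  top := vmap_id _ P.top
  bot := vmap_zero _ P.bot
  inf C D c := vmap_comp _ _ _ (fun x => (P.inf C D x).symm) c
  compl C c := by
    rw [← vmap_add (P.π C) (P.π Cᶜ) (NonUnitalRingHom.id R) (fun x => (P.compl C x).symm)
      (P.orth C) (P.orth' C) c]
    exact vmap_id _ (fun _ => rfl) c

theorem CRing.locFree (P : CRing X R) (s : X) {F : Type v} [NonUnitalRing F] (hF : SplR F)
    (α : R →ₙ+* F) (β : F →ₙ+* R)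
    (h : ∀ c, ∃ C : Clopens X, s ∈ C ∧ vmap (P.π C) c = vmap (P.π C) (vmap β (vmap α c))) :
    P.toBMon.LocFree s := by
  obtain ⟨J, _, r, γ, hc⟩ := hF
  refine ⟨J, inferInstance, fun j => (r j).comp (vmap α), fun j => vmap β (γ j), fun c => ?_⟩
  obtain ⟨C, hC, h1⟩ := h c
  refine ⟨C, hC, ?_⟩
  show vmap (P.π C) c = vmap (P.π C) _
  rw [h1]
  congr 1
  conv_lhs => rw [hc (vmap α c), map_sum]
  refine Finset.sum_congr rfl fun j _ => ?_
  rw [map_nsmul]
  rfl

end

end Pool.Agent.H6.NK
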