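import Pool.Agent.H6.NK.Map
import Pool.Agent.H6.NK.Comb
import Pool.Graph.R_seed8.Y78.NK.Urp

set_option autoImplicit false

/-!
The regular ring of all locally constant functions on a power of the two-element set with values in
the three by three matrices over the field with two elements that lie in certain commutative
subalgebras at the points where few coordinates are active.
-/

namespace Pool.Agent.H6.NK

open Pool.Agent.H494R3.NK Pool.Agent.Y78.NK TopologicalSpace

universe u v

/-- the matrix ring -/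
abbrev L3 : Type := Mt (ZMod 2) 3

/-- the idempotents -/
def ek (k : Fin 19) : L3 := Matrix.vecMulVec (vc k) (vr k)

theorem ek_mul (k l : Fin 19) : ek k * ek l = (vr k ⬝ᵥ vc l) • Matrix.vecMulVec (vc k) (vr l) := by
  unfold ek
  rw [Matrix.vecMulVec_mul_vecMulVec]
  ext i j
  simp [Matrix.vecMulVec_apply]
  ring

theorem ek_idem (k : Fin 19) : ek k * ek k = ek k := by
  rw [ek_mul, vr_vc, one_smul]
  rfl

theorem ek_orth {k l : Fin 19} (h : Orth k l) : ek k * ek l = 0 := by
  rw [ek_mul, h.1, zero_smul]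

theorem ek_aux : ∀ k l : Fin 19, k ≠ l → vr k ⬝ᵥ vc l ≠ 0 →
    ∃ i j, (vr k ⬝ᵥ vc l) * (vc k i * vr l j) ≠ (vr l ⬝ᵥ vc k) * (vc l i * vr k j) := by
  decide

theorem ek_comm {k l : Fin 19} (hkl : k ≠ l) (h : ek k * ek l = ek l * ek k) :
    ek k * ek l = 0 := by
  by_cases h0 : vr k ⬝ᵥ vc l = 0
  · rw [ek_mul, h0, zero_smul]
  · exfalso
    obtain ⟨i, j, hij⟩ := ek_aux k l hkl h0
    apply hij
    rw [ek_mul, ek_mul] at h
    have := congrFun (congrFun h i) j
    simpa [Matrix.vecMulVec_apply] using this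

/-! ### scalars -/

section
variable {K : Type} [Field K] {n : ℕ}

open Classical in
/-- the scalar by which `x` acts on `ζ` -/
noncomputable def coef (ζ x : Mt K n) : K :=
  if h : ζ ≠ 0 ∧ ∃ c : K, x * ζ = c • ζ then h.2.choose else 0

theorem coef_spec {ζ x : Mt K n} (h : ∃ c : K, x * ζ = c • ζ) : x * ζ = coef ζ x • ζ := by
  by_cases h0 : ζ = 0
  · rw [h0, mul_zero, smul_zero]
  · rw [coef, dif_pos ⟨h0, h⟩]
    exact h.choose_spec

theorem coef_zero (x : Mt K n) : coef 0 x = 0 := by
  rw [coef, dif_neg]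
  intro h
  exact h.1 rfl

theorem coef_eq {ζ x : Mt K n} (h0 : ζ ≠ 0) {c : K} (h : x * ζ = c • ζ) : coef ζ x = c := by
  have h1 := coef_spec ⟨c, h⟩
  rw [h] at h1
  exact (smul_left_injective K h0 h1).symm

theorem coef_mul {ζ x y : Mt K n} (hx : ∃ c : K, x * ζ = c • ζ) (hy : ∃ c : K, y * ζ = c • ζ) :
    coef ζ (x * y) = coef ζ x * coef ζ y := by
  by_cases h0 : ζ = 0
  · rw [h0, coef_zero, coef_zero, zero_mul]
  · apply coef_eq h0
    rw [mul_assoc, coef_spec hy, mul_smul_comm, coef_spec hx, smul_smul, mul_comm]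

theorem coef_add {ζ x y : Mt K n} (hx : ∃ c : K, x * ζ = c • ζ) (hy : ∃ c : K, y * ζ = c • ζ) :
    coef ζ (x + y) = coef ζ x + coef ζ y := by
  by_cases h0 : ζ = 0
  · rw [h0, coef_zero, coef_zero, coef_zero, zero_add]
  · apply coef_eq h0
    rw [add_mul, coef_spec hy, coef_spec hx, add_smul]

theorem coef_zero' (ζ : Mt K n) : coef ζ 0 = 0 := by
  by_cases h0 : ζ = 0
  · rw [h0, coef_zero]
  · apply coef_eq h0
    rw [zero_mul, zero_smul]

theorem single_mid (y z : Mt K n) (a b j l : Fin n) :
    (y * Matrix.single b j (1 : K) * z : Mt K n) a l = y a b * z j l := by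
  rw [Matrix.mul_apply, Finset.sum_eq_single j]
  · rw [Matrix.mul_single_apply_same, mul_one]
  · intro c _ hc
    rw [Matrix.mul_single_apply_of_ne _ _ _ _ _ hc, zero_mul]
  · intro h
    exact absurd (Finset.mem_univ _) h

/-- a matrix commuting with the corner of an idempotent is scalar there -/
theorem scalar_corner (ζ x : Mt K n) (hc : x * ζ = ζ * x)
    (h : ∀ y, x * (ζ * y * ζ) = (ζ * y * ζ) * x) : ∃ c : K, x * ζ = c • ζ := by
  by_cases h0 : ζ = 0
  · exact ⟨0, by rw [h0, mul_zero, smul_zero]⟩
  · obtain ⟨j, hj⟩ := Function.ne_iff.1 h0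
    obtain ⟨l, hl⟩ := Function.ne_iff.1 hj
    have hl' : ζ j l ≠ 0 := hl
    refine ⟨(x * ζ) j l / ζ j l, ?_⟩
    ext a b
    have h1 := h (Matrix.single b j 1)
    have h2 : x * (ζ * Matrix.single b j 1 * ζ) = (x * ζ) * Matrix.single b j 1 * ζ := by
      simp only [mul_assoc]
    have h3 : ζ * Matrix.single b j 1 * ζ * x = ζ * Matrix.single b j 1 * (x * ζ) := by
      rw [mul_assoc (ζ * Matrix.single b j 1), hc]
    rw [h2, h3] at h1
    have h4 := congrFun (congrFun h1 a) l
    rw [single_mid, single_mid] at h4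
    rw [Matrix.smul_apply, smul_eq_mul, div_mul_eq_mul_div, eq_div_iff hl', h4, mul_comm]

end

/-! ### the ring -/

section
variable (I : Type)

/-- the space -/
abbrev Xs : Type := Fin 19 × I → Bool

variable {I}

/-- the type `k` is active at `s` -/
def act (s : Xs I) (k : Fin 19) : Prop := ∃ x, s (k, x) = true

/-- membership in the fibre at `s` -/
def Good (s : Xs I) (x : L3) : Prop :=
  (∀ k l, act s k → act s l → ek k * ek l = ek l * ek k) →
    ∀ y : L3, (∀ k, act s k → y * ek k = ek k * y) → y * x = x * y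

theorem Good.mono {s s' : Xs I} (h : ∀ k, act s k → act s' k) {x : L3} (hx : Good s x) :
    Good s' x :=
  fun h1 y hy => hx (fun k l hk hl => h1 k l (h k hk) (h l hl)) y fun k hk => hy k (h k hk)

theorem Good.ek {s : Xs I} {k : Fin 19} (hk : act s k) : Good s (ek k) :=
  fun _ _ hy => hy k hk

theorem Good.one {s : Xs I} : Good s 1 := fun _ y _ => by rw [mul_one, one_mul]

theorem Good.zero {s : Xs I} : Good s 0 := fun _ y _ => by rw [mul_zero, zero_mul]

theorem Good.add {s : Xs I} {x y : L3} (hx : Good s x) (hy : Good s y) : Good s (x + y) :=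
  fun h z hz => by rw [mul_add, add_mul, hx h z hz, hy h z hz]

theorem Good.neg {s : Xs I} {x : L3} (hx : Good s x) : Good s (-x) :=
  fun h z hz => by rw [mul_neg, neg_mul, hx h z hz]

theorem Good.sub {s : Xs I} {x y : L3} (hx : Good s x) (hy : Good s y) : Good s (x - y) := by
  rw [sub_eq_add_neg]
  exact hx.add hy.neg

theorem Good.mul {s : Xs I} {x y : L3} (hx : Good s x) (hy : Good s y) : Good s (x * y) :=
  fun h z hz => by rw [← mul_assoc, hx h z hz, mul_assoc, hy h z hz, mul_assoc]

theorem Good.smul {s : Xs I} {x : L3} (c : ZMod 2) (hx : Good s x) : Good s (c • x) :=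
  fun h z hz => by rw [mul_smul_comm, smul_mul_assoc, hx h z hz]

theorem Good.sum {s : Xs I} {J : Type} (T : Finset J) (f : J → L3) (hf : ∀ j ∈ T, Good s (f j)) :
    Good s (∑ j ∈ T, f j) := by
  classical
  induction T using Finset.induction_on with
  | empty => rw [Finset.sum_empty]; exact Good.zero
  | insert a T ha ih =>
    rw [Finset.sum_insert ha]
    exact (hf a (Finset.mem_insert_self _ _)).add
      (ih fun j hj => hf j (Finset.mem_insert_of_mem hj))

variable (I) in
/-- The ring: locally constant functions with value in the fibre at each point. -/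
def Rg : Subring (LocallyConstant (Xs I) L3) where
  carrier := {f | ∀ s, Good s (f s)}
  mul_mem' hf hg s := (hf s).mul (hg s)
  one_mem' _ := Good.one
  add_mem' hf hg s := (hf s).add (hg s)
  zero_mem' _ := Good.zero
  neg_mem' hf s := (hf s).neg

theorem rg_ext {f g : Rg I} (h : ∀ s, f.1 s = g.1 s) : f = g :=
  Subtype.ext (LocallyConstant.ext h)

/-- restriction to a clopen set -/
noncomputable def resC (C : Clopens (Xs I)) (f : Rg I) : Rg I :=
  ⟨f.1.indicator C.isClopen, fun s => by
    rw [LocallyConstant.indicator_apply]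
    by_cases h : s ∈ (C : Set (Xs I))
    · rw [Set.indicator_of_mem h]
      exact f.2 s
    · rw [Set.indicator_of_notMem h]
      exact Good.zero⟩

theorem resC_mem {C : Clopens (Xs I)} {f : Rg I} {s : Xs I} (h : s ∈ C) :
    (resC C f).1 s = f.1 s := by
  show (f.1.indicator C.isClopen) s = _
  rw [LocallyConstant.indicator_apply]
  exact Set.indicator_of_mem h _

theorem resC_not {C : Clopens (Xs I)} {f : Rg I} {s : Xs I} (h : s ∉ C) :
    (resC C f).1 s = 0 := by
  show (f.1.indicator C.isClopen) s = _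
  rw [LocallyConstant.indicator_apply]
  exact Set.indicator_of_notMem h _

/-- a constant function on a clopen set -/
noncomputable def cf (C : Clopens (Xs I)) (x : L3) (hx : ∀ s ∈ C, Good s x) : Rg I :=
  ⟨(LocallyConstant.const (Xs I) x).indicator C.isClopen, fun s => by
    rw [LocallyConstant.indicator_apply]
    by_cases h : s ∈ (C : Set (Xs I))
    · rw [Set.indicator_of_mem h]
      exact hx s h
    · rw [Set.indicator_of_notMem h]
      exact Good.zero⟩

theorem cf_mem {C : Clopens (Xs I)} {x : L3} {hx : ∀ s ∈ C, Good s x} {s : Xs I} (h : s ∈ C) :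
    (cf C x hx).1 s = x := by
  show ((LocallyConstant.const (Xs I) x).indicator C.isClopen) s = _
  rw [LocallyConstant.indicator_apply]
  exact Set.indicator_of_mem h _

theorem cf_not {C : Clopens (Xs I)} {x : L3} {hx : ∀ s ∈ C, Good s x} {s : Xs I} (h : s ∉ C) :
    (cf C x hx).1 s = 0 := by
  show ((LocallyConstant.const (Xs I) x).indicator C.isClopen) s = _
  rw [LocallyConstant.indicator_apply]
  exact Set.indicator_of_notMem h _

/-- constant functions on a clopen set -/
noncomputable def cfh {F : Type} [NonUnitalRing F] (C : Clopens (Xs I)) (g : F →ₙ+* L3)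
    (hg : ∀ s ∈ C, ∀ y, Good s (g y)) : F →ₙ+* Rg I where
  toFun y := cf C (g y) fun s hs => hg s hs y
  map_mul' x y := rg_ext fun s => by
    show _ = (cf C (g x) fun s hs => hg s hs x).1 s * (cf C (g y) fun s hs => hg s hs y).1 s
    by_cases h : s ∈ C
    · rw [cf_mem h, cf_mem h, cf_mem h, map_mul]
    · rw [cf_not h, cf_not h, zero_mul]
  map_zero' := rg_ext fun s => by
    by_cases h : s ∈ C
    · rw [cf_mem h, map_zero]
      rfl
    · rw [cf_not h]
      rfl
  map_add' x y := rg_ext fun s => by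
    show _ = (cf C (g x) fun s hs => hg s hs x).1 s + (cf C (g y) fun s hs => hg s hs y).1 s
    by_cases h : s ∈ C
    · rw [cf_mem h, cf_mem h, cf_mem h, map_add]
    · rw [cf_not h, cf_not h, cf_not h, zero_add]

theorem cfh_mem {F : Type} [NonUnitalRing F] {C : Clopens (Xs I)} {g : F →ₙ+* L3}
    {hg : ∀ s ∈ C, ∀ y, Good s (g y)} {s : Xs I} (h : s ∈ C) (y : F) :
    (cfh C g hg y).1 s = g y := cf_mem (hx := fun s hs => hg s hs y) h

variable (I) in
/-- the action of the clopen sets on the ring -/
noncomputable def cR : CRing (Xs I) (Rg I) where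
  π C :=
    { toFun := resC C
      map_mul' := fun f g => rg_ext fun s => by
        by_cases h : s ∈ C
        · rw [resC_mem h]
          show f.1 s * g.1 s = (resC C f).1 s * (resC C g).1 s
          rw [resC_mem h, resC_mem h]
        · rw [resC_not h]
          show 0 = (resC C f).1 s * (resC C g).1 s
          rw [resC_not h, zero_mul]
      map_zero' := rg_ext fun s => by
        by_cases h : s ∈ C
        · rw [resC_mem h]
        · rw [resC_not h]
          rfl
      map_add' := fun f g => rg_ext fun s => by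
        by_cases h : s ∈ C
        · rw [resC_mem h]
          show f.1 s + g.1 s = (resC C f).1 s + (resC C g).1 s
          rw [resC_mem h, resC_mem h]
        · rw [resC_not h]
          show 0 = (resC C f).1 s + (resC C g).1 s
          rw [resC_not h, resC_not h, zero_add] }
  top f := rg_ext fun s => resC_mem (C := ⊤) trivial
  bot f := rg_ext fun s => by
    show (resC ⊥ f).1 s = 0
    exact resC_not (C := ⊥) (fun h => h)
  inf C D f := rg_ext fun s => by
    show (resC C (resC D f)).1 s = (resC (C ⊓ D) f).1 s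
    by_cases h : s ∈ C
    · rw [resC_mem h]
      by_cases h' : s ∈ D
      · rw [resC_mem h', resC_mem (C := C ⊓ D) ⟨h, h'⟩]
      · rw [resC_not h', resC_not (C := C ⊓ D) (fun h2 => h' h2.2)]
    · rw [resC_not h, resC_not (C := C ⊓ D) (fun h2 => h h2.1)]
  compl C f := rg_ext fun s => by
    show (resC C f).1 s + (resC Cᶜ f).1 s = f.1 s
    by_cases h : s ∈ C
    · rw [resC_mem h, resC_not (C := Cᶜ) (fun h2 => h2 h), add_zero]
    · rw [resC_not h, resC_mem (C := Cᶜ) h, zero_add]
  orth C f g := rg_ext fun s => by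
    show (resC C f).1 s * (resC Cᶜ g).1 s = 0
    by_cases h : s ∈ C
    · rw [resC_not (C := Cᶜ) (fun h2 => h2 h), mul_zero]
    · rw [resC_not h, zero_mul]
  orth' C f g := rg_ext fun s => by
    show (resC Cᶜ f).1 s * (resC C g).1 s = 0
    by_cases h : s ∈ C
    · rw [resC_not (C := Cᶜ) (fun h2 => h2 h), zero_mul]
    · rw [resC_not h, mul_zero]

/-- near `s` at least the same types are active -/
theorem exists_nbhd (s : Xs I) : ∃ C : Clopens (Xs I), s ∈ C ∧
    ∀ s' ∈ C, ∀ k, act s k → act s' k := by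
  classical
  have hU : IsOpen {s' : Xs I | ∀ k, act s k → act s' k} := by
    have : {s' : Xs I | ∀ k, act s k → act s' k} =
        ⋂ k : Fin 19, {s' : Xs I | act s k → act s' k} := by
      ext s'
      simp
    rw [this]
    refine isOpen_iInter_of_finite fun k => ?_
    by_cases hk : act s k
    · have : {s' : Xs I | act s k → act s' k} = ⋃ x : I, {s' : Xs I | s' (k, x) = true} := by
        ext s'
        simp only [hk, true_imp_iff, Set.mem_ofPred_eq, Set.mem_iUnion]
        rfl
      rw [this]
      refine isOpen_iUnion fun x => ?_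
      exact (isOpen_discrete ({true} : Set Bool)).preimage
        (continuous_apply (k, x) : Continuous fun s' : Xs I => s' (k, x))
    · have : {s' : Xs I | act s k → act s' k} = Set.univ := by
        ext s'
        simp [hk]
      rw [this]
      exact isOpen_univ
  obtain ⟨V, hV, h1, h2⟩ := compact_exists_isClopen_in_isOpen hU (fun k hk => hk : s ∈ _)
  exact ⟨⟨V, hV⟩, h1, fun s' hs' => h2 hs'⟩

/-- a locally constant function is constant near `s` -/
theorem exists_const (s : Xs I) (f : Rg I) : ∃ C : Clopens (Xs I), s ∈ C ∧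
    ∀ s' ∈ C, f.1 s' = f.1 s :=
  ⟨⟨f.1 ⁻¹' {f.1 s}, f.1.isLocallyConstant.isClopen_fiber _⟩, rfl, fun _ h => h⟩

/-- near `s` the ring is a retract of `F` -/
def Retr (s : Xs I) (F : Type) [NonUnitalRing F] : Prop :=
  ∃ (α : Rg I →ₙ+* F) (β : F →ₙ+* Rg I), ∀ f, ∃ C : Clopens (Xs I), s ∈ C ∧
    (cR I).π C f = (cR I).π C (β (α f))

theorem finset_inf_mem {J : Type} (s : Xs I) (T : Finset J) (C : J → Clopens (Xs I))
    (h : ∀ j ∈ T, s ∈ C j) : s ∈ T.inf C := by
  classical
  induction T using Finset.induction_on with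
  | empty => rw [Finset.inf_empty]; trivial
  | insert a T ha ih =>
    rw [Finset.inf_insert]
    exact ⟨h a (Finset.mem_insert_self _ _), ih fun j hj => h j (Finset.mem_insert_of_mem hj)⟩

theorem retr_class {s : Xs I} {F : Type} [NonUnitalRing F] (α : Rg I →ₙ+* F) (β : F →ₙ+* Rg I)
    (h : ∀ f, ∃ C : Clopens (Xs I), s ∈ C ∧ (cR I).π C f = (cR I).π C (β (α f)))
    (c : VV (Rg I)) : ∃ C : Clopens (Xs I), s ∈ C ∧
      vmap ((cR I).π C) c = vmap ((cR I).π C) (vmap β (vmap α c)) := by
  classical
  obtain ⟨e, rfl⟩ := exists_mk c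
  choose C hC h1 using h
  refine ⟨(Finset.univ : Finset (Fin e.size × Fin e.size)).inf fun p => C (e.mat p.1 p.2),
    finset_inf_mem s _ _ (fun p _ => hC _), ?_⟩
  show VV.mk (imap _ e) = VV.mk (imap _ (imap β (imap α e)))
  congr 1
  show (⟨_, _, _⟩ : Idem (Rg I)) = ⟨_, _, _⟩
  congr 1
  apply Matrix.ext
  intro i j
  obtain ⟨D, hD⟩ : ∃ D, D = (Finset.univ : Finset (Fin e.size × Fin e.size)).inf
    fun p => C (e.mat p.1 p.2) := ⟨_, rfl⟩
  have hle : D ≤ C (e.mat i j) := by
    rw [hD]
    exact Finset.inf_le (f := fun p : Fin e.size × Fin e.size => C (e.mat p.1 p.2))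
      (Finset.mem_univ (i, j))
  show (cR I).π _ (e.mat i j) = (cR I).π _ (β (α (e.mat i j)))
  rw [← hD]
  have h2 := congrArg ((cR I).π D) (h1 (e.mat i j))
  rwa [(cR I).inf, (cR I).inf, inf_eq_left.2 hle] at h2

theorem retr_nc (s : Xs I) (h : ¬ ∀ k l, act s k → act s l → ek k * ek l = ek l * ek k) :
    ∃ (β : L3 →ₙ+* Rg I), ∀ f : Rg I, ∃ C : Clopens (Xs I), s ∈ C ∧
      (cR I).π C f = (cR I).π C (β (f.1 s)) := by
  classical
  obtain ⟨C, hC, h1⟩ := exists_nbhd s
  have hgood : ∀ s' ∈ C, ∀ x, Good s' x := fun s' hs' x h2 =>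
    absurd (fun k l hk hl => h2 k l (h1 s' hs' k hk) (h1 s' hs' l hl)) h
  refine ⟨cfh C (NonUnitalRingHom.id L3) (fun s' hs' y => hgood s' hs' y), fun f => ?_⟩
  obtain ⟨D, hD, h2⟩ := exists_const s f
  refine ⟨C ⊓ D, ⟨hC, hD⟩, rg_ext fun s' => ?_⟩
  show (resC (C ⊓ D) f).1 s' = (resC (C ⊓ D) _).1 s'
  by_cases h3 : s' ∈ C ⊓ D
  · rw [resC_mem h3, resC_mem h3, h2 s' h3.2, cfh_mem h3.1]
    rfl
  · rw [resC_not h3, resC_not h3]

open Classical in
/-- the atoms of the fibre at a point where the active idempotents commute -/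
noncomputable def zt (s : Xs I) : Option (Fin 19) → L3
  | some k => if act s k then ek k else 0
  | none => 1 - ∑ k, if act s k then ek k else 0

theorem zt_some (s : Xs I) {k : Fin 19} (hk : act s k) : zt s (some k) = ek k := by
  classical
  show (if act s k then ek k else 0) = ek k
  rw [if_pos hk]

theorem zt_some' (s : Xs I) {k : Fin 19} (hk : ¬ act s k) : zt s (some k) = 0 := by
  classical
  show (if act s k then ek k else 0) = 0
  rw [if_neg hk]

section comm
variable {s : Xs I} (h : ∀ k l, act s k → act s l → ek k * ek l = ek l * ek k)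
include h

theorem zt_ss (k l : Fin 19) (hkl : k ≠ l) : zt s (some k) * zt s (some l) = 0 := by
  by_cases hk : act s k
  · by_cases hl : act s l
    · rw [zt_some s hk, zt_some s hl]
      exact ek_comm hkl (h k l hk hl)
    · rw [zt_some' s hl, mul_zero]
  · rw [zt_some' s hk, zero_mul]

omit h in
theorem zt_sq (k : Fin 19) : zt s (some k) * zt s (some k) = zt s (some k) := by
  by_cases hk : act s k
  · rw [zt_some s hk]
    exact ek_idem k
  · rw [zt_some' s hk, mul_zero]

omit h in
theorem zt_none : zt s none = 1 - ∑ k, zt s (some k) := rfl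

theorem zt_sn (k : Fin 19) : zt s (some k) * zt s none = 0 := by
  rw [zt_none, mul_sub, mul_one, Finset.mul_sum, Finset.sum_eq_single k]
  · rw [zt_sq, sub_self]
  · intro l _ hl
    exact zt_ss h k l hl.symm
  · intro h
    exact absurd (Finset.mem_univ _) h

theorem zt_ns (k : Fin 19) : zt s none * zt s (some k) = 0 := by
  rw [zt_none, sub_mul, one_mul, Finset.sum_mul, Finset.sum_eq_single k]
  · rw [zt_sq, sub_self]
  · intro l _ hl
    exact zt_ss h l k hl
  · intro h
    exact absurd (Finset.mem_univ _) h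

theorem zt_nn : zt s none * zt s none = zt s none := by
  have h1 : zt s none * zt s none = (1 - ∑ k, zt s (some k)) * zt s none := rfl
  rw [h1, sub_mul, one_mul, Finset.sum_mul, Finset.sum_eq_zero (fun k _ => zt_sn h k), sub_zero]

theorem zt_orth (i j : Option (Fin 19)) (hij : i ≠ j) : zt s i * zt s j = 0 := by
  rcases i with _ | k
  · rcases j with _ | l
    · exact absurd rfl hij
    · exact zt_ns h l
  · rcases j with _ | l
    · exact zt_sn h k
    · exact zt_ss h k l (fun hkl => hij (by rw [hkl]))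

theorem zt_idem (i : Option (Fin 19)) : zt s i * zt s i = zt s i := by
  rcases i with _ | k
  · exact zt_nn h
  · exact zt_sq k

omit h in
theorem zt_sum : ∑ j, zt s j = 1 := by
  rw [Fintype.sum_option, zt_none]
  abel

omit h in
theorem zt_good (j : Option (Fin 19)) : Good s (zt s j) := by
  classical
  have h1 : ∀ k, Good s (zt s (some k)) := by
    intro k
    by_cases hk : act s k
    · rw [zt_some s hk]
      exact Good.ek hk
    · rw [zt_some' s hk]
      exact Good.zero
  rcases j with _ | k
  · rw [zt_none]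
    exact Good.one.sub (Good.sum _ _ fun k _ => h1 k)
  · exact h1 k

theorem good_comm {x : L3} (hx : Good s x) (j : Option (Fin 19)) : zt s j * x = x * zt s j := by
  apply hx h
  intro k hk
  by_cases hj : j = some k
  · rw [hj, zt_some s hk]
  · have h1 := zt_orth h j (some k) hj
    have h2 := zt_orth h (some k) j (Ne.symm hj)
    rw [zt_some s hk] at h1 h2
    rw [h1, h2]

theorem good_coef {x : L3} (hx : Good s x) (j : Option (Fin 19)) :
    ∃ c : ZMod 2, x * zt s j = c • zt s j := by
  rcases j with _ | k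
  · refine scalar_corner _ _ (good_comm h hx none).symm fun y => ?_
    refine (hx h _ ?_).symm
    intro k hk
    have h1 := zt_sn h k
    have h2 := zt_ns h k
    rw [zt_some s hk] at h1 h2
    rw [mul_assoc, h2, mul_zero, ← mul_assoc, ← mul_assoc, h1, zero_mul, zero_mul]
  · by_cases hk : act s k
    · have h1 := good_comm h hx (some k)
      rw [zt_some s hk] at h1 ⊢
      refine ⟨vr k ⬝ᵥ x.mulVec (vc k), ?_⟩
      have h2 : x * ek k = ek k * x * ek k := by
        rw [h1, mul_assoc, ek_idem]
      rw [h2]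
      unfold ek
      rw [Matrix.vecMulVec_mul, Matrix.vecMulVec_mul_vecMulVec]
      rw [← Matrix.dotProduct_mulVec]
      ext i j
      simp [Matrix.vecMulVec_apply]
      ring
    · rw [zt_some' s hk]
      exact ⟨0, by rw [mul_zero, smul_zero]⟩

end comm

/-- the characters of the fibre at a point where the active idempotents commute -/
noncomputable def alC {s : Xs I} (h : ∀ k l, act s k → act s l → ek k * ek l = ek l * ek k) :
    Rg I →ₙ+* (Option (Fin 19) → ZMod 2) where
  toFun f j := coef (zt s j) (f.1 s)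
  map_mul' f g := by
    funext j
    exact coef_mul (good_coef h (f.2 s) j) (good_coef h (g.2 s) j)
  map_zero' := by
    funext j
    exact coef_zero' _
  map_add' f g := by
    funext j
    exact coef_add (good_coef h (f.2 s) j) (good_coef h (g.2 s) j)

theorem retr_c (s : Xs I) (h : ∀ k l, act s k → act s l → ek k * ek l = ek l * ek k) :
    ∃ (β : (Option (Fin 19) → ZMod 2) →ₙ+* Rg I), ∀ f : Rg I, ∃ C : Clopens (Xs I), s ∈ C ∧
      (cR I).π C f = (cR I).π C (β (alC h f)) := by
  classical
  obtain ⟨C, hC, h1⟩ := exists_nbhd s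
  have hgood : ∀ s' ∈ C, ∀ y : Option (Fin 19) → ZMod 2, Good s' (∑ j, y j • zt s j) := by
    intro s' hs' y
    apply Good.mono (h1 s' hs')
    exact Good.sum _ _ fun j _ => (zt_good j).smul _
  have hmul : ∀ x y : Option (Fin 19) → ZMod 2, (∑ j, (x * y) j • zt s j) =
      (∑ j, x j • zt s j) * ∑ j, y j • zt s j := by
    intro x y
    rw [Finset.sum_mul]
    refine Finset.sum_congr rfl fun j _ => ?_
    rw [Finset.mul_sum, Finset.sum_eq_single j]
    · rw [smul_mul_smul_comm, zt_idem h, Pi.mul_apply]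
    · intro i _ hi
      rw [smul_mul_smul_comm, zt_orth h j i (Ne.symm hi), smul_zero]
    · intro h
      exact absurd (Finset.mem_univ _) h
  refine ⟨cfh C
    { toFun := fun x => ∑ j, x j • zt s j
      map_mul' := hmul
      map_zero' := by simp
      map_add' := fun x y => by
        rw [← Finset.sum_add_distrib]
        exact Finset.sum_congr rfl fun j _ => by rw [Pi.add_apply, add_smul] }
    (fun s' hs' y => hgood s' hs' y), fun f => ?_⟩
  obtain ⟨D, hD, h2⟩ := exists_const s f
  have hf : f.1 s = ∑ j, coef (zt s j) (f.1 s) • zt s j := by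
    conv_lhs => rw [← mul_one (f.1 s), ← zt_sum (s := s), Finset.mul_sum]
    exact Finset.sum_congr rfl fun j _ => coef_spec (good_coef h (f.2 s) j)
  refine ⟨C ⊓ D, ⟨hC, hD⟩, rg_ext fun s' => ?_⟩
  show (resC (C ⊓ D) f).1 s' = (resC (C ⊓ D) _).1 s'
  by_cases h3 : s' ∈ C ⊓ D
  · rw [resC_mem h3, resC_mem h3, h2 s' h3.2, cfh_mem h3.1]
    exact hf
  · rw [resC_not h3, resC_not h3]

/-- evaluation at a point -/
def evR (s : Xs I) : Rg I →ₙ+* L3 where
  toFun f := f.1 s
  map_mul' _ _ := rfl
  map_zero' := rfl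
  map_add' _ _ := rfl

theorem rg_locFree (s : Xs I) : (cR I).toBMon.LocFree s := by
  by_cases h : ∀ k l, act s k → act s l → ek k * ek l = ek l * ek k
  · obtain ⟨β, hβ⟩ := retr_c s h
    exact (cR I).locFree s (splR_pi fun _ => splR_field (ZMod 2)) (alC h) β
      (retr_class (alC h) β hβ)
  · obtain ⟨β, hβ⟩ := retr_nc s h
    exact (cR I).locFree s (splR_mt (ZMod 2) 2) (evR s) β (retr_class (evR s) β hβ)

/-- `V` of the ring is the positive cone of a dimension group -/
theorem rg_dimCone : DimCone (VV (Rg I)) :=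
  (cR I).toBMon.dimCone rg_locFree

end

end Pool.Agent.H6.NK
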