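import Pool.Agent.H6.NK.Sys
import Pool.Agent.H6.NK.LemP
import Pool.Agent.H6.NK.Free
import Pool.Graph.R_seed8.H399R6.NKProj

set_option autoImplicit false

/-!
Projections in a corner of a unital C*-algebra of real rank zero whose classes lie in a monoid on
which clopen sets act.
-/

namespace Pool.Agent.H6.NK

open Pool.Agent.H494R3.NK Pool.Agent.Y78.NK TopologicalSpace

universe u v

/-- idempotents under `p` -/
def IsP {U : Type u} [Mul U] (p q : U) : Prop := q * q = q ∧ p * q = q ∧ q * p = q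

/-- classes of the idempotents under `p` -/
structure Cls (U : Type u) [CStarAlgebra U] (M : Type v) [AddCommMonoid M] (p : U) where
  cls : U → M
  pp : p * p = p
  ps : star p = p
  le : ∀ f q x y, IsP p f → IsP p q → f = x * q * y → Le (cls f) (cls q)
  add : ∀ f g, IsP p f → IsP p g → f * g = 0 → g * f = 0 → cls (f + g) = cls f + cls g
  zero : ∀ f, IsP p f → cls f = 0 → f = 0
  split : ∀ q, IsP p q → ∀ x y, cls q = x + y → ∃ f, IsP p f ∧ q * f = f ∧ f * q = f ∧
    cls f = x ∧ cls (q - f) = y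
  eqv : ∀ f g, IsP p f → IsP p g → cls f = cls g → ∃ x y, x * y = f ∧ y * x = g

section
variable {I : Type} {M : Type v} [AddCommMonoid M] (N : NSys I M)

theorem NSys.le_zero {C : Clopens (Xs I)} {c x y : M} (h1 : Le c (N.B.ρ C x))
    (h2 : Le c (N.B.ρ Cᶜ y)) : c = 0 := by
  obtain ⟨d, hd⟩ := h1
  obtain ⟨e, he⟩ := h2
  have e1 : N.B.ρ Cᶜ c = 0 := by
    have := congrArg (N.B.ρ Cᶜ) hd
    rw [map_add, N.B.disj disjoint_compl_left] at this
    exact N.dim.conical _ _ this
  have e2 : N.B.ρ C c = 0 := by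
    have := congrArg (N.B.ρ C) he
    rw [map_add, N.B.disj disjoint_compl_right] at this
    exact N.dim.conical _ _ this
  rw [← N.B.compl C c, e1, e2, add_zero]

include N in
theorem NSys.le_antisymm {a b : M} (h1 : Le a b) (h2 : Le b a) : a = b := by
  obtain ⟨c, rfl⟩ := h1
  obtain ⟨d, hd⟩ := h2
  have h3 : c + d = 0 := by
    apply N.dim.cancel _ _ a
    rw [zero_add, add_comm, ← add_assoc, hd]
  rw [N.dim.conical c d h3, add_zero]

variable {U : Type u} [CStarAlgebra U] {p : U}

/-- the projections of the clopen sets -/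
structure Cen (c : Cls U M p) (z : Clopens (Xs I) → U) : Prop where
  isP : ∀ C, IsP p (z C)
  sa : ∀ C, star (z C) = z C
  comm : ∀ C x, p * x = x → x * p = x → z C * x = x * z C
  cls : ∀ C, c.cls (z C) = N.B.ρ C N.u
  le : ∀ C D, C ≤ D → z C * z D = z C
  cut : ∀ C q, IsP p q → c.cls (z C * q) = N.B.ρ C (c.cls q)
  top : z ⊤ = p

variable (hU : FS U) (c : Cls U M p) (hu : c.cls p = N.u)

include c in
theorem Cls.isP_self : IsP p p := ⟨c.pp, c.pp, c.pp⟩

theorem isP_of_star (hp : star p = p) {f : U} (h1 : f * f = f) (h2 : star f = f)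
    (h3 : p * f = f) : IsP p f :=
  ⟨h1, h3, by
    have := congrArg star h3
    rwa [star_mul, h2, hp] at this⟩

include hU in
theorem Cls.orth (z z' : U) (hz : IsP p z) (hz' : IsP p z')
    (h : ∀ d, Le d (c.cls z) → Le d (c.cls z') → d = 0) (x : U) : z * x * z' = 0 := by
  have key : ∀ ε : ℝ, 0 < ε → ‖z * x * z'‖ ≤ ε := by
    intro ε hε
    obtain ⟨w, h1, h2, h3⟩ := lemP hU (z * x * z') ε hε
    have hf : IsP p (z * x * z' * w) := by
      refine isP_of_star c.ps h1 h2 ?_
      rw [← mul_assoc, ← mul_assoc, ← mul_assoc, hz.2.1]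
    have h4 : c.cls (z * x * z' * w) = 0 := by
      apply h
      · apply c.le _ z 1 (x * z' * w) hf hz
        simp only [one_mul, mul_assoc]
      · apply c.le _ z' (z * x) w hf hz'
        simp only [mul_assoc]
    have h5 := c.zero _ hf h4
    rwa [h5, sub_zero, one_mul] at h3
  have : ‖z * x * z'‖ ≤ 0 := le_of_forall_pos_le_add fun ε hε => by
    rw [zero_add]
    exact key ε hε
  exact norm_le_zero_iff.1 this

theorem isP_sub {q f : U} (hq : IsP p q) (hf : IsP p f) (h1 : q * f = f) (h2 : f * q = f) :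
    IsP p (q - f) := by
  refine ⟨?_, ?_, ?_⟩
  · rw [mul_sub, sub_mul, sub_mul, hq.1, h1, h2, hf.1]
    abel
  · rw [mul_sub, hq.2.1, hf.2.1]
  · rw [sub_mul, hq.2.2, hf.2.2]

theorem isP_mul {z q : U} (hz : IsP p z) (hq : IsP p q) (h : z * q = q * z) :
    IsP p (z * q) := by
  refine ⟨?_, ?_, ?_⟩
  · rw [mul_assoc, ← mul_assoc q, ← h, mul_assoc z q q, hq.1, ← mul_assoc, hz.1]
  · rw [← mul_assoc, hz.2.1]
  · rw [mul_assoc, hq.2.2]

include hU hu in
theorem exists_cen : ∃ z, Cen N c z := by
  have h1 : ∀ C : Clopens (Xs I), ∃ z, IsP p z ∧ c.cls z = N.B.ρ C N.u ∧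
      c.cls (p - z) = N.B.ρ Cᶜ N.u := by
    intro C
    obtain ⟨f, h1, _, _, h2, h3⟩ := c.split p c.isP_self (N.B.ρ C N.u) (N.B.ρ Cᶜ N.u) (by
      rw [hu, N.B.compl])
    exact ⟨f, h1, h2, h3⟩
  choose z hz hc hc' using h1
  have hz' : ∀ C, IsP p (p - z C) := fun C =>
    isP_sub c.isP_self (hz C) (hz C).2.1 (hz C).2.2
  have o1 : ∀ C D : Clopens (Xs I), C ≤ D → ∀ x, z C * x * (p - z D) = 0 := by
    intro C D hCD x
    refine c.orth hU _ _ (hz C) (hz' D) ?_ x
    intro d h1 h2
    rw [hc] at h1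
    rw [hc'] at h2
    rw [← N.B.le' hCD] at h1
    exact N.le_zero h1 h2
  have o2 : ∀ C x, (p - z C) * x * z C = 0 := by
    intro C x
    refine c.orth hU _ _ (hz' C) (hz C) ?_ x
    intro d h1 h2
    rw [hc'] at h1
    rw [hc] at h2
    exact N.le_zero h2 h1
  have hcomm : ∀ C x, p * x = x → x * p = x → z C * x = x * z C := by
    intro C x h1 h2
    have e1 := o1 C C le_rfl x
    have e2 := o2 C x
    rw [mul_sub, mul_assoc, h2, sub_eq_zero] at e1
    rw [sub_mul, sub_mul, h1, sub_eq_zero] at e2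
    rw [e1, e2]
  have hsa : ∀ C, star (z C) = z C := by
    intro C
    have hp1 : p * star (z C) = star (z C) := by
      have := congrArg star (hz C).2.2
      rwa [star_mul, c.ps] at this
    have e1 := o1 C C le_rfl (star (z C))
    have e2 := o2 C (star (z C))
    have hp2 : star (z C) * p = star (z C) := by
      have := congrArg star (hz C).2.1
      rwa [star_mul, c.ps] at this
    rw [mul_sub, mul_assoc (z C), hp2, sub_eq_zero] at e1
    rw [sub_mul, sub_mul, hp1, sub_eq_zero] at e2
    -- `z z* = z z* z = z* z`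
    have e3 : star (z C) * z C = z C * star (z C) := by rw [e2, ← e1]
    obtain ⟨h, hh⟩ : ∃ h, h = star (z C) * z C := ⟨_, rfl⟩
    have hs : star h = h := by rw [hh, star_mul, star_star]
    have hz1 : h * z C = h := by rw [hh, e3, ← e1]
    have hz2 : star (z C) * h = h := by
      have := congrArg star hz1
      rwa [star_mul, hs] at this
    have hz3 : z C * h = h := by
      conv_rhs => rw [hh, e2]
      rw [hh, mul_assoc]
    have hz4 : h * star (z C) = h := by
      have := congrArg star hz3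
      rwa [star_mul, hs] at this
    have hhh : h * h = h := by
      have hh2 : h = z C * star (z C) := by rw [hh, e3]
      calc h * h = z C * star (z C) * h := by rw [← hh2]
        _ = h := by rw [mul_assoc, hz2, hz3]
    have h0 : star (z C - h) * (z C - h) = 0 := by
      rw [star_sub, hs, mul_sub, sub_mul, sub_mul, ← hh, hz1, hz2, hhh]
      abel
    have h1 : z C - h = 0 := (CStarRing.star_mul_self_eq_zero_iff _).1 h0
    rw [sub_eq_zero] at h1
    rw [h1, hs]
  have hle : ∀ C D, C ≤ D → z C * z D = z C := by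
    intro C D hCD
    have := o1 C D hCD p
    rw [(hz C).2.2, mul_sub, (hz C).2.2, sub_eq_zero] at this
    exact this.symm
  have hcut : ∀ C q, IsP p q → c.cls (z C * q) = N.B.ρ C (c.cls q) := by
    intro C q hq
    have hzq := hcomm C q hq.2.1 hq.2.2
    have hzq' : (p - z C) * q = q * (p - z C) := by rw [sub_mul, mul_sub, hq.2.1, hq.2.2, hzq]
    have p1 := isP_mul (hz C) hq hzq
    have p2 := isP_mul (hz' C) hq hzq'
    have hsum : q = z C * q + (p - z C) * q := by
      rw [sub_mul, hq.2.1]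
      abel
    have zz1 : z C * (p - z C) = 0 := by rw [mul_sub, (hz C).2.2, (hz C).1, sub_self]
    have zz2 : (p - z C) * z C = 0 := by rw [sub_mul, (hz C).2.1, (hz C).1, sub_self]
    have a1 := c.add _ _ p1 p2 (by
      rw [mul_assoc, ← mul_assoc q, ← hzq', mul_assoc (p - z C), ← mul_assoc (z C), zz1,
        zero_mul]) (by
      rw [mul_assoc, ← mul_assoc q, ← hzq, mul_assoc (z C), ← mul_assoc (p - z C), zz2,
        zero_mul])
    rw [← hsum] at a1
    have l1 : Le (c.cls (z C * q)) (N.B.ρ C N.u) := by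
      rw [← hc]
      exact c.le _ (z C) 1 q p1 (hz C) (by rw [one_mul])
    have l2 : Le (c.cls ((p - z C) * q)) (N.B.ρ Cᶜ N.u) := by
      rw [← hc']
      exact c.le _ (p - z C) 1 q p2 (hz' C) (by rw [one_mul])
    have r1 : N.B.ρ Cᶜ (c.cls (z C * q)) = 0 := by
      obtain ⟨d, hd⟩ := l1
      have := congrArg (N.B.ρ Cᶜ) hd
      rw [map_add, N.B.disj disjoint_compl_left] at this
      exact N.dim.conical _ _ this
    have r2 : N.B.ρ C (c.cls ((p - z C) * q)) = 0 := by
      obtain ⟨d, hd⟩ := l2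
      have := congrArg (N.B.ρ C) hd
      rw [map_add, N.B.disj disjoint_compl_right] at this
      exact N.dim.conical _ _ this
    have r3 := N.B.compl C (c.cls (z C * q))
    rw [r1, add_zero] at r3
    rw [a1, map_add, r2, add_zero, r3]
  refine ⟨z, hz, hsa, hcomm, hc, hle, hcut, ?_⟩
  -- the complement of `z ⊤` has class zero
  have h1 : c.cls (p - z ⊤) = 0 := by
    rw [hc', compl_top, N.B.bot]
  have h2 := c.zero _ (hz' ⊤) h1
  rw [sub_eq_zero] at h2
  exact h2.symm

end

end Pool.Agent.H6.NK
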