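import Pool.Agent.H6.NK.Loc2

set_option autoImplicit false

/-!
The contradiction.
-/

namespace Pool.Agent.H6.NK

open Pool.Agent.H494R3.NK Pool.Agent.Y78.NK TopologicalSpace

universe u v

theorem no_hom' {P : Type*} (s : Setoid P) (R : P → P → Prop)
    (hc : ∀ a a' b b', s.r a a' → s.r b b' → R a b → R a' b') (hs : ∀ a b, R a b → R b a)
    (hi : ∀ a, ¬ R a a)
    (h4 : ∀ a b c d, R a b → R b c → R c d → R d a → s.r a c ∨ s.r b d) (f : Fin 19 → P)
    (h : ∀ k l, Orth k l → R (f k) (f l)) : False := by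
  obtain ⟨R', hR'⟩ : ∃ R' : Quotient s → Quotient s → Prop, ∀ a b : P,
      R' (Quotient.mk s a) (Quotient.mk s b) ↔ R a b := by
    refine ⟨Quotient.lift₂ (s₁ := s) (s₂ := s) R ?_, fun _ _ => Iff.rfl⟩
    intro a b a' b' h1 h2
    exact propext ⟨hc _ _ _ _ h1 h2, hc _ _ _ _ (s.symm h1) (s.symm h2)⟩
  refine no_hom R' ?_ ?_ ?_ (fun k => Quotient.mk s (f k)) ?_
  · rintro ⟨a⟩ ⟨b⟩ h
    exact (hR' b a).2 (hs _ _ ((hR' a b).1 h))
  · rintro ⟨a⟩ h
    exact hi a ((hR' a a).1 h)
  · rintro ⟨a⟩ ⟨b⟩ ⟨c⟩ ⟨d⟩ h1 h2 h3 h4'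
    rcases h4 a b c d ((hR' a b).1 h1) ((hR' b c).1 h2) ((hR' c d).1 h3) ((hR' d a).1 h4')
      with h | h
    · exact Or.inl (Quotient.sound h)
    · exact Or.inr (Quotient.sound h)
  · intro k l hkl
    exact (hR' _ _).2 (h k l hkl)

/-- a continuous function to the natural numbers depends on finitely many coordinates -/
theorem fin_dep' {J : Type} (h : (J → Bool) → ℕ) (hc : Continuous h) : ∃ S : Finset J,
    ∀ t t' : J → Bool, (∀ i ∈ S, t i = t' i) → h t = h t' := by
  classical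
  have key : ∃ S : Finset J, ∀ t ∈ (Set.univ : Set (J → Bool)), ∀ t' : J → Bool,
      (∀ i ∈ S, t i = t' i) → h t = h t' := by
    refine IsCompact.induction_on (p := fun s : Set (J → Bool) => ∃ S : Finset J, ∀ t ∈ s,
      ∀ t' : J → Bool, (∀ i ∈ S, t i = t' i) → h t = h t') isCompact_univ ?_ ?_ ?_ ?_
    · exact ⟨∅, fun t ht => ht.elim⟩
    · rintro s s' hss ⟨S, hS⟩
      exact ⟨S, fun t ht => hS t (hss ht)⟩
    · rintro s s' ⟨S, hS⟩ ⟨S', hS'⟩
      refine ⟨S ∪ S', fun t ht t' htt => ?_⟩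
      rcases ht with ht | ht
      · exact hS t ht t' fun i hi => htt i (Finset.mem_union_left _ hi)
      · exact hS' t ht t' fun i hi => htt i (Finset.mem_union_right _ hi)
    · intro t₀ _
      have hopen : IsOpen {t | h t = h t₀} := by
        have := (isOpen_discrete {h t₀}).preimage hc
        exact this
      obtain ⟨S, u, hu, hsub⟩ := isOpen_pi_iff.1 hopen t₀ rfl
      refine ⟨(S : Set J).pi u, ?_, S, ?_⟩
      · rw [nhdsWithin_univ]
        refine (isOpen_set_pi S.finite_toSet fun i hi => (hu i hi).1).mem_nhds ?_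
        exact fun i hi => (hu i hi).2
      · intro t ht t' htt
        have h1 : h t = h t₀ := hsub ht
        have h2 : h t' = h t₀ := hsub (fun i hi => by rw [← htt i hi]; exact ht i hi)
        rw [h1, h2]
  obtain ⟨S, hS⟩ := key
  exact ⟨S, fun t t' => hS t (Set.mem_univ t) t'⟩

theorem four_dep (K : Fin 4 → Fin 3 → ℂ) : ∃ q : Fin 4 → ℂ, q ≠ 0 ∧ ∀ j, ∑ i, q i * K i j = 0 := by
  have h : LinearMap.ker (Matrix.toLin' (Matrix.of fun (j : Fin 3) (i : Fin 4) => K i j)) ≠ ⊥ := by
    apply LinearMap.ker_ne_bot_of_finrank_lt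
    simp
  obtain ⟨q, hq, hq0⟩ := (Submodule.ne_bot_iff _).1 h
  refine ⟨q, hq0, fun j => ?_⟩
  have h1 : (Matrix.toLin' (Matrix.of fun (j : Fin 3) (i : Fin 4) => K i j)) q = 0 := hq
  have h2 := congrFun h1 j
  rw [Matrix.toLin'_apply] at h2
  have h3 : ∑ i, K i j * q i = 0 := h2
  rw [← h3]
  exact Finset.sum_congr rfl fun i _ => mul_comm _ _

section
variable {I : Type} {M : Type v} [AddCommMonoid M] {N : NSys I M}
variable {U : Type u} [CStarAlgebra U] {p : U} {c : Cls U M p} {z : Clopens (Xs I) → U}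

/-- projections with prescribed classes -/
theorem exists_pr (hu : c.cls p = N.u) (i : Fin 19 × I) : ∃ q, IsP p q ∧ star q = q ∧
    c.cls q = N.a i := by
  obtain ⟨f, hf, _, _, h1, _⟩ := c.split p c.isP_self (N.a i) (N.a' i) (by rw [hu, N.ha])
  obtain ⟨q, h2, h3, h4, h5⟩ := Pool.Agent.H399R6.NKProj.taskProj U f hf.1
  have hq : IsP p q := isP_of_star c.ps h2 h3 (by rw [← h5, ← mul_assoc, hf.2.1])
  refine ⟨q, hq, h3, ?_⟩
  rw [← h1]
  exact N.le_antisymm (c.le q f 1 q hq hf (by rw [one_mul, h5]))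
    (c.le f q 1 f hf hq (by rw [one_mul, h4]))

/-- linear dependence near the point -/
theorem exists_dep (hz : Cen N c z) {t : Xs I} (hU : FS U) (ht : ∀ k, act t k) {g : U}
    (hg : IsP p g) (hgs : star g = g) (hr : N.r t (c.cls g) = 1) {C : Clopens (Xs I)}
    (hC : t ∈ C) (X Y : Fin 3 → U) (hXY : z C = ∑ j, X j * Y j) (hX : ∀ j, p * X j = X j)
    (hX' : ∀ j, X j * p = X j) (hY : ∀ j, g * Y j = Y j) (x : Fin 4 → U)
    (hx : ∀ i, x i * g = x i) : ∃ q : Fin 4 → ℂ, q ≠ 0 ∧ Sm z t (∑ i, q i • x i) := by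
  have h1 : ∀ i j, ∃ a : ℂ, Sm z t (Y j * x i - a • g) := fun i j =>
    corner_scalar hz hU ht hg hgs hr (by rw [← mul_assoc, hY]) (by rw [mul_assoc, hx])
  choose K hK using h1
  obtain ⟨q, hq, hq'⟩ := four_dep K
  refine ⟨q, hq, Sm.of_cut hz hC ?_⟩
  rw [hXY, Finset.sum_mul]
  refine Sm.sum hz _ _ fun j _ => ?_
  rw [mul_assoc]
  refine Sm.mul_left hz ?_ (hX j) (hX' j)
  have h2 : Y j * ∑ i, q i • x i = ∑ i, q i • (Y j * x i - K i j • g) := by
    rw [Finset.mul_sum]
    have h3 : ∑ i, q i • (Y j * x i - K i j • g) =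
        (∑ i, Y j * (q i • x i)) - (∑ i, q i * K i j) • g := by
      rw [Finset.sum_smul, ← Finset.sum_sub_distrib]
      refine Finset.sum_congr rfl fun i _ => ?_
      rw [smul_sub, smul_smul, mul_smul_comm]
    rw [h3, hq', zero_smul, sub_zero]
  rw [h2]
  exact Sm.sum hz _ _ fun i _ => (hK i j).smul _

/-- the configuration near the point is impossible -/
theorem no_conf (hz : Cen N c z) {t : Xs I} (hU : FS U) (ht : ∀ k, act t k) {g : U}
    (hg : IsP p g) (hgs : star g = g) (hr : N.r t (c.cls g) = 1) {C : Clopens (Xs I)}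
    (hC : t ∈ C) (X Y : Fin 3 → U) (hXY : z C = ∑ j, X j * Y j) (hX : ∀ j, p * X j = X j)
    (hX' : ∀ j, X j * p = X j) (hY : ∀ j, g * Y j = Y j) (ξ : Fin 19 → U)
    (h1 : ∀ k, p * ξ k = ξ k) (h2 : ∀ k, ξ k * g = ξ k) (h3 : ∀ k, ¬ Sm z t (ξ k))
    (h4 : ∀ k l, Orth k l → Sm z t (star (ξ k) * ξ l)) : False := by
  have hxp : ∀ x : U, x * g = x → x * p = x := by
    intro x hx
    rw [← hx, mul_assoc, hg.2.2]
  have hps := c.ps
  have hst : ∀ x : U, p * x = x → star x * p = star x := by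
    intro x hx
    have := congrArg star hx
    rwa [star_mul, hps] at this
  have hst' : ∀ x : U, x * p = x → p * star x = star x := by
    intro x hx
    have := congrArg star hx
    rwa [star_mul, hps] at this
  let L := {x : U // p * x = x ∧ x * g = x ∧ ¬ Sm z t x}
  let s : Setoid L :=
    { r := fun a b => ∃ α β : ℂ, α ≠ 0 ∧ β ≠ 0 ∧ Sm z t (α • a.1 + β • b.1)
      iseqv :=
        { refl := fun a => ⟨1, -1, one_ne_zero, by norm_num, by
            rw [one_smul, neg_smul, one_smul, add_neg_cancel]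
            exact Sm.zero⟩
          symm := by
            rintro a b ⟨α, β, hα, hβ, h⟩
            exact ⟨β, α, hβ, hα, by rwa [add_comm]⟩
          trans := by
            rintro a b d ⟨α, β, hα, hβ, h⟩ ⟨γ, δ, hγ, hδ, h'⟩
            refine ⟨γ * α, -(β * δ), mul_ne_zero hγ hα, neg_ne_zero.2 (mul_ne_zero hβ hδ), ?_⟩
            have := Sm.sub hz (h.smul γ) (h'.smul β)
            have e : γ • (α • a.1 + β • b.1) - β • (γ • b.1 + δ • d.1) =
                (γ * α) • a.1 + (-(β * δ)) • d.1 := by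
              rw [smul_add, smul_add, smul_smul, smul_smul, smul_smul, smul_smul, neg_smul,
                mul_comm β γ]
              abel
            rwa [e] at this } }
  -- symmetry
  have hsymm : ∀ a b : L, Sm z t (star a.1 * b.1) → Sm z t (star b.1 * a.1) := by
    intro a b h
    have e1 : p * (star a.1 * b.1) = star a.1 * b.1 := by
      rw [← mul_assoc, hst' _ (hxp _ a.2.2.1)]
    have e2 : (star a.1 * b.1) * p = star a.1 * b.1 := by rw [mul_assoc, hxp _ b.2.2.1]
    have := Sm.star' hz h e1 e2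
    rwa [star_mul, star_star] at this
  -- compatibility on the right
  have hright : ∀ a b b' : L, s.r b b' → Sm z t (star a.1 * b.1) →
      Sm z t (star a.1 * b'.1) := by
    rintro a b b' ⟨α, β, hα, hβ, h⟩ h'
    have e1 := Sm.mul_left hz h (hst' _ (hxp _ a.2.2.1)) (hst _ a.2.1)
    have e2 := Sm.sub hz e1 (h'.smul α)
    have e3 : star a.1 * (α • b.1 + β • b'.1) - α • (star a.1 * b.1) =
        β • (star a.1 * b'.1) := by
      rw [mul_add, mul_smul_comm, mul_smul_comm]
      abel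
    rw [e3] at e2
    exact e2.of_smul hβ
  refine no_hom' s (fun a b => Sm z t (star a.1 * b.1)) ?_ hsymm ?_ ?_
    (fun k => ⟨ξ k, h1 k, h2 k, h3 k⟩) h4
  · intro a a' b b' ha hb h
    have e1 := hright a b b' hb h
    have e2 := hsymm _ _ e1
    have e3 := hright b' a a' ha e2
    exact hsymm _ _ e3
  · intro a h
    exact a.2.2.2 (Sm.of_star_mul hz h a.2.1 (hxp _ a.2.2.1))
  · intro a b d e hab hbd hde hea
    obtain ⟨q, hq, hsm⟩ := exists_dep hz hU ht hg hgs hr hC X Y hXY hX hX' hY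
      ![a.1, d.1, b.1, e.1] (by
        intro i
        fin_cases i
        · exact a.2.2.1
        · exact d.2.2.1
        · exact b.2.2.1
        · exact e.2.2.1)
    rw [Fin.sum_univ_four] at hsm
    have hsm' : Sm z t ((q 0 • a.1 + q 1 • d.1) + (q 2 • b.1 + q 3 • e.1)) := by
      have : q 0 • (![a.1, d.1, b.1, e.1] : Fin 4 → U) 0 + q 1 • (![a.1, d.1, b.1, e.1] : Fin 4 → U) 1 +
          q 2 • (![a.1, d.1, b.1, e.1] : Fin 4 → U) 2 + q 3 • (![a.1, d.1, b.1, e.1] : Fin 4 → U) 3 =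
          (q 0 • a.1 + q 1 • d.1) + (q 2 • b.1 + q 3 • e.1) := by
        simp only [Matrix.cons_val]
        abel
      rwa [this] at hsm
    obtain ⟨h, hh⟩ : ∃ h, h = q 0 • a.1 + q 1 • d.1 := ⟨_, rfl⟩
    have hph : p * h = h := by
      rw [hh, mul_add, mul_smul_comm, mul_smul_comm, a.2.1, d.2.1]
    have hhg : h * g = h := by
      rw [hh, add_mul, smul_mul_assoc, smul_mul_assoc, a.2.2.1, d.2.2.1]
    have hhp := hxp _ hhg
    have e1 := Sm.mul_left hz hsm' (hst' _ hhp) (hst _ hph)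
    have e2 : Sm z t (star h * (q 2 • b.1 + q 3 • e.1)) := by
      have : star h * (q 2 • b.1 + q 3 • e.1) =
          (star (q 0) * q 2) • (star a.1 * b.1) + (star (q 0) * q 3) • (star a.1 * e.1) +
          ((star (q 1) * q 2) • (star d.1 * b.1) + (star (q 1) * q 3) • (star d.1 * e.1)) := by
        rw [hh, star_add, star_smul, star_smul, add_mul, mul_add, mul_add]
        simp only [smul_mul_assoc, mul_smul_comm, smul_smul]
        congr 2 <;> (congr 1; ring)
      rw [this]
      exact Sm.add hz (Sm.add hz (hab.smul _) ((hsymm _ _ hea).smul _))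
        (Sm.add hz ((hsymm _ _ hbd).smul _) (hde.smul _))
    have e3 := Sm.sub hz e1 e2
    rw [mul_add, add_sub_cancel_right, ← hh] at e3
    have e4 := Sm.of_star_mul hz e3 hph hhp
    rw [hh] at e4
    by_cases q0 : q 0 = 0
    · by_cases q1 : q 1 = 0
      · right
        have e5 : Sm z t (q 2 • b.1 + q 3 • e.1) := by
          rwa [q0, q1, zero_smul, zero_smul, zero_add, zero_add] at hsm'
        by_cases q2 : q 2 = 0
        · rw [q2, zero_smul, zero_add] at e5
          by_cases q3 : q 3 = 0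
          · exfalso
            apply hq
            funext i
            fin_cases i
            · exact q0
            · exact q1
            · exact q2
            · exact q3
          · exact absurd (e5.of_smul q3) e.2.2.2
        · by_cases q3 : q 3 = 0
          · rw [q3, zero_smul, add_zero] at e5
            exact absurd (e5.of_smul q2) b.2.2.2
          · exact ⟨q 2, q 3, q2, q3, e5⟩
      · rw [q0, zero_smul, zero_add] at e4
        exact absurd (e4.of_smul q1) d.2.2.2
    · by_cases q1 : q 1 = 0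
      · rw [q1, zero_smul, add_zero] at e4
        exact absurd (e4.of_smul q0) a.2.2.2
      · exact Or.inl ⟨q 0, q 1, q0, q1, e4⟩

end

/-- No unital C*-algebra of real rank zero has a corner with classes in such a monoid. -/
theorem no_cls {M : Type v} [AddCommMonoid M] (N : NSys Ix M) {U : Type u} [CStarAlgebra U]
    (hU : FS U) {p : U} (c : Cls U M p) (hu : c.cls p = N.u) : False := by
  classical
  obtain ⟨z, hz⟩ := exists_cen N hU c hu
  choose pr hpr hprs hprc using fun i => exists_pr (N := N) (c := c) hu i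
  -- the projections measuring the lack of orthogonality
  choose w hw1 hw2 hw3 using fun (i j : Fin 19 × Ix) (n : ℕ) =>
    lemP hU (pr j * pr i) (1 / ((n : ℝ) + 1)) (by positivity)
  have hf : ∀ i j n, IsP p (pr j * pr i * w i j n) := fun i j n =>
    isP_of_star c.ps (hw1 i j n) (hw2 i j n) (by
      rw [← mul_assoc, ← mul_assoc, (hpr j).2.1])
  have hS : ∀ i j n, ∃ S : Finset (Fin 19 × Ix), ∀ t t' : Xs Ix, (∀ l ∈ S, t l = t' l) →
      N.r t (c.cls (pr j * pr i * w i j n)) = N.r t' (c.cls (pr j * pr i * w i j n)) :=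
    fun i j n => fin_dep' _ (N.cont _)
  choose S hS using hS
  obtain ⟨x, hx⟩ := free19 (fun i j => ⋃ n, (S i j n : Set (Fin 19 × Ix))) (fun i j =>
    Set.countable_iUnion fun n => (S i j n).countable_toSet)
  obtain ⟨t, ht⟩ : ∃ t : Xs Ix, ∀ l, t l = true ↔ l.2 = x l.1 :=
    ⟨fun l => decide (l.2 = x l.1), fun l => by simp⟩
  have hact : ∀ k, act t k := fun k => ⟨x k, (ht _).2 rfl⟩
  -- orthogonality near `t`
  have hsm : ∀ k l, Orth k l → Sm z t (pr (l, x l) * pr (k, x k)) := by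
    intro k l hkl
    intro ε hε
    obtain ⟨n, hn⟩ := exists_nat_one_div_lt hε
    obtain ⟨t', ht'⟩ : ∃ t' : Xs Ix, ∀ m, t' m = true ↔ m = (k, x k) ∨ m = (l, x l) :=
      ⟨fun m => decide (m = (k, x k) ∨ m = (l, x l)), fun m => by simp⟩
    have h1 : N.r t' (c.cls (pr (l, x l) * pr (k, x k) * w (k, x k) (l, x l) n)) = 0 := by
      refine N.orth (k, x k) (l, x l) t' hkl ht' _ ?_ ?_
      · rw [← hprc]
        refine c.le _ (pr (k, x k)) (pr (l, x l)) (w (k, x k) (l, x l) n) (hf _ _ _) (hpr _) rfl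
      · rw [← hprc]
        refine c.le _ (pr (l, x l)) 1 (pr (k, x k) * w (k, x k) (l, x l) n) (hf _ _ _) (hpr _) ?_
        rw [one_mul, mul_assoc]
    have h2 : N.r t (c.cls (pr (l, x l) * pr (k, x k) * w (k, x k) (l, x l) n)) = 0 := by
      rw [← h1]
      refine hS (k, x k) (l, x l) n t t' ?_
      rintro ⟨m, y⟩ hm
      have key : t (m, y) = true ↔ t' (m, y) = true := by
        rw [ht, ht']
        constructor
        · intro hy
          have hy' : y = x m := hy
          by_contra hcon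
          push Not at hcon
          rw [hy'] at hcon hm
          have hkm : k ≠ m := fun h => hcon.1 (by rw [h])
          have hlm : l ≠ m := fun h => hcon.2 (by rw [h])
          exact hx k l m hkm hlm (Set.mem_iUnion.2 ⟨n, hm⟩)
        · rintro (h | h)
          · rw [Prod.mk.injEq] at h
            show y = x m
            rw [h.1, h.2]
          · rw [Prod.mk.injEq] at h
            show y = x m
            rw [h.1, h.2]
      exact Bool.eq_iff_iff.2 key
    obtain ⟨C, hC, h3⟩ := rank_zero hz hact (hf (k, x k) (l, x l) n) h2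
    refine ⟨C, hC, ?_⟩
    have h4 : z C * (pr (l, x l) * pr (k, x k)) =
        z C * ((1 - pr (l, x l) * pr (k, x k) * w (k, x k) (l, x l) n) *
          (pr (l, x l) * pr (k, x k))) := by
      rw [sub_mul, one_mul, mul_sub, ← mul_assoc (z C) (pr (l, x l) * pr (k, x k) * _), h3,
        zero_mul, sub_zero]
    rw [h4]
    calc ‖z C * ((1 - pr (l, x l) * pr (k, x k) * w (k, x k) (l, x l) n) *
          (pr (l, x l) * pr (k, x k)))‖ ≤ ‖z C‖ * ‖(1 - pr (l, x l) * pr (k, x k) *
          w (k, x k) (l, x l) n) * (pr (l, x l) * pr (k, x k))‖ := norm_mul_le _ _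
      _ ≤ 1 * (1 / ((n : ℝ) + 1)) :=
          mul_le_mul (z_norm hz C) (hw3 _ _ _) (norm_nonneg _) (by norm_num)
      _ ≤ ε := by rw [one_mul]; exact hn.le
  -- the classes near `t`
  obtain ⟨γ, hγ⟩ := N.loc t hact
  choose C hC hCγ using hγ
  obtain ⟨D, hD⟩ : ∃ D, D = C N.u ⊓ (Finset.univ : Finset (Fin 19)).inf fun k =>
    C (N.a (k, x k)) := ⟨_, rfl⟩
  have htD : t ∈ D := by
    rw [hD]
    exact ⟨hC _, finset_inf_mem t _ _ fun k _ => hC _⟩
  have hDu : N.B.ρ D N.u = 3 • N.B.ρ D γ := by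
    have hle : D ≤ C N.u := by rw [hD]; exact inf_le_left
    rw [← N.B.le hle, hCγ, map_nsmul, N.B.le hle, N.ru]
  have hDa : ∀ k, N.B.ρ D (N.a (k, x k)) = N.B.ρ D γ := by
    intro k
    have hle : D ≤ C (N.a (k, x k)) := by
      rw [hD]
      exact inf_le_right.trans (Finset.inf_le (Finset.mem_univ k))
    rw [← N.B.le hle, hCγ, map_nsmul, N.B.le hle, N.ra t _ ((ht _).2 rfl), one_smul]
  -- the minimal projection
  obtain ⟨q, hq⟩ : ∃ q : Fin 19 → U, ∀ k, q k = z D * pr (k, x k) := ⟨_, fun _ => rfl⟩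
  have hcomm : ∀ k, z D * pr (k, x k) = pr (k, x k) * z D := fun k =>
    hz.comm D _ (hpr _).2.1 (hpr _).2.2
  have hqP : ∀ k, IsP p (q k) := fun k => by
    rw [hq]
    exact isP_mul (hz.isP D) (hpr _) (hcomm k)
  have hqs : ∀ k, star (q k) = q k := fun k => by
    rw [hq, star_mul, hz.sa, hprs, ← hcomm]
  have hqc : ∀ k, c.cls (q k) = N.B.ρ D γ := fun k => by
    rw [hq, hz.cut D _ (hpr _), hprc, hDa]
  obtain ⟨g, hg⟩ : ∃ g, g = q 0 := ⟨_, rfl⟩
  have hgP : IsP p g := by rw [hg]; exact hqP 0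
  have hgs : star g = g := by rw [hg]; exact hqs 0
  have hgc : c.cls g = N.B.ρ D γ := by rw [hg]; exact hqc 0
  have hgr : N.r t (c.cls g) = 1 := by
    have h1 := N.ra t (0, x 0) ((ht _).2 rfl)
    rw [← N.B.compl D (N.a (0, x 0)), map_add, N.rρ t Dᶜ _ (fun h => h htD), add_zero, hDa] at h1
    rw [hgc, h1]
  -- the splitting of `z D`
  have h3 : c.cls (z D) = N.B.ρ D γ + (N.B.ρ D γ + N.B.ρ D γ) := by
    rw [hz.cls, hDu, succ_nsmul, two_nsmul, add_comm]
  obtain ⟨f1, hf1, _, _, hf1c, hf1c'⟩ := c.split (z D) (hz.isP D) _ _ h3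
  have hrest : IsP p (z D - f1) := by
    apply isP_sub (hz.isP D) hf1 <;> assumption
  obtain ⟨f2, hf2, _, _, hf2c, hf3c⟩ := c.split (z D - f1) hrest _ _ hf1c'
  have hf3 : IsP p (z D - f1 - f2) := by
    apply isP_sub hrest hf2 <;> assumption
  have hsum : z D = f1 + f2 + (z D - f1 - f2) := by abel
  have hfac : ∀ f, IsP p f → c.cls f = N.B.ρ D γ → ∃ X Y : U, f = X * Y ∧ p * X = X ∧
      X * g = X ∧ g * Y = Y ∧ Y * X = g := by
    intro f hf hfc
    obtain ⟨a, b, hab, hba⟩ := c.eqv f g hf hgP (by rw [hfc, hgc])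
    refine ⟨f * a * g, g * b * f, ?_, ?_, ?_, ?_, ?_⟩
    · calc f = f * f * f * f := by rw [hf.1, hf.1, hf.1]
        _ = f * (a * b) * (a * b) * f := by rw [hab]
        _ = f * a * (b * a) * b * f := by noncomm_ring
        _ = f * a * (g * g) * b * f := by rw [hba, hgP.1]
        _ = f * a * g * (g * b * f) := by noncomm_ring
    · rw [← mul_assoc, ← mul_assoc, hf.2.1]
    · rw [mul_assoc, hgP.1]
    · rw [← mul_assoc, ← mul_assoc, hgP.1]
    · calc g * b * f * (f * a * g) = g * b * (f * f) * a * g := by noncomm_ring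
        _ = g * b * (a * b) * a * g := by rw [hf.1, hab]
        _ = g * (b * a) * (b * a) * g := by noncomm_ring
        _ = g := by rw [hba, hgP.1, hgP.1, hgP.1]
  obtain ⟨X1, Y1, a1, a2, a3, a4, _⟩ := hfac f1 hf1 hf1c
  obtain ⟨X2, Y2, b1, b2, b3, b4, _⟩ := hfac f2 hf2 hf2c
  obtain ⟨X3, Y3, d1, d2, d3, d4, _⟩ := hfac _ hf3 hf3c
  -- the vectors
  choose ξ η e1 e2 e3 e4 e5 using fun k => hfac (q k) (hqP k) (hqc k)
  have hqξ : ∀ k, q k * ξ k = ξ k := by
    intro k
    rw [e1, mul_assoc, e5, e3]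
  have hprq : ∀ k, pr (k, x k) * q k = q k := by
    intro k
    rw [hq, hcomm, ← mul_assoc, (hpr _).1]
  have hprξ : ∀ k, pr (k, x k) * ξ k = ξ k := by
    intro k
    conv_lhs => rw [← hqξ k, ← mul_assoc, hprq]
    exact hqξ k
  have hXp : ∀ X : U, X * g = X → X * p = X := by
    intro X hX
    rw [← hX, mul_assoc, hgP.2.2]
  refine no_conf hz hU hact hgP hgs hgr htD ![X1, X2, X3] ![Y1, Y2, Y3] ?_ ?_ ?_ ?_ ξ e2 e3 ?_ ?_
  · rw [Fin.sum_univ_three]
    show z D = X1 * Y1 + X2 * Y2 + X3 * Y3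
    rw [← a1, ← b1, ← d1]
    exact hsum
  · intro j
    fin_cases j
    · exact a2
    · exact b2
    · exact d2
  · intro j
    fin_cases j
    · exact hXp _ a3
    · exact hXp _ b3
    · exact hXp _ d3
  · intro j
    fin_cases j
    · exact a4
    · exact b4
    · exact d4
  · intro k hk
    -- `η k ξ k = g`
    have h1 : η k * p * ξ k = g := by rw [mul_assoc, e2, e5]
    have h2 : Sm z t g := by
      rw [← h1]
      apply Sm.mul_left hz hk
      · rw [← mul_assoc, ← e4 k, ← mul_assoc p, hgP.2.1]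
      · rw [mul_assoc, c.pp]
    have h3 := sm_rank hz hgP h2
    rw [hgr] at h3
    exact one_ne_zero h3
  · intro k l hkl
    have h1 : star (ξ k) * ξ l = star (ξ k) * (pr (k, x k) * pr (l, x l)) * ξ l := by
      have h2 : star (ξ k) * pr (k, x k) = star (ξ k) := by
        have := congrArg star (hprξ k)
        rwa [star_mul, hprs] at this
      rw [← mul_assoc (star (ξ k)), h2, mul_assoc, hprξ]
    rw [h1]
    refine Sm.mul_right (Sm.mul_left hz (hsm l k hkl.symm) ?_ ?_) _
    · have := congrArg star (hXp _ (e3 k))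
      have ps := c.ps
      rwa [star_mul, ps] at this
    · have := congrArg star (e2 k)
      have ps := c.ps
      rwa [star_mul, ps] at this

end Pool.Agent.H6.NK
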