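import Pool.Agent.H6.NK.Ring

set_option autoImplicit false

/-!
Regularity of the ring and the properties of its monoid `V` that will be used.
-/

namespace Pool.Agent.H6.NK

open Pool.Agent.H494R3.NK Pool.Agent.Y78.NK TopologicalSpace

universe u v

section
variable {X : Type} [TopologicalSpace X] {R : Type u} [NonUnitalRing R] (P : CRing X R)

theorem CRing.mul_left (C : Clopens X) (x y : R) : P.π C x * y = P.π C (x * y) := by
  conv_lhs => rw [← P.compl C y, mul_add, P.orth, add_zero, ← map_mul]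

theorem CRing.mul_right (C : Clopens X) (x y : R) : x * P.π C y = P.π C (x * y) := by
  conv_lhs => rw [← P.compl C x, add_mul, P.orth', add_zero, ← map_mul]

theorem CRing.regular [CompactSpace X] (h : ∀ (s : X) (f : R), ∃ (C : Clopens X) (g : R), s ∈ C ∧
    P.π C (f * g * f) = P.π C f) (f : R) : ∃ g, f * g * f = f := by
  have key : ∃ g, P.π ⊤ (f * g * f) = P.π ⊤ f := by
    refine clopen_induction (fun C => ∃ g, P.π C (f * g * f) = P.π C f) ?_ ?_ ?_ ?_
    · exact ⟨0, by rw [P.bot, P.bot]⟩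
    · rintro C D hD ⟨g, hg⟩
      refine ⟨g, ?_⟩
      have := congrArg (P.π D) hg
      rwa [P.inf, P.inf, inf_eq_left.2 hD] at this
    · rintro C D hCD ⟨g, hg⟩ ⟨g', hg'⟩
      refine ⟨P.π C g + P.π D g', ?_⟩
      have h1 : ∀ x, P.π (C ⊔ D) x = P.π C x + P.π D x := by
        intro x
        have h1 := P.compl C (P.π (C ⊔ D) x)
        have h2 : Cᶜ ⊓ (C ⊔ D) = D := by
          rw [inf_sup_left, compl_inf_self, bot_sup_eq]
          exact inf_eq_right.2 (le_compl_iff_disjoint_left.2 hCD)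
        rw [P.inf, P.inf, inf_eq_left.2 le_sup_left, h2] at h1
        exact h1.symm
      have h2 : f * (P.π C g + P.π D g') * f = P.π C (f * g * f) + P.π D (f * g' * f) := by
        rw [mul_add, add_mul, P.mul_right, P.mul_right, P.mul_left, P.mul_left]
      rw [h2, h1, h1, map_add, map_add, P.inf, P.inf, P.inf, P.inf, inf_idem, inf_idem,
        hCD.eq_bot, hCD.symm.eq_bot, P.bot, P.bot, add_zero, zero_add, hg, hg']
    · intro s
      obtain ⟨C, g, hs, hg⟩ := h s f
      exact ⟨C, hs, g, hg⟩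
  obtain ⟨g, hg⟩ := key
  rw [P.top, P.top] at hg
  exact ⟨g, hg⟩

end

theorem field_regular (K : Type) [Field K] (x : K) : ∃ y : K, x * y * x = x := by
  by_cases h : x = 0
  · exact ⟨0, by rw [h]; simp⟩
  · exact ⟨x⁻¹, by rw [mul_inv_cancel₀ h, one_mul]⟩

section
variable {I : Type}

/-- the ring is von Neumann regular -/
theorem rg_regular (f : Rg I) : ∃ g, f * g * f = f := by
  refine (cR I).regular ?_ f
  intro s f
  have key : ∀ (F : Type) [NonUnitalRing F] (α : Rg I →ₙ+* F) (β : F →ₙ+* Rg I),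
      (∀ f, ∃ C : Clopens (Xs I), s ∈ C ∧ (cR I).π C f = (cR I).π C (β (α f))) →
      (∀ x : F, ∃ y : F, x * y * x = x) →
      ∃ (C : Clopens (Xs I)) (g : Rg I), s ∈ C ∧ (cR I).π C (f * g * f) = (cR I).π C f := by
    intro F _ α β h hF
    obtain ⟨C, hC, h1⟩ := h f
    obtain ⟨y, hy⟩ := hF (α f)
    refine ⟨C, β y, hC, ?_⟩
    rw [map_mul, map_mul, h1, ← map_mul, ← map_mul, ← map_mul, ← map_mul, hy]
  by_cases h : ∀ k l, act s k → act s l → ek k * ek l = ek l * ek k
  · obtain ⟨β, hβ⟩ := retr_c s h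
    refine key _ (alC h) β hβ fun x => ?_
    choose y hy using fun j => field_regular (ZMod 2) (x j)
    exact ⟨y, funext hy⟩
  · obtain ⟨β, hβ⟩ := retr_nc s h
    exact key _ (evR s) β hβ fun x => mreg_fin (field_regular (ZMod 2)) 3 3 x

end

/-! ### the properties to be used -/

/-- the point with exactly two active coordinates -/
def pt2 {I : Type} [DecidableEq I] (i j : Fin 19 × I) : Xs I := fun l => decide (l = i ∨ l = j)

/-- The properties of the monoid that are incompatible with C*-algebras of real rank zero. -/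
structure NSys (I : Type) (M : Type u) [AddCommMonoid M] where
  B : BMon (Xs I) M
  u : M
  a : Fin 19 × I → M
  a' : Fin 19 × I → M
  ha : ∀ i, a i + a' i = u
  r : Xs I → M →+ ℕ
  cont : ∀ c, Continuous fun s => r s c
  rρ : ∀ s C c, s ∉ C → r s (B.ρ C c) = 0
  orth : ∀ (i j : Fin 19 × I) (s : Xs I), Orth i.1 j.1 → (∀ l, s l = true ↔ l = i ∨ l = j) →
    ∀ c, Le c (a i) → Le c (a j) → r s c = 0
  loc : ∀ s, (∀ k, act s k) → ∃ γ, ∀ c, ∃ C : Clopens (Xs I), s ∈ C ∧
    B.ρ C c = r s c • B.ρ C γ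
  ru : ∀ s, r s u = 3
  ra : ∀ s i, s i = true → r s (a i) = 1
  dim : DimCone M

section
variable {I : Type}

theorem vmap_cl {R : Type u} {S : Type v} [NonUnitalRing R] [NonUnitalRing S] (φ : R →ₙ+* S)
    {p : R} (hp : p * p = p) (hq : φ p * φ p = φ p) : vmap φ (cl hp) = cl hq := rfl

theorem cl_eq_zero {R : Type u} [NonUnitalRing R] {p : R} (hp : p * p = p) (h : p = 0) :
    cl hp = 0 := by
  subst h
  apply VV.mk_eq.2
  have : (s1 (0 : R)) = 0 := rfl
  show Eqv (s1 (0 : R)) (Idem.zero R).mat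
  rw [this]
  exact Eqv.zero

theorem cl_add {R : Type u} [Ring R] (p : R) (hp : p * p = p) (hq : (1 - p) * (1 - p) = 1 - p) :
    cl hp + cl hq = cl (one_mul (1 : R)) := by
  have h1 : (s1 p + s1 (1 - p)) * (s1 p + s1 (1 - p)) = s1 p + s1 (1 - p) := by
    have : s1 p + s1 (1 - p) = s1 (1 : R) := by
      ext i j
      show p + (1 - p) = 1
      abel
    rw [this]
    exact s1_idem (one_mul 1)
  have h2 := cm_add (s1_idem hp) (s1_idem hq) h1 (by
    ext i j
    rw [Matrix.mul_apply, Fin.sum_univ_one]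
    show p * (1 - p) = 0
    rw [mul_sub, mul_one, hp, sub_self]) (by
    ext i j
    rw [Matrix.mul_apply, Fin.sum_univ_one]
    show (1 - p) * p = 0
    rw [sub_mul, one_mul, hp, sub_self])
  have h3 : cl (one_mul (1 : R)) = cm h1 := by
    apply VV.mk_eq.2
    show Eqv (s1 (1 : R)) (s1 p + s1 (1 - p))
    have : s1 p + s1 (1 - p) = s1 (1 : R) := by
      ext i j
      show p + (1 - p) = 1
      abel
    rw [this]
    exact Eqv.refl (s1_idem (one_mul 1))
  rw [h3, h2]
  rfl

/-- the idempotent of type `k` with index `x`, active where the coordinate is -/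
noncomputable def pI (i : Fin 19 × I) : Rg I :=
  cf ⟨{s | s i = true}, by
    have : {s : Xs I | s i = true} = (fun s : Xs I => s i) ⁻¹' {true} := rfl
    rw [this]
    exact (isClopen_discrete {true}).preimage (continuous_apply i)⟩ (ek i.1)
    fun s hs => Good.ek ⟨i.2, hs⟩

theorem pI_true {i : Fin 19 × I} {s : Xs I} (h : s i = true) : (pI i).1 s = ek i.1 :=
  cf_mem h

theorem pI_false {i : Fin 19 × I} {s : Xs I} (h : ¬ s i = true) : (pI i).1 s = 0 :=
  cf_not h

theorem pI_idem (i : Fin 19 × I) : pI i * pI i = pI i := rg_ext fun s => by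
  show (pI i).1 s * (pI i).1 s = (pI i).1 s
  by_cases h : s i = true
  · rw [pI_true h, ek_idem]
  · rw [pI_false h, mul_zero]

theorem one_sub_idem' {R : Type u} [Ring R] {p : R} (hp : p * p = p) :
    (1 - p) * (1 - p) = 1 - p := by
  rw [mul_sub, sub_mul, one_mul, sub_mul, one_mul, hp]
  simp

theorem rk_le' {M : Type u} [AddCommMonoid M] (r : M →+ ℕ) {a b : M} (h : Le a b) :
    r a ≤ r b := by
  obtain ⟨c, rfl⟩ := h
  rw [map_add]
  exact Nat.le_add_right _ _

theorem le_map {M : Type u} {N : Type v} [AddCommMonoid M] [AddCommMonoid N] (f : M →+ N)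
    {a b : M} (h : Le a b) : Le (f a) (f b) := by
  obtain ⟨c, rfl⟩ := h
  exact ⟨f c, (map_add f a c).symm⟩

theorem ek_nc : ek 0 * ek 1 ≠ ek 1 * ek 0 := by
  intro h
  have h1 := ek_comm (by decide) h
  rw [ek_mul] at h1
  have h2 : (vr 0 ⬝ᵥ vc 1) * (vc 0 2 * vr 1 2) = 0 := congrFun (congrFun h1 2) 2
  have h3 : ∀ k l : Fin 19, k = 0 → l = 1 → (vr k ⬝ᵥ vc l) * (vc k 2 * vr l 2) ≠ 0 := by
    decide
  exact h3 0 1 rfl rfl h2

theorem rg_loc (s : Xs I) (hs : ∀ k, act s k) : ∃ γ : VV (Rg I), ∀ c, ∃ C : Clopens (Xs I),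
    s ∈ C ∧ vmap ((cR I).π C) c =
      (rkM (ZMod 2) 3 (vmap (evR s) c)) • vmap ((cR I).π C) γ := by
  have h : ¬ ∀ k l, act s k → act s l → ek k * ek l = ek l * ek k := by
    intro h
    exact ek_nc (h 0 1 (hs 0) (hs 1))
  obtain ⟨β, hβ⟩ := retr_nc s h
  refine ⟨vmap β (cl (single_idem (K := ZMod 2) (0 : Fin 3))), fun c => ?_⟩
  obtain ⟨C, hC, h1⟩ := retr_class (evR s) β hβ c
  refine ⟨C, hC, ?_⟩
  have h2 := mt_class (0 : Fin 3) (vmap (evR s) c)
  have h3 := congrArg (fun x => vmap ((cR I).π C) (vmap β x)) h2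
  simp only [map_nsmul] at h3
  rw [h1]
  exact h3

/-- the rank at a point -/
noncomputable def rkR (s : Xs I) : VV (Rg I) →+ ℕ := (rkM (ZMod 2) 3).comp (vmap (evR s))

theorem rkR_cont (c : VV (Rg I)) : Continuous fun s => rkR s c := by
  obtain ⟨e, rfl⟩ := exists_mk c
  refine IsLocallyConstant.continuous ((IsLocallyConstant.iff_exists_open _).2 fun s => ?_)
  choose C hC h1 using fun f => exists_const s f
  refine ⟨((Finset.univ : Finset (Fin e.size × Fin e.size)).inf fun p => C (e.mat p.1 p.2) :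
    Clopens (Xs I)), Clopens.isOpen _, finset_inf_mem s _ _ (fun p _ => hC _), fun s' hs' => ?_⟩
  show (flat (Matrix.map e.mat (evR s'))).rank = (flat (Matrix.map e.mat (evR s))).rank
  congr 2
  apply Matrix.ext
  intro i j
  show (e.mat i j).1 s' = (e.mat i j).1 s
  apply h1
  have hle : ((Finset.univ : Finset (Fin e.size × Fin e.size)).inf fun p => C (e.mat p.1 p.2)) ≤
      C (e.mat i j) :=
    Finset.inf_le (f := fun p : Fin e.size × Fin e.size => C (e.mat p.1 p.2))
      (Finset.mem_univ (i, j))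
  exact hle hs'

theorem rkR_res (s : Xs I) (C : Clopens (Xs I)) (c : VV (Rg I)) (hs : s ∉ C) :
    rkR s ((cR I).toBMon.ρ C c) = 0 := by
  show rkM (ZMod 2) 3 (vmap (evR s) (vmap ((cR I).π C) c)) = 0
  have : vmap (evR s) (vmap ((cR I).π C) c) = 0 := by
    rw [vmap_comp ((cR I).π C) (evR s) ((evR s).comp ((cR I).π C)) (fun _ => rfl)]
    apply vmap_zero
    intro f
    exact resC_not hs
  rw [this, map_zero]

theorem rkR_orth (i j : Fin 19 × I) (s : Xs I) (hij : Orth i.1 j.1)
    (hs : ∀ l, s l = true ↔ l = i ∨ l = j) (c : VV (Rg I)) (hi : Le c (cl (pI_idem i)))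
    (hj : Le c (cl (pI_idem j))) : rkR s c = 0 := by
  have hact : ∀ k, act s k → k = i.1 ∨ k = j.1 := by
    rintro k ⟨x, hx⟩
    rcases (hs (k, x)).1 hx with h | h
    · exact Or.inl (congrArg Prod.fst h)
    · exact Or.inr (congrArg Prod.fst h)
  have hcomm : ∀ k l, act s k → act s l → ek k * ek l = ek l * ek k := by
    intro k l hk hl
    have o1 := ek_orth hij
    have o2 := ek_orth hij.symm
    rcases hact k hk with rfl | rfl <;> rcases hact l hl with rfl | rfl
    · rfl
    · rw [o1, o2]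
    · rw [o1, o2]
    · rfl
  have hi' : s i = true := (hs i).2 (Or.inl rfl)
  have hj' : s j = true := (hs j).2 (Or.inr rfl)
  have hcen : ∀ f : Rg I, ek i.1 * f.1 s = f.1 s * ek i.1 := by
    intro f
    have := good_comm hcomm (f.2 s) (some i.1)
    rwa [zt_some s ⟨i.2, hi'⟩] at this
  obtain ⟨φ, hφ⟩ : ∃ φ : Rg I →ₙ+* L3, ∀ f, φ f = f.1 s * ek i.1 := ⟨
    { toFun := fun f => f.1 s * ek i.1
      map_mul' := fun f g => by
        show f.1 s * g.1 s * ek i.1 = f.1 s * ek i.1 * (g.1 s * ek i.1)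
        rw [← hcen g, mul_assoc (f.1 s) (ek i.1), ← mul_assoc (ek i.1) (ek i.1), ek_idem,
          mul_assoc, hcen g]
      map_zero' := zero_mul _
      map_add' := fun f g => add_mul _ _ _ }, fun _ => rfl⟩
  obtain ⟨ψ, hψ⟩ : ∃ ψ : Rg I →ₙ+* L3, ∀ f, ψ f = f.1 s * (1 - ek i.1) := ⟨
    { toFun := fun f => f.1 s * (1 - ek i.1)
      map_mul' := fun f g => by
        show f.1 s * g.1 s * (1 - ek i.1) = f.1 s * (1 - ek i.1) * (g.1 s * (1 - ek i.1))
        have h1 : (1 - ek i.1) * g.1 s = g.1 s * (1 - ek i.1) := by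
          rw [sub_mul, mul_sub, hcen g, one_mul, mul_one]
        rw [← h1, mul_assoc (f.1 s) (1 - ek i.1), ← mul_assoc (1 - ek i.1) (1 - ek i.1),
          one_sub_idem' (ek_idem _), mul_assoc, h1]
      map_zero' := zero_mul _
      map_add' := fun f g => add_mul _ _ _ }, fun _ => rfl⟩
  have hsplit : vmap (evR s) c = vmap φ c + vmap ψ c := by
    apply vmap_add
    · intro f
      rw [hφ, hψ, ← mul_add]
      show f.1 s = _
      rw [add_sub_cancel, mul_one]
    · intro f g
      rw [hφ, hψ, mul_assoc, ← mul_assoc (ek i.1), hcen, mul_assoc, mul_sub, mul_one, ek_idem,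
        sub_self, mul_zero, mul_zero]
    · intro f g
      have h1 : (1 - ek i.1) * g.1 s = g.1 s * (1 - ek i.1) := by
        rw [sub_mul, mul_sub, hcen g, one_mul, mul_one]
      rw [hφ, hψ, mul_assoc, ← mul_assoc (1 - ek i.1), h1, mul_assoc, sub_mul, one_mul, ek_idem,
        sub_self, mul_zero, mul_zero]
  show rkM (ZMod 2) 3 (vmap (evR s) c) = 0
  rw [hsplit, map_add]
  have z1 : rkM (ZMod 2) 3 (vmap φ c) = 0 := by
    have h1 := rk_le' (rkM (ZMod 2) 3) (le_map (vmap φ) hj)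
    have h2 : vmap φ (cl (pI_idem j)) = 0 := by
      have h3 : φ (pI j) = 0 := by rw [hφ, pI_true hj', ek_orth hij.symm]
      exact cl_eq_zero (by rw [h3, mul_zero]) h3
    rw [h2, map_zero] at h1
    omega
  have z2 : rkM (ZMod 2) 3 (vmap ψ c) = 0 := by
    have h1 := rk_le' (rkM (ZMod 2) 3) (le_map (vmap ψ) hi)
    have h2 : vmap ψ (cl (pI_idem i)) = 0 := by
      have h3 : ψ (pI i) = 0 := by
        rw [hψ, pI_true hi', mul_sub, mul_one, ek_idem, sub_self]
      exact cl_eq_zero (by rw [h3, mul_zero]) h3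
    rw [h2, map_zero] at h1
    omega
  rw [z1, z2]

theorem rkR_u (s : Xs I) : rkR s (cl (one_mul (1 : Rg I))) = 3 := by
  show rkM (ZMod 2) 3 (vmap (evR s) (cl (one_mul (1 : Rg I)))) = 3
  have h1 : vmap (evR s) (cl (one_mul (1 : Rg I))) = cl (one_mul (1 : L3)) := rfl
  rw [h1]
  show (flat (s1 (1 : L3))).rank = 3
  have h2 : flat (s1 (1 : L3)) = 1 := by
    ext ⟨i, a⟩ ⟨j, b⟩
    have : i = j := Subsingleton.elim _ _
    subst this
    show (1 : L3) a b = _
    rw [Matrix.one_apply, Matrix.one_apply]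
    simp
  rw [h2, Matrix.rank_one]
  simp

theorem rkR_a (s : Xs I) (i : Fin 19 × I) (hs : s i = true) : rkR s (cl (pI_idem i)) = 1 := by
  show rkM (ZMod 2) 3 (vmap (evR s) (cl (pI_idem i))) = 1
  show (flat (Matrix.map (s1 (pI i)) (evR s))).rank = 1
  have h2 : flat (Matrix.map (s1 (pI i)) (evR s)) =
      (Matrix.of fun (p : Fin 1 × Fin 3) (_ : Fin 1) => vc i.1 p.2) *
        Matrix.of fun (_ : Fin 1) (p : Fin 1 × Fin 3) => vr i.1 p.2 := by
    ext ⟨x, a⟩ ⟨y, b⟩
    rw [Matrix.mul_apply, Fin.sum_univ_one]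
    show (pI i).1 s a b = _
    rw [pI_true hs]
    rfl
  rw [h2, rank_of, Fintype.card_fin]
  ext x y
  have : x = y := Subsingleton.elim _ _
  subst this
  rw [Matrix.mul_apply, Fintype.sum_prod_type, Fin.sum_univ_one, Matrix.one_apply_eq]
  exact vr_vc i.1

variable (I) in
/-- the system given by the ring -/
noncomputable def nsys : NSys I (VV (Rg I)) where
  B := (cR I).toBMon
  u := cl (one_mul (1 : Rg I))
  a i := cl (pI_idem i)
  a' i := cl (one_sub_idem' (pI_idem i))
  ha i := cl_add _ _ _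
  r := rkR
  cont := rkR_cont
  rρ := rkR_res
  orth := rkR_orth
  loc := rg_loc
  ru := rkR_u
  ra := rkR_a
  dim := rg_dimCone

end

end Pool.Agent.H6.NK
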